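import Pool.Agent.LR78.BuchiCount

/-!
If `(x + a)(y + a)` is a square in `k(s)` for all `a ∈ F_p` (`p ≥ 13`) and `x` is not constant,
then `y = x^(p^u)` or `x = y^(p^u)`.
`buchi_count`: let `Q` be a zero of `x + a` of multiplicity `m`. If `m` is odd then `ord_Q (y+a)` is
odd, so `Q` is a zero of `y + a`, hence of `x - y`, or a pole of `y`; and `m ≤ 1 + 2 (m-1)`. If `m`
is even, `m ≤ 2 (m-1)`. Sum over `Q` and over the `p - 1` values `a ≠ a₁` of `zero_sets`:
`(p-1) d ≤ #zeros (x-y) + #poles y + 2 (2d-1) ≤ (d+e) + e + 4d - 2`.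
`buchi_sep`: with both inequalities, `(p-1)(d+e) + 4 ≤ 7 (d+e)`: contradiction.
`buchi_const`: `(p-2) d ≤ 2 (2d-1)`.
`buchi`: `x = x'^(p^i)`, `der x' ≠ 0`; if `y` is constant use `buchi_const` (all `a` with
`y + a ≠ 0`); otherwise `y = y'^(p^j)`, orders of `x'+a` and `x+a` have the same parity (`p` odd).
-/

set_option autoImplicit false

namespace LR78

open Polynomial

variable (p : ℕ) [Fact p.Prime] {k : Type} [Field k] [Algebra (ZMod p) k] [IsAlgClosed k]
  {x y : RatFunc k}

theorem buchi_sep (hp : 13 ≤ p) (hx : der x ≠ 0) (hy : der y ≠ 0)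
    (h : ∀ (a : ZMod p) (Q : k), Even (ord Q (x + algebraMap (ZMod p) (RatFunc k) a) +
      ord Q (y + algebraMap (ZMod p) (RatFunc k) a))) : x = y := by
  by_contra hxy
  have h1 := buchi_count p hx hy hxy h
  have h2 := buchi_count p hy hx (Ne.symm hxy) (fun a Q => by rw [add_comm]; exact h a Q)
  have h3 : 12 * dg x ≤ (p - 1) * dg x := Nat.mul_le_mul_right _ (by omega)
  have h4 : 12 * dg y ≤ (p - 1) * dg y := Nat.mul_le_mul_right _ (by omega)
  omega

theorem buchi_const (hp : 13 ≤ p) (hx : der x ≠ 0) (a₀ : ZMod p)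
    (h : ∀ a : ZMod p, a ≠ a₀ → ∀ Q : k,
      Even (ord Q (x + algebraMap (ZMod p) (RatFunc k) a))) : False := by
  classical
  obtain ⟨Z, hZ, hZ1, ⟨a₁, hZ2⟩, -⟩ := zero_sets p hx
  set T := (Finset.univ.erase a₁).erase a₀ with hT
  have hTcard : p - 2 ≤ T.card := by
    have h1 : (Finset.univ.erase a₁).card - 1 ≤ T.card := Finset.pred_card_le_card_erase
    rw [Finset.card_erase_of_mem (Finset.mem_univ _), Finset.card_univ, ZMod.card] at h1
    omega
  have h1 : (T.card : ℤ) * dg x ≤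
      2 * ∑ a ∈ T, ∑ Q ∈ Z a, (ord Q (x + algebraMap (ZMod p) (RatFunc k) a) - 1) := by
    rw [← nsmul_eq_mul, ← Finset.sum_const, Finset.mul_sum]
    refine Finset.sum_le_sum fun a ha => ?_
    have ha0 : a ≠ a₀ := Finset.ne_of_mem_erase ha
    have ha1 : a ≠ a₁ := Finset.ne_of_mem_erase (Finset.mem_of_mem_erase ha)
    rw [← hZ2 a ha1, Finset.mul_sum]
    refine Finset.sum_le_sum fun Q hQ => ?_
    have hpos := (hZ a Q).1 hQ
    obtain ⟨r, hr⟩ := h a ha0 Q
    omega
  have h2 : ∑ a ∈ T, ∑ Q ∈ Z a, (ord Q (x + algebraMap (ZMod p) (RatFunc k) a) - 1) ≤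
      ∑ a, ∑ Q ∈ Z a, (ord Q (x + algebraMap (ZMod p) (RatFunc k) a) - 1) := by
    refine Finset.sum_le_sum_of_subset_of_nonneg (Finset.subset_univ _) fun a _ _ => ?_
    refine Finset.sum_nonneg fun Q hQ => ?_
    have := (hZ a Q).1 hQ
    omega
  have h3 : (11 : ℤ) ≤ T.card := by
    have : 11 ≤ T.card := by omega
    exact_mod_cast this
  have h4 : (11 : ℤ) * dg x ≤ T.card * dg x :=
    mul_le_mul_of_nonneg_right h3 (by positivity)
  have h5 : (0 : ℤ) ≤ dg x := by positivity
  linarith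

omit [IsAlgClosed k] in
private lemma sep_add_ne_zero (hx : der x ≠ 0) (a : ZMod p) :
    x + algebraMap (ZMod p) (RatFunc k) a ≠ 0 := by
  intro h
  apply hx
  have : x = - algebraMap (ZMod p) (RatFunc k) a := eq_neg_of_add_eq_zero_left h
  rw [this, der_neg, der_algebraMap_zmod, neg_zero]

omit [IsAlgClosed k] in
private lemma frob_add_zmod (x : RatFunc k) (a : ZMod p) (i : ℕ) :
    x ^ p ^ i + algebraMap (ZMod p) (RatFunc k) a =
      (x + algebraMap (ZMod p) (RatFunc k) a) ^ p ^ i := by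
  rw [frob_add p, frob_zmod p]

omit [Algebra (ZMod p) k] [IsAlgClosed k] in
private lemma even_ord_of_isSquare {w : RatFunc k} (h : IsSquare w) (Q : k) : Even (ord Q w) := by
  obtain ⟨v, rfl⟩ := h
  rw [← pow_two, ord_pow]
  exact ⟨ord Q v, by push_cast; ring⟩

theorem buchi (hp : 13 ≤ p) (hx : ∀ c : k, x ≠ RatFunc.C c)
    (h : ∀ a : ZMod p, IsSquare ((x + algebraMap (ZMod p) (RatFunc k) a) *
      (y + algebraMap (ZMod p) (RatFunc k) a))) :
    ∃ u : ℕ, y = x ^ p ^ u ∨ x = y ^ p ^ u := by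
  have hodd : Odd p := (Fact.out : p.Prime).odd_of_ne_two (by omega)
  have hpow : ∀ i : ℕ, ¬ Even (((p ^ i : ℕ) : ℤ)) := by
    intro i
    rw [Int.even_coe_nat, Nat.not_even_iff_odd]
    exact hodd.pow
  obtain ⟨i, x', rfl, hx'⟩ := exists_sep p hx
  by_cases hy : ∃ c : k, y = RatFunc.C c
  · exfalso
    obtain ⟨c, rfl⟩ := hy
    by_cases hc : ∃ a₀ : ZMod p, RatFunc.C c + algebraMap (ZMod p) (RatFunc k) a₀ = 0
    · obtain ⟨a₀, ha₀⟩ := hc
      refine buchi_const p hp hx' a₀ fun a ha Q => ?_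
      have hne : RatFunc.C c + algebraMap (ZMod p) (RatFunc k) a ≠ 0 := by
        intro h0
        apply ha
        have h1 := h0.trans ha₀.symm
        exact (algebraMap (ZMod p) (RatFunc k)).injective (add_left_cancel h1)
      have h2 := even_ord_of_isSquare (h a) Q
      rw [frob_add_zmod, ord_mul (pow_ne_zero _ (sep_add_ne_zero p hx' a)) hne, ord_pow,
        algebraMap_zmod_eq_C, ← map_add, ord_C, add_zero, Int.even_mul] at h2
      rw [algebraMap_zmod_eq_C]
      exact h2.resolve_left (hpow i)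
    · push Not at hc
      refine buchi_const p hp hx' 0 fun a ha Q => ?_
      have h2 := even_ord_of_isSquare (h a) Q
      rw [frob_add_zmod, ord_mul (pow_ne_zero _ (sep_add_ne_zero p hx' a)) (hc a), ord_pow,
        algebraMap_zmod_eq_C, ← map_add, ord_C, add_zero, Int.even_mul] at h2
      rw [algebraMap_zmod_eq_C]
      exact h2.resolve_left (hpow i)
  · push Not at hy
    obtain ⟨j, y', rfl, hy'⟩ := exists_sep p hy
    have hxy : x' = y' := by
      refine buchi_sep p hp hx' hy' fun a Q => ?_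
      have h2 := even_ord_of_isSquare (h a) Q
      rw [frob_add_zmod, frob_add_zmod, ord_mul (pow_ne_zero _ (sep_add_ne_zero p hx' a))
        (pow_ne_zero _ (sep_add_ne_zero p hy' a)), ord_pow, ord_pow, Int.even_add, Int.even_mul,
        Int.even_mul, or_iff_right (hpow i), or_iff_right (hpow j)] at h2
      rw [Int.even_add]
      exact h2
    subst hxy
    rcases le_total i j with hij | hij
    · refine ⟨j - i, Or.inl ?_⟩
      rw [← pow_mul, ← pow_add, Nat.add_sub_cancel' hij]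
    · refine ⟨i - j, Or.inr ?_⟩
      rw [← pow_mul, ← pow_add, Nat.add_sub_cancel' hij]

end LR78
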