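import Pool.Agent.LR78.PalinA

/-!
The commutation relation (5) for `g = G`, `z = z'`: forces `S` to be palindromic.
`z' G^(p^M) - G z'^(p^(M-D)) ~ ∑_κ (S_κ - S_(D-κ)) G G^(p^(M-κ)) + ζ G^(p^(M-D-1)) - G ζ^(p^(M+1))`;
if `κ₀` is the least `κ` with `S_κ ≠ S_(D-κ)`, the right hand side has pole order
`1 + p^(M-κ₀)` at `Q`, prime to `p` (`as_ord`): contradiction.
-/

set_option autoImplicit false

namespace LR78

open Polynomial

variable {p : ℕ} [Fact p.Prime] {k : Type} [Field k] [Algebra (ZMod p) k]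
  {G z' ζ : RatFunc k} {S : (ZMod p)[X]} {D M : ℕ} {Q : k}

theorem palin_C (hp : 3 ≤ p) (hM : 2 * D + 4 ≤ M) (hdeg : S.natDegree ≤ D)
    (hz : z' = act p S G + ζ ^ p ^ (D + 1)) (hG : ord Q G = -1) (hζ : ge Q ζ 0)
    (h : asr p (z' * G ^ p ^ M - G * z' ^ p ^ (M - D))) : reflect D S = S := by
  have hp1 : 1 ≤ p := by omega
  have hG0 : G ≠ 0 := ne_zero_of_ord (Q := Q) (by rw [hG]; norm_num)
  have hGge : ge Q G (-(1 : ℤ)) := Or.inr hG.ge
  -- it suffices to show S_κ = S_(D-κ)
  suffices hS : ∀ j, j ≤ D → S.coeff j = S.coeff (D - j) by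
    ext j
    rw [coeff_reflect]
    by_cases hj : j ≤ D
    · rw [revAt_le hj]
      exact (hS j hj).symm
    · rw [revAt_eq_self_of_lt (by omega)]
  by_contra hne
  push Not at hne
  classical
  obtain ⟨hκD, hκ⟩ := Nat.find_spec hne
  set κ := Nat.find hne with hκdef
  have hmin : ∀ j < κ, S.coeff j = S.coeff (D - j) := by
    intro j hj
    by_contra hj'
    exact Nat.find_min hne hj ⟨by omega, hj'⟩
  set d : ℕ → RatFunc k := fun j =>
    algebraMap (ZMod p) (RatFunc k) (S.coeff j - S.coeff (D - j)) with hd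
  set c : ℕ → RatFunc k := fun j => algebraMap (ZMod p) (RatFunc k) (S.coeff j) with hc
  have e1 : z' = ∑ j ∈ Finset.range (D + 1), c j * G ^ p ^ j + ζ ^ p ^ (D + 1) := by
    have := act_pow_expand hdeg hz 0
    simpa using this
  have e2 := act_pow_expand hdeg hz (M - D)
  have s1 : asr p (∑ j ∈ Finset.range (D + 1), c j *
      (G ^ p ^ j * G ^ p ^ M - G * G ^ p ^ (M - j))) := by
    refine asr_sum p _ _ fun j hj => asr_zmod_mul p _ (asr_slide G G ?_)
    have := Finset.mem_range.1 hj
    omega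
  have s2 : asr p (ζ ^ p ^ (D + 1) * G ^ p ^ M - ζ * G ^ p ^ (M - (D + 1))) :=
    asr_slide ζ G (by omega)
  have s3 := asr_sub p (asr_sub p h s1) s2
  refine asr_pole_false (Q := Q) (L := M - κ) (by omega) s3 (y := d κ * (G * G ^ p ^ (M - κ)))
    (w := ∑ j ∈ (Finset.range (D + 1)).erase κ, d j * (G ^ 1 * G ^ p ^ (M - j))
      + ζ ^ 1 * G ^ p ^ (M - (D + 1)) - ζ ^ p ^ (D + 1 + (M - D)) * G ^ 1) ?_ ?_ ?_ ?_
  · have hs : ∑ j ∈ (Finset.range (D + 1)).erase κ, d j * (G ^ 1 * G ^ p ^ (M - j)) +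
        d κ * (G * G ^ p ^ (M - κ)) =
        ∑ j ∈ Finset.range (D + 1), c j * (G * G ^ p ^ (M - j)) -
        ∑ j ∈ Finset.range (D + 1), c j * (G * G ^ p ^ (j + (M - D))) := by
      have h1 := Finset.sum_erase_add (Finset.range (D + 1))
        (fun j => d j * (G ^ 1 * G ^ p ^ (M - j))) (a := κ) (Finset.mem_range.2 (by omega))
      simp only [pow_one] at h1 ⊢
      rw [h1]
      have h2 : ∑ j ∈ Finset.range (D + 1), c j * (G * G ^ p ^ (j + (M - D))) =
          ∑ j ∈ Finset.range (D + 1), c (D - j) * (G * G ^ p ^ (M - j)) := by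
        rw [← Finset.sum_range_reflect]
        refine Finset.sum_congr rfl fun j hj => ?_
        have := Finset.mem_range.1 hj
        have e : D + 1 - 1 - j = D - j := by omega
        have e' : D - j + (M - D) = M - j := by omega
        rw [e, e']
      rw [h2, ← Finset.sum_sub_distrib]
      refine Finset.sum_congr rfl fun j _ => ?_
      simp only [hd, hc, map_sub]
      ring
    have hA : z' * G ^ p ^ M = ∑ j ∈ Finset.range (D + 1), c j *
        (G ^ p ^ j * G ^ p ^ M) + ζ ^ p ^ (D + 1) * G ^ p ^ M := by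
      conv_lhs => rw [e1]
      rw [add_mul, Finset.sum_mul]
      congr 1
      exact Finset.sum_congr rfl fun j _ => by ring
    have hB : G * z' ^ p ^ (M - D) =
        ∑ j ∈ Finset.range (D + 1), c j * (G * G ^ p ^ (j + (M - D)))
        + ζ ^ p ^ (D + 1 + (M - D)) * G ^ 1 := by
      rw [e2, mul_add, Finset.mul_sum]
      congr 1
      · exact Finset.sum_congr rfl fun j _ => by simp only [hc]; ring
      · ring
    have hC : ∑ j ∈ Finset.range (D + 1), c j *
      (G ^ p ^ j * G ^ p ^ M - G * G ^ p ^ (M - j)) =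
        ∑ j ∈ Finset.range (D + 1), c j * (G ^ p ^ j * G ^ p ^ M) -
        ∑ j ∈ Finset.range (D + 1), c j * (G * G ^ p ^ (M - j)) := by
      rw [← Finset.sum_sub_distrib]
      exact Finset.sum_congr rfl fun j _ => by ring
    rw [hA, hB, hC]
    linear_combination (-1 : RatFunc k) * hs
  · refine mul_ne_zero ?_ (mul_ne_zero hG0 (pow_ne_zero _ hG0))
    rw [hd]
    simp only [ne_eq]
    rw [map_eq_zero_iff _ (algebraMap (ZMod p) (RatFunc k)).injective]
    exact sub_ne_zero.2 hκ
  · rw [hd]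
    simp only
    rw [ord_zmod_mul p (sub_ne_zero.2 hκ), ord_mul hG0 (pow_ne_zero _ hG0), ord_pow, hG]
    push_cast
    ring
  · refine ge_sub (ge_add (ge_sum _ _ fun j hj => ?_) (ge_reg_mul hζ hGge ?_))
      (ge_reg_mul hζ hGge ?_)
    · have hj1 := Finset.ne_of_mem_erase hj
      have hj2 := Finset.mem_range.1 (Finset.mem_of_mem_erase hj)
      rcases lt_or_ge j κ with hlt | hge
      · have : d j = 0 := by
          rw [hd]
          simp only
          rw [hmin j hlt, sub_self, map_zero]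
        rw [this, zero_mul]
        exact ge_zero _
      · refine ge_zmod_mul p _ (ge_pole_mul hGge hGge ?_)
        have := two_pow_le (p := p) (by omega) (a := 0) (b := M - j) (c := M - κ)
          (by omega) (by omega)
        simpa using this
    · exact Nat.pow_le_pow_right hp1 (by omega)
    · exact Nat.one_le_pow _ _ (by omega)

end LR78
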