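import Pool.Agent.LR78.PalinA
import Pool.Agent.LR78.PalinC

/-!
The commutation relation for `g = F^j G`, `z = F^i z'`: `i = j` (by `palin_A`, `palin_B` after
cancelling the common Frobenius power with `asr_frob_iff`) and then `palin_C`.
-/

set_option autoImplicit false

namespace LR78

open Polynomial

variable {p : ℕ} [Fact p.Prime] {k : Type} [Field k] [Algebra (ZMod p) k]
  {G z' ζ : RatFunc k} {S : (ZMod p)[X]} {D M : ℕ} {Q : k}

theorem palin (hp : 3 ≤ p) (hM : 2 * D + 4 ≤ M) (hdeg : S.natDegree ≤ D) (h0 : S.coeff 0 ≠ 0)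
    (hD : S.coeff D ≠ 0) (hz : z' = act p S G + ζ ^ p ^ (D + 1)) (hG : ord Q G = -1)
    (hζ : ge Q ζ 0) {i j : ℕ}
    (h : asr p (z' ^ p ^ i * (G ^ p ^ j) ^ p ^ M - G ^ p ^ j * (z' ^ p ^ i) ^ p ^ (M - D))) :
    reflect D S = S := by
  rcases lt_trichotomy i j with hij | hij | hij
  · exfalso
    obtain ⟨δ, rfl⟩ := Nat.exists_eq_add_of_lt hij
    refine palin_A (δ := δ + 1) hp hM hdeg h0 hz hG hζ (by omega) ?_
    rw [← asr_frob_iff p i, frob_sub]
    convert h using 2
    · rw [mul_pow, ← pow_mul, ← pow_mul, ← pow_mul, ← pow_add, ← pow_add, ← pow_add]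
      congr 3
      omega
    · rw [mul_pow, ← pow_mul, ← pow_mul, ← pow_mul, ← pow_add, ← pow_add, ← pow_add]
      congr 3
      · omega
      · omega
  · subst hij
    refine palin_C hp hM hdeg hz hG hζ ?_
    rw [← asr_frob_iff p i, frob_sub]
    convert h using 2
    · rw [mul_pow, ← pow_mul, ← pow_mul, mul_comm (p ^ M)]
    · rw [mul_pow, ← pow_mul, ← pow_mul, mul_comm (p ^ (M - D))]
  · exfalso
    obtain ⟨ε, rfl⟩ := Nat.exists_eq_add_of_lt hij
    refine palin_B (ε := ε + 1) hp hM hdeg hD hz hG hζ (by omega) ?_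
    rw [← asr_frob_iff p j, frob_sub]
    convert h using 2
    · rw [mul_pow, ← pow_mul, ← pow_mul, ← pow_mul, ← pow_add, ← pow_add, ← pow_add]
      congr 3
      · omega
      · omega
    · rw [mul_pow, ← pow_mul, ← pow_mul, ← pow_mul, ← pow_add, ← pow_add, ← pow_add]
      congr 3
      omega

end LR78
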