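import Pool.Agent.LR78.ZeroSum

/-!
For some `b ∈ F_p^*` the function `1/(f+b)` has at least `(2/3) h` simple poles (`p ≥ 13`).
By `zero_sets` there is `b ≠ 0` with `∑_{Q ∈ Z b} (e_Q - 1) ≤ (2h-1)/(p-1)`, the number of simple
zeros of `f + b` is at least `h - 2 ∑ (e_Q - 1) ≥ h - (4h-2)/(p-1) ≥ (2/3) h`.
-/

set_option autoImplicit false

namespace LR78

open Polynomial

variable (p : ℕ) [Fact p.Prime] {k : Type} [Field k] [Algebra (ZMod p) k] [IsAlgClosed k]

theorem exists_b (hp : 13 ≤ p) {f : RatFunc k} (hd : der f ≠ 0)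
    (hv : f.num.natDegree < f.denom.natDegree) :
    ∃ b : ZMod p, b ≠ 0 ∧ ∃ S : Finset k,
      (∀ Q ∈ S, ord Q ((f + algebraMap (ZMod p) (RatFunc k) b)⁻¹) = -1) ∧
      2 * dg ((f + algebraMap (ZMod p) (RatFunc k) b)⁻¹) ≤ 3 * S.card := by
  classical
  obtain ⟨Z, hZ, hsum, -, hdeg⟩ := zero_sets p hd
  have hdeg := hdeg hv
  set o : ZMod p → k → ℤ := fun b Q => ord Q (f + algebraMap (ZMod p) (RatFunc k) b) with ho
  set E : ZMod p → ℤ := fun b => ∑ Q ∈ Z b, (o b Q - 1) with hE
  have hE0 : ∀ b, 0 ≤ E b := by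
    intro b
    apply Finset.sum_nonneg
    intro Q hQ
    have := (hZ b Q).1 hQ
    show 0 ≤ ord Q (f + algebraMap (ZMod p) (RatFunc k) b) - 1
    omega
  have hex : ∃ b : ZMod p, b ≠ 0 ∧ 6 * E b ≤ dg f := by
    by_contra hcon
    push Not at hcon
    have h1 : ∑ b ∈ (Finset.univ : Finset (ZMod p)).erase 0, ((dg f : ℤ) + 1) ≤
        ∑ b ∈ (Finset.univ : Finset (ZMod p)).erase 0, 6 * E b := by
      apply Finset.sum_le_sum
      intro b hb
      have := hcon b (Finset.ne_of_mem_erase hb)
      omega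
    have h2 : ∑ b ∈ (Finset.univ : Finset (ZMod p)).erase 0, 6 * E b ≤
        ∑ b : ZMod p, 6 * E b := by
      apply Finset.sum_le_sum_of_subset_of_nonneg (Finset.erase_subset _ _)
      intro b _ _
      have := hE0 b
      omega
    have h3 : ∑ b : ZMod p, E b ≤ 2 * (dg f : ℤ) - 1 := hsum
    have h3' : ∑ b : ZMod p, 6 * E b = 6 * ∑ b : ZMod p, E b := by rw [Finset.mul_sum]
    rw [Finset.sum_const, Finset.card_erase_of_mem (Finset.mem_univ _), Finset.card_univ,
      ZMod.card, nsmul_eq_mul] at h1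
    have h4 : (12 : ℤ) * ((dg f : ℤ) + 1) ≤ ((p - 1 : ℕ) : ℤ) * ((dg f : ℤ) + 1) := by
      apply mul_le_mul_of_nonneg_right
      · have : 12 ≤ p - 1 := by omega
        exact_mod_cast this
      · positivity
    linarith
  obtain ⟨b, hb, hEb⟩ := hex
  refine ⟨b, hb, (Z b).filter (fun Q => o b Q = 1), ?_, ?_⟩
  · intro Q hQ
    rw [Finset.mem_filter] at hQ
    rw [ord_inv]
    have : ord Q (f + algebraMap (ZMod p) (RatFunc k) b) = 1 := hQ.2
    rw [this]
  · have hdgle : dg ((f + algebraMap (ZMod p) (RatFunc k) b)⁻¹) ≤ dg f := by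
      rw [dg_inv]
      refine dg_add_le.trans ?_
      rw [zs_algebraMap, dg_C]; simp
    have hcard : ((Z b).card : ℤ) = dg f - E b := by
      have := hdeg b hb
      rw [← this, hE]
      simp only [Finset.sum_sub_distrib, Finset.sum_const, nsmul_eq_mul, mul_one, ho]
      ring
    have hns : (((Z b).filter (fun Q => ¬ o b Q = 1)).card : ℤ) ≤ E b := by
      have h1 : (((Z b).filter (fun Q => ¬ o b Q = 1)).card : ℤ) =
          ∑ Q ∈ (Z b).filter (fun Q => ¬ o b Q = 1), (1 : ℤ) := by simp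
      rw [h1]
      calc ∑ Q ∈ (Z b).filter (fun Q => ¬ o b Q = 1), (1 : ℤ)
          ≤ ∑ Q ∈ (Z b).filter (fun Q => ¬ o b Q = 1), (o b Q - 1) := by
            apply Finset.sum_le_sum
            intro Q hQ
            rw [Finset.mem_filter] at hQ
            have h2 : 0 < o b Q := (hZ b Q).1 hQ.1
            have h3 := hQ.2
            omega
        _ ≤ ∑ Q ∈ Z b, (o b Q - 1) := by
            apply Finset.sum_le_sum_of_subset_of_nonneg (Finset.filter_subset _ _)
            intro Q hQ _
            have h2 : 0 < o b Q := (hZ b Q).1 hQ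
            omega
        _ = E b := rfl
    have hsplit := Finset.card_filter_add_card_filter_not (s := Z b) (fun Q => o b Q = 1)
    have : (2 : ℤ) * dg ((f + algebraMap (ZMod p) (RatFunc k) b)⁻¹) ≤
        3 * ((Z b).filter (fun Q => o b Q = 1)).card := by
      have h5 : ((((Z b).filter (fun Q => o b Q = 1)).card : ℤ)) +
        ((Z b).filter (fun Q => ¬ o b Q = 1)).card = (Z b).card := by exact_mod_cast hsplit
      have h6 : (dg ((f + algebraMap (ZMod p) (RatFunc k) b)⁻¹) : ℤ) ≤ dg f := by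
        exact_mod_cast hdgle
      linarith
    exact_mod_cast this

/-- `1/(f+b)` is regular at infinity and separable -/
theorem regInf_inv_add {f : RatFunc k} (hv : f.num.natDegree < f.denom.natDegree) {b : ZMod p}
    (hb : b ≠ 0) : regInf ((f + algebraMap (ZMod p) (RatFunc k) b)⁻¹) := by
  have hb' : algebraMap (ZMod p) k b ≠ 0 := by
    intro h; exact hb ((map_eq_zero_iff _ (algebraMap (ZMod p) k).injective).1 h)
  have hdegf : f.intDegree < 0 := by
    unfold RatFunc.intDegree; omega
  have hCne : (RatFunc.C (algebraMap (ZMod p) k b) : RatFunc k) ≠ 0 := by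
    intro h
    apply hb'
    exact (map_eq_zero_iff _ (RatFunc.C (K := k)).injective).1 h
  have hfne : f ≠ 0 := by
    rintro rfl
    simp at hv
  rw [zs_algebraMap]
  set y := f + RatFunc.C (algebraMap (ZMod p) k b) with hy
  have hyne : y ≠ 0 := by
    intro h
    have : f = RatFunc.C (-(algebraMap (ZMod p) k b)) := by
      rw [map_neg]; rw [hy] at h; linear_combination h
    rw [this, RatFunc.intDegree_C] at hdegf
    exact lt_irrefl _ hdegf
  have hydeg : 0 ≤ y.intDegree := by
    by_contra hcon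
    push Not at hcon
    have h1 : y + (-f) = RatFunc.C (algebraMap (ZMod p) k b) := by rw [hy]; ring
    have h2 := RatFunc.intDegree_add_le (x := y) (y := -f) (neg_ne_zero.2 hfne) (by rw [h1]; exact hCne)
    rw [h1, RatFunc.intDegree_C, RatFunc.intDegree_neg] at h2
    rcases le_max_iff.1 h2 with h | h <;> omega
  have h3 : (y⁻¹).intDegree = - y.intDegree := RatFunc.intDegree_inv y
  have h4 : (y⁻¹).intDegree ≤ 0 := by rw [h3]; omega
  unfold RatFunc.intDegree at h4
  unfold regInf
  omega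

theorem der_inv_add_ne {f : RatFunc k} (hd : der f ≠ 0) (b : ZMod p) :
    der ((f + algebraMap (ZMod p) (RatFunc k) b)⁻¹) ≠ 0 := by
  have h1 : der (f + algebraMap (ZMod p) (RatFunc k) b) = der f := by
    rw [der_add, zs_algebraMap, der_C, add_zero]
  have h2 : f + algebraMap (ZMod p) (RatFunc k) b ≠ 0 := by
    intro h
    rw [h, der_zero] at h1
    exact hd h1.symm
  rw [der_inv, h1]
  intro h
  rw [div_eq_zero_iff, neg_eq_zero] at h
  rcases h with h | h
  · exact hd h
  · exact h2 (pow_eq_zero_iff (two_ne_zero) |>.1 h)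

end LR78
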