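import Pool.Agent.LR78.KMain
import Pool.Agent.LR78.Palin
import Pool.Agent.LR78.SimplePoles

/-!
Soundness of the certificate, over `K = k(s)`.
`const_impossible`: `z` cannot be a constant `C c`: constants are of the form `v^p - v`
(`k` algebraically closed), `G (P(F) G)^(p^(N-D))` has pole order `1 + p^(N+D)` at a simple pole.
`ksound`: `f` is not constant (`f ≠ 0` vanishes at infinity): `f = f'^(p^j)`, `der f' ≠ 0`
(`exists_sep`), `f'` vanishes at infinity too; `exists_b` gives `b ≠ 0`, `G = 1/(f'+b)`,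
`G^(p^j) = 1/(f+b)`; `z` is not constant, `z = z'^(p^i)`, `der z' ≠ 0`. The first two relations are
invariant under Frobenius on `G` and on `z'` separately (`asr_frob_sub`), so `Hyp` holds for `G`,
`z'` with `N = M`, `M + 1`. `kmain` gives `P = reflect D S * S`; so `S_0 S_D = P_0 ≠ 0` and
`palin` gives `reflect D S = S`.
-/

set_option autoImplicit false

namespace LR78

open Polynomial

variable {p : ℕ} [Fact p.Prime] {k : Type} [Field k] [Algebra (ZMod p) k] [IsAlgClosed k]

theorem asr_C (c : k) : asr p (RatFunc.C c : RatFunc k) := by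
  have hp : p.Prime := Fact.out
  have hdeg : (X ^ p - X - C c : k[X]).degree ≠ 0 := by
    have h1 : (X ^ p - X - C c : k[X]).degree = p := by
      have h2 : (X + C c : k[X]).degree < (X ^ p : k[X]).degree := by
        rw [degree_X_pow]
        refine lt_of_le_of_lt (degree_add_le _ _) ?_
        rw [max_lt_iff]
        constructor
        · rw [degree_X]
          exact_mod_cast hp.one_lt
        · refine lt_of_le_of_lt degree_C_le ?_
          exact_mod_cast hp.pos
      rw [sub_sub, degree_sub_eq_left_of_degree_lt h2, degree_X_pow]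
    rw [h1]
    exact_mod_cast hp.ne_zero
  obtain ⟨v, hv⟩ := IsAlgClosed.exists_root _ hdeg
  refine ⟨RatFunc.C v, ?_⟩
  have h3 : v ^ p - v - c = 0 := by
    simpa [IsRoot] using hv
  have h4 : c = v ^ p - v := (sub_eq_zero.1 h3).symm
  rw [h4, map_sub, map_pow]

theorem const_impossible {G : RatFunc k} {P : (ZMod p)[X]} {D N j : ℕ} {Q : k} {c : k}
    (hP : P.natDegree = 2 * D) (hP0 : P ≠ 0) (hN : D + 1 ≤ N) (hG : ord Q G = -1)
    (h : asr p (RatFunc.C c * (RatFunc.C c) ^ p ^ N -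
      G ^ p ^ j * (act p P (G ^ p ^ j)) ^ p ^ (N - D))) : False := by
  have hp : p.Prime := Fact.out
  have e1 : G ^ p ^ j * (act p P (G ^ p ^ j)) ^ p ^ (N - D) =
      (G * (act p P G) ^ p ^ (N - D)) ^ p ^ j := by
    rw [act_frob, mul_pow, ← pow_mul, ← pow_mul, mul_comm (p ^ j)]
  rw [e1] at h
  have e2 : asr p (RatFunc.C c * (RatFunc.C c) ^ p ^ N : RatFunc k) := by
    rw [← map_pow, ← map_mul]
    exact asr_C _
  have e3 : asr p ((G * (act p P G) ^ p ^ (N - D)) ^ p ^ j) := by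
    have := asr_sub p e2 h
    rwa [sub_sub_cancel] at this
  have e4 := (asr_frob_iff p j).1 e3
  have e5 := ord_act p hP0 (e := 1) le_rfl (by simpa using hG)
  have hG0 : G ≠ 0 := by
    rintro rfl
    rw [ord_zero] at hG
    omega
  have e6 : ord Q (G * (act p P G) ^ p ^ (N - D)) = -1 - (p : ℤ) ^ (N + D) := by
    rw [ord_mul hG0 (pow_ne_zero _ e5.1), ord_pow, e5.2, hG, hP]
    push_cast
    rw [one_mul, mul_neg, ← pow_add]
    rw [show N - D + 2 * D = N + D by omega]
    ring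
  have hpos : (0 : ℤ) < (p : ℤ) ^ (N + D) := pow_pos (by exact_mod_cast hp.pos) _
  have e7 := as_ord p e4 (Q := Q) (by rw [e6]; omega)
  rw [e6] at e7
  have e8 : (p : ℤ) ∣ (p : ℤ) ^ (N + D) := dvd_pow_self _ (by omega)
  have e9 : (p : ℤ) ∣ 1 := by
    have := dvd_add e7 e8
    rw [sub_add_cancel] at this
    exact (dvd_neg).1 this
  have e10 := Int.natCast_dvd_natCast.1 (by simpa using e9 : (p : ℤ) ∣ ((1 : ℕ) : ℤ))
  exact hp.one_lt.ne' (Nat.dvd_one.1 e10)

omit [IsAlgClosed k] [Algebra (ZMod p) k] [Fact p.Prime] in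
theorem exists_C_of_dg_eq_zero {x : RatFunc k} (h : dg x = 0) : ∃ c : k, x = RatFunc.C c := by
  have h1 : x.num.natDegree = 0 := by unfold dg at h; omega
  have h2 : x.denom.natDegree = 0 := by unfold dg at h; omega
  obtain ⟨a, ha⟩ := natDegree_eq_zero.1 h1
  obtain ⟨b, hb⟩ := natDegree_eq_zero.1 h2
  refine ⟨a / b, ?_⟩
  conv_lhs => rw [← RatFunc.num_div_denom x]
  rw [← ha, ← hb, map_div₀]
  rfl

omit [IsAlgClosed k] [Algebra (ZMod p) k] [Fact p.Prime] in
theorem intDegree_pow' {x : RatFunc k} (hx : x ≠ 0) (n : ℕ) :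
    (x ^ n).intDegree = n * x.intDegree := by
  induction n with
  | zero => simp
  | succ n ih =>
    rw [pow_succ, RatFunc.intDegree_mul (pow_ne_zero _ hx) hx, ih]
    push_cast
    ring

/-- Invariance of the relation under Frobenius on both variables. -/
theorem asr_descend {K : Type} [CommRing K] [Algebra (ZMod p) K] {x y : K} {i j : ℕ}
    (h : asr p (x ^ p ^ i - y ^ p ^ j)) : asr p (x - y) := by
  have h1 := asr_frob_sub p i x
  have h2 := asr_frob_sub p j y
  have h3 := asr_add p (asr_sub p h h1) h2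
  have e : x ^ p ^ i - y ^ p ^ j - (x ^ p ^ i - x) + (y ^ p ^ j - y) = x - y := by ring
  rwa [e] at h3

/-- The strong form: the square root is palindromic. -/
theorem ksound_strong (hp : 13 ≤ p) {f : RatFunc k} (hf : f ≠ 0)
    (hv : f.num.natDegree < f.denom.natDegree) {P : (ZMod p)[X]} {D : ℕ} (hD : 1 ≤ D)
    (hdeg : P.natDegree ≤ 2 * D) (hsymm : ∀ j, j ≤ 2 * D → P.coeff j = P.coeff (2 * D - j))
    (hP0 : P.coeff 0 ≠ 0)
    (h : ∀ b : ZMod p, b ≠ 0 → ∃ g z : RatFunc k,
      g * (f + algebraMap (ZMod p) (RatFunc k) b) = 1 ∧ regInf z ∧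
      asr p (z * z ^ p ^ (2 * D + 4) - g * (act p P g) ^ p ^ (D + 4)) ∧
      asr p (z * z ^ p ^ (2 * D + 5) - g * (act p P g) ^ p ^ (D + 5)) ∧
      asr p (z * g ^ p ^ (2 * D + 4) - g * z ^ p ^ (D + 4))) :
    ∃ S : (ZMod p)[X], S * S = P ∧ S.natDegree ≤ D ∧ reflect D S = S ∧ S.coeff 0 ≠ 0 ∧
      S.coeff D ≠ 0 := by
  have hprime : p.Prime := Fact.out
  have hfc : ∀ c : k, f ≠ RatFunc.C c := by
    rintro c rfl
    rw [RatFunc.num_C, RatFunc.denom_C, natDegree_C, natDegree_one] at hv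
    exact lt_irrefl _ hv
  obtain ⟨j, f', hff', hdf'⟩ := exists_sep p hfc
  have hf'0 : f' ≠ 0 := by
    rintro rfl
    rw [der_zero] at hdf'
    exact hdf' rfl
  have hv' : f'.num.natDegree < f'.denom.natDegree := by
    have h1 : f.intDegree < 0 := by
      rw [RatFunc.intDegree]
      omega
    rw [hff', intDegree_pow' hf'0] at h1
    have h2 : f'.intDegree < 0 := by
      by_contra h3
      push Not at h3
      have : (0 : ℤ) ≤ ((p ^ j : ℕ) : ℤ) * f'.intDegree := mul_nonneg (by positivity) h3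
      omega
    rw [RatFunc.intDegree] at h2
    omega
  obtain ⟨b, hb, S₁, hS₁, hc⟩ := exists_b p hp hdf' hv'
  set G : RatFunc k := (f' + algebraMap (ZMod p) (RatFunc k) b)⁻¹ with hGdef
  have hGr : regInf G := regInf_inv_add p hv' hb
  have hGd : der G ≠ 0 := der_inv_add_ne p hdf' b
  obtain ⟨g, z, hg, hzr, h4, h4', h5⟩ := h b hb
  have hgG : g = G ^ p ^ j := by
    have e1 : g = (f + algebraMap (ZMod p) (RatFunc k) b)⁻¹ := eq_inv_of_mul_eq_one_left hg
    rw [e1, hGdef, inv_pow, frob_add, frob_zmod, ← hff']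
  have hdgG : dg G ≠ 0 := by
    intro h0
    obtain ⟨c, hc'⟩ := exists_C_of_dg_eq_zero h0
    rw [hc', der_C] at hGd
    exact hGd rfl
  have hS₁ne : S₁.Nonempty := by
    rw [← Finset.card_pos]
    omega
  have hPne : P ≠ 0 := by
    rintro rfl
    simp at hP0
  have hPdeg : P.natDegree = 2 * D := by
    refine le_antisymm hdeg (le_natDegree_of_ne_zero ?_)
    have := hsymm 0 (by omega)
    rw [Nat.sub_zero] at this
    rwa [← this]
  have hzc : ∀ c : k, z ≠ RatFunc.C c := by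
    rintro c rfl
    obtain ⟨Q, hQ⟩ := hS₁ne
    refine const_impossible (P := P) (D := D) (N := 2 * D + 4) (j := j) (c := c) hPdeg hPne
      (by omega) (hS₁ Q hQ) ?_
    rw [show 2 * D + 4 - D = D + 4 by omega, ← hgG]
    exact h4
  obtain ⟨i, z', hzz', hdz'⟩ := exists_sep p hzc
  have hzr' : regInf z' := by
    rw [hzz'] at hzr
    exact (regInf_pow_iff (Nat.one_le_pow _ _ hprime.pos)).1 hzr
  have key : ∀ N : ℕ, asr p (z * z ^ p ^ N - g * (act p P g) ^ p ^ (N - D)) →
      asr p (z' * z' ^ p ^ N - G * (act p P G) ^ p ^ (N - D)) := by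
    intro N hN
    rw [hzz', hgG, act_frob] at hN
    have e1 : z' ^ p ^ i * (z' ^ p ^ i) ^ p ^ N = (z' * z' ^ p ^ N) ^ p ^ i := by
      rw [mul_pow, ← pow_mul, ← pow_mul, mul_comm (p ^ i)]
    have e2 : G ^ p ^ j * ((act p P G) ^ p ^ j) ^ p ^ (N - D) =
        (G * (act p P G) ^ p ^ (N - D)) ^ p ^ j := by
      rw [mul_pow, ← pow_mul, ← pow_mul, mul_comm (p ^ j)]
    rw [e1, e2] at hN
    exact asr_descend hN
  have H : Hyp p G z' P D (2 * D + 4) :=
    { hp := by omega
      hD := hD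
      hN := le_rfl
      derg := hGd
      derz := hdz'
      rg := hGr
      rz := hzr'
      deg := hdeg
      symm := hsymm
      P0 := hP0
      as := key _ (by rw [show 2 * D + 4 - D = D + 4 by omega]; exact h4) }
  have H' : Hyp p G z' P D (2 * D + 4 + 1) :=
    { hp := by omega
      hD := hD
      hN := by omega
      derg := hGd
      derz := hdz'
      rg := hGr
      rz := hzr'
      deg := hdeg
      symm := hsymm
      P0 := hP0
      as := key _ (by rw [show 2 * D + 4 + 1 - D = D + 5 by omega]; exact h4') }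
  obtain ⟨S, ζ, Q, hSdeg, hz', hQ, hζ, hPS⟩ := kmain H H' S₁ hS₁ hc
  have hprod : S.coeff D * S.coeff 0 ≠ 0 := by
    have : P.coeff 0 = S.coeff D * S.coeff 0 := by
      rw [hPS, mul_coeff_zero, coeff_reflect]
      simp [revAt_le (Nat.zero_le D)]
    rwa [← this]
  have hS0 : S.coeff 0 ≠ 0 := right_ne_zero_of_mul hprod
  have hSD : S.coeff D ≠ 0 := left_ne_zero_of_mul hprod
  have hrefl : reflect D S = S := by
    refine palin (p := p) (by omega) (M := 2 * D + 4) le_rfl hSdeg hS0 hSD hz' hQ hζ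
      (i := i) (j := j) ?_
    rw [← hzz', ← hgG, show 2 * D + 4 - D = D + 4 by omega]
    exact h5
  refine ⟨S, ?_, hSdeg, hrefl, hS0, hSD⟩
  rw [hPS, hrefl]

theorem ksound (hp : 13 ≤ p) {f : RatFunc k} (hf : f ≠ 0)
    (hv : f.num.natDegree < f.denom.natDegree) {P : (ZMod p)[X]} {D : ℕ} (hD : 1 ≤ D)
    (hdeg : P.natDegree ≤ 2 * D) (hsymm : ∀ j, j ≤ 2 * D → P.coeff j = P.coeff (2 * D - j))
    (hP0 : P.coeff 0 ≠ 0)
    (h : ∀ b : ZMod p, b ≠ 0 → ∃ g z : RatFunc k,
      g * (f + algebraMap (ZMod p) (RatFunc k) b) = 1 ∧ regInf z ∧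
      asr p (z * z ^ p ^ (2 * D + 4) - g * (act p P g) ^ p ^ (D + 4)) ∧
      asr p (z * z ^ p ^ (2 * D + 5) - g * (act p P g) ^ p ^ (D + 5)) ∧
      asr p (z * g ^ p ^ (2 * D + 4) - g * z ^ p ^ (D + 4))) :
    ∃ S : (ZMod p)[X], S * S = P := by
  obtain ⟨S, hS, _⟩ := ksound_strong hp hf hv hD hdeg hsymm hP0 h
  exact ⟨S, hS⟩

end LR78
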