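import Pool.Agent.LR78.RpBase

/-!
The embedding `φ : R_p → RatFunc k`, `t ↦ 1/X`.
For `x = a/b`, `b(0) ≠ 0`, `d = max (deg a) (deg b)`: `φ x = A/B` with `A = ∑ a_i X^(d-i)`,
`B = ∑ b_i X^(d-i)` (`Polynomial.reflect d`), `deg B = d` because `b_0 ≠ 0`, `deg A ≤ d`, and
`deg A < d` or `A = 0` if `a(0) = 0`. Elements `(y^p - y) z` have `a(0) = 0` because `y(0)^p = y(0)` in `F_p`
(or: `φ ((y^p-y) z)` is a product of a function vanishing at infinity and a regular one).
The homomorphism: e.g. lift `Polynomial.aeval (1/X)` (injective) to the fraction field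
(`RatFunc.liftAlgHom` / `IsFractionRing.lift`) and restrict to the subalgebra `Rp p`.
-/

set_option autoImplicit false

namespace LR78

open Polynomial

variable (p : ℕ) [Fact p.Prime]

section aux

variable {k : Type} [Field k]

/-- regular at infinity, in terms of `intDegree` -/
private def reg0 (x : RatFunc k) : Prop := x.intDegree ≤ 0

/-- vanishing at infinity -/
private def van (x : RatFunc k) : Prop := x = 0 ∨ x.intDegree < 0

private theorem reg0_iff (x : RatFunc k) : reg0 x ↔ regInf x := by
  unfold reg0 regInf RatFunc.intDegree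
  omega

private theorem van_reg0 {x : RatFunc k} (h : van x) : reg0 x := by
  rcases h with h | h
  · subst h
    simp [reg0]
  · exact h.le

private theorem reg0_add {x y : RatFunc k} (hx : reg0 x) (hy : reg0 y) : reg0 (x + y) := by
  by_cases h : x + y = 0
  · rw [h]; simp [reg0]
  by_cases hy0 : y = 0
  · subst hy0; simpa using hx
  unfold reg0 at *
  exact (RatFunc.intDegree_add_le hy0 h).trans (max_le hx hy)

private theorem van_add {x y : RatFunc k} (hx : van x) (hy : van y) : van (x + y) := by
  by_cases h : x + y = 0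
  · exact Or.inl h
  rcases hy with hy | hy
  · subst hy; simpa using hx
  rcases hx with hx | hx
  · subst hx; rw [zero_add]; exact Or.inr hy
  by_cases hy0 : y = 0
  · subst hy0; rw [add_zero]; exact Or.inr hx
  exact Or.inr ((RatFunc.intDegree_add_le hy0 h).trans_lt (max_lt hx hy))

private theorem van_neg {x : RatFunc k} (hx : van x) : van (-x) := by
  rcases hx with hx | hx
  · subst hx; left; simp
  · right; rwa [RatFunc.intDegree_neg]

private theorem reg0_mul {x y : RatFunc k} (hx : reg0 x) (hy : reg0 y) : reg0 (x * y) := by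
  by_cases hx0 : x = 0
  · subst hx0; simp [reg0]
  by_cases hy0 : y = 0
  · subst hy0; simp [reg0]
  unfold reg0 at *
  rw [RatFunc.intDegree_mul hx0 hy0]
  omega

private theorem reg0_pow {x : RatFunc k} (hx : reg0 x) (n : ℕ) : reg0 (x ^ n) := by
  induction n with
  | zero => simp [reg0]
  | succ n ih => rw [pow_succ]; exact reg0_mul ih hx

private theorem van_mul {x y : RatFunc k} (hx : van x) (hy : reg0 y) : van (x * y) := by
  rcases hx with hx | hx
  · subst hx; left; simp
  by_cases hx0 : x = 0
  · subst hx0; left; simp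
  by_cases hy0 : y = 0
  · subst hy0; left; simp
  right
  unfold reg0 at hy
  rw [RatFunc.intDegree_mul hx0 hy0]
  omega

private theorem reg0_C (c : k) : reg0 (RatFunc.C c) := by
  simp [reg0, RatFunc.intDegree_C]

private theorem not_van_C {c : k} (hc : c ≠ 0) : ¬ van (RatFunc.C c) := by
  rintro (h | h)
  · exact hc (by simpa using h)
  · simp [RatFunc.intDegree_C] at h

/-- `c + v`, `c ≠ 0`, `v` vanishing at infinity: a unit at infinity -/
private theorem unit_inf {c : k} (hc : c ≠ 0) {v : RatFunc k} (hv : van v) :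
    RatFunc.C c + v ≠ 0 ∧ reg0 (RatFunc.C c + v)⁻¹ := by
  have h1 : ¬ van (RatFunc.C c + v) := by
    intro h
    have := van_add h (van_neg hv)
    simp only [add_neg_cancel_right] at this
    exact not_van_C hc this
  unfold van at h1
  push Not at h1
  refine ⟨h1.1, ?_⟩
  unfold reg0
  rw [RatFunc.intDegree_inv]
  have := h1.2
  omega

variable [Algebra (ZMod p) k]

/-- `a(1/X) = a(0) + ` vanishing -/
private theorem van_aeval (a : (ZMod p)[X]) :
    van (aeval (RatFunc.X : RatFunc k)⁻¹ a - RatFunc.C (algebraMap (ZMod p) k (a.eval 0))) := by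
  have hreg : ∀ a : (ZMod p)[X], reg0 (aeval (RatFunc.X : RatFunc k)⁻¹ a) := by
    intro a
    induction a using Polynomial.induction_on' with
    | add p q hp hq => rw [map_add]; exact reg0_add hp hq
    | monomial n c =>
      rw [aeval_monomial]
      have h1 : reg0 (algebraMap (ZMod p) (RatFunc k) c) := by
        have : algebraMap (ZMod p) (RatFunc k) c = RatFunc.C (algebraMap (ZMod p) k c) := by
          rw [IsScalarTower.algebraMap_apply (ZMod p) k (RatFunc k)]
          rfl
        rw [this]
        exact reg0_C _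
      have h2 : ∀ n : ℕ, reg0 (((RatFunc.X : RatFunc k)⁻¹) ^ n) := by
        intro n
        induction n with
        | zero => simp [reg0]
        | succ n ih =>
          rw [pow_succ]
          refine reg0_mul ih ?_
          unfold reg0
          rw [RatFunc.intDegree_inv, RatFunc.intDegree_X]
          norm_num
      exact reg0_mul h1 (h2 n)
  have hdiv := Polynomial.divX_mul_X_add a
  have hX : van ((RatFunc.X : RatFunc k)⁻¹) := by
    right
    rw [RatFunc.intDegree_inv, RatFunc.intDegree_X]
    norm_num
  have h0 : a.eval 0 = a.coeff 0 := by rw [← Polynomial.coeff_zero_eq_eval_zero]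
  have h3 : aeval (RatFunc.X : RatFunc k)⁻¹ a - RatFunc.C (algebraMap (ZMod p) k (a.eval 0)) =
      (RatFunc.X : RatFunc k)⁻¹ * aeval (RatFunc.X : RatFunc k)⁻¹ a.divX := by
    conv_lhs => rw [← hdiv]
    simp only [map_add, map_mul, aeval_X, aeval_C, eval_add, eval_mul, eval_X, mul_zero, eval_C,
      zero_add]
    have : algebraMap (ZMod p) (RatFunc k) (a.coeff 0) =
        RatFunc.C (algebraMap (ZMod p) k (a.coeff 0)) := by
      rw [IsScalarTower.algebraMap_apply (ZMod p) k (RatFunc k)]
      rfl
    rw [this]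
    ring
  rw [h3]
  exact van_mul hX (hreg _)

private theorem aeval_inv_injective :
    Function.Injective (aeval (RatFunc.X : RatFunc k)⁻¹ : (ZMod p)[X] →ₐ[ZMod p] RatFunc k) := by
  rw [← transcendental_iff_injective]
  intro halg
  have h1 : IsAlgebraic (ZMod p) (RatFunc.X : RatFunc k) := by
    have := halg.inv
    simpa using this
  have h2 : IsAlgebraic k (RatFunc.X : RatFunc k) := h1.extendScalars
    (algebraMap (ZMod p) k).injective
  exact RatFunc.transcendental_X (K := k) h2

end aux

/-- the embedding; elements of `R_p` are regular at infinity, elements of `M` vanish there -/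
theorem exists_embedding (k : Type) [Field k] [Algebra (ZMod p) k] [IsAlgClosed k] :
    ∃ φ : Rp p →ₐ[ZMod p] RatFunc k, Function.Injective φ ∧ (∀ x, regInf (φ x)) ∧
      ∀ f : Rp p, f ≠ 0 → inM p f → (φ f).num.natDegree < (φ f).denom.natDegree := by
  classical
  have hinj := aeval_inv_injective p (k := k)
  set ψ : (ZMod p)[X] →ₐ[ZMod p] RatFunc k := aeval (RatFunc.X : RatFunc k)⁻¹ with hψ
  let Φ : RatFunc (ZMod p) →ₐ[ZMod p] RatFunc k :=
    RatFunc.liftAlgHom ψ (nonZeroDivisors_le_comap_nonZeroDivisors_of_injective _ hinj)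
  have hΦ : ∀ a b : (ZMod p)[X], Φ (algebraMap (ZMod p)[X] (RatFunc (ZMod p)) a /
      algebraMap (ZMod p)[X] (RatFunc (ZMod p)) b) = ψ a / ψ b := by
    intro a b
    exact RatFunc.liftAlgHom_apply_div _ _ a b
  have hΦinj : Function.Injective Φ := RatFunc.liftAlgHom_injective ψ hinj
  -- structure of the values: constant of `F_p` plus vanishing
  have key : ∀ x : Rp p, ∃ (c : ZMod p) (v : RatFunc k), van v ∧
      Φ x.1 = RatFunc.C (algebraMap (ZMod p) k c) + v := by
    rintro ⟨x, hx⟩
    obtain ⟨a, b, hb, rfl⟩ := (mem_Rp p).1 hx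
    have ha := van_aeval p (k := k) a
    have hb' := van_aeval p (k := k) b
    rw [← hψ] at ha hb'
    set va := ψ a - RatFunc.C (algebraMap (ZMod p) k (a.eval 0)) with hva
    set vb := ψ b - RatFunc.C (algebraMap (ZMod p) k (b.eval 0)) with hvb
    have hab : ψ a = RatFunc.C (algebraMap (ZMod p) k (a.eval 0)) + va := by rw [hva]; ring
    have hbb : ψ b = RatFunc.C (algebraMap (ZMod p) k (b.eval 0)) + vb := by rw [hvb]; ring
    have hbk : algebraMap (ZMod p) k (b.eval 0) ≠ 0 := by
      intro h
      exact hb ((algebraMap (ZMod p) k).injective (by rw [h, map_zero]))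
    obtain ⟨hne, hinv⟩ := unit_inf hbk hb'
    refine ⟨a.eval 0 / b.eval 0, ψ a / ψ b - RatFunc.C (algebraMap (ZMod p) k (a.eval 0 / b.eval 0)),
      ?_, ?_⟩
    · have hCb : (RatFunc.C (algebraMap (ZMod p) k (b.eval 0)) : RatFunc k) ≠ 0 := by
        simpa using hbk
      have e1 : ψ a / ψ b - RatFunc.C (algebraMap (ZMod p) k (a.eval 0 / b.eval 0)) =
          (va - vb * RatFunc.C (algebraMap (ZMod p) k (a.eval 0 / b.eval 0))) * (ψ b)⁻¹ := by
        rw [hab, hbb]
        rw [map_div₀, map_div₀]
        field_simp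
        ring
      rw [e1, hbb]
      refine van_mul ?_ hinv
      rw [sub_eq_add_neg]
      exact van_add ha (van_neg (van_mul hb' (reg0_C _)))
    · rw [hΦ]; ring
  refine ⟨Φ.comp (Rp p).val, ?_, ?_, ?_⟩
  · intro x y hxy
    exact Subtype.ext (hΦinj hxy)
  · intro x
    obtain ⟨c, v, hv, h⟩ := key x
    have : reg0 (Φ x.1) := by
      rw [h]
      exact reg0_add (reg0_C _) (van_reg0 hv)
    exact (reg0_iff _).1 this
  · intro f hf hM
    obtain ⟨y, z, rfl⟩ := hM
    have hval : (Φ.comp (Rp p).val) ((y ^ p - y) * z) = ((Φ y.1) ^ p - Φ y.1) * Φ z.1 := by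
      simp [map_mul, map_sub, map_pow]
    obtain ⟨c, v, hv, hy⟩ := key y
    obtain ⟨c', v', hv', hz⟩ := key z
    haveI : CharP k p := by
      have := charP_of_injective_algebraMap (algebraMap (ZMod p) k).injective p
      exact this
    haveI : CharP (RatFunc k) p := charP_of_injective_algebraMap
      (algebraMap k (RatFunc k)).injective p
    have hfrob : (Φ y.1) ^ p - Φ y.1 = v ^ p - v := by
      rw [hy, add_pow_char, ← map_pow, ← map_pow, ZMod.pow_card]
      ring
    have hvan : van ((Φ.comp (Rp p).val) ((y ^ p - y) * z)) := by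
      rw [hval, hfrob]
      refine van_mul ?_ ?_
      · rw [sub_eq_add_neg]
        refine van_add ?_ (van_neg hv)
        have hp : p ≠ 0 := (Fact.out : p.Prime).ne_zero
        obtain ⟨m, rfl⟩ := Nat.exists_eq_succ_of_ne_zero hp
        rw [pow_succ']
        refine van_mul hv ?_
        exact reg0_pow (van_reg0 hv) m
      · rw [hz]; exact reg0_add (reg0_C _) (van_reg0 hv')
    rcases hvan with h | h
    · exfalso
      apply hf
      have : Φ.comp (Rp p).val ((y ^ p - y) * z) = Φ.comp (Rp p).val 0 := by rw [h, map_zero]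
      exact Subtype.ext (hΦinj this)
    · unfold RatFunc.intDegree at h
      omega

end LR78
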