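import Pool.Agent.LR78.OrdD

/-!
A pencil `x + c f`: the order at a point takes the same value for all `c` in `{0,1,2,3}` but at most
one. (`ord x < ord f`: all `c`; `ord x > ord f` or `x = 0`: all `c ≠ 0`; `ord x = ord f = μ`: with
`x = π^μ x'`, `f = π^μ f'` and values `x'(Q)`, `f'(Q) ≠ 0`: all `c` with `x'(Q) + c f'(Q) ≠ 0`; or use
`x / f`, regular at `Q` with value `τ`, and `x + c f = f (x/f + c)`, `c ≠ -τ`.)
-/

set_option autoImplicit false

namespace LR78

open Polynomial

variable (p : ℕ) [Fact p.Prime] {k : Type} [Field k] [Algebra (ZMod p) k]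
  {x y f : RatFunc k}

include p in
theorem pencil_natCast_eq (hp : 5 ≤ p) {c c' : ℕ} (hc : c < 4) (hc' : c' < 4)
    (h : (c : k) = (c' : k)) : c = c' := by
  haveI : CharP k p := charP_of_injective_algebraMap (algebraMap (ZMod p) k).injective p
  have := (CharP.natCast_eq_natCast k p).1 h
  rw [Nat.ModEq, Nat.mod_eq_of_lt (by omega), Nat.mod_eq_of_lt (by omega)] at this
  exact this

/-- for all but at most one `c < 4`, `x + c f` is nonzero and has the same order `μ`
(`μ = ord f` if `x = 0`, else the minimum of `ord x`, `ord f`) -/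
theorem linear_pencil (hp : 5 ≤ p) (hf : f ≠ 0) (Q : k) : ∃ (c₀ : ℕ) (μ : ℤ), μ ≤ ord Q f ∧
    ∀ c : ℕ, c < 4 → c ≠ c₀ →
      x + (c : RatFunc k) * f ≠ 0 ∧ ord Q (x + (c : RatFunc k) * f) = μ := by
  classical
  have hcast : ∀ c : ℕ, (c : RatFunc k) = RatFunc.C (c : k) := fun c => (map_natCast _ c).symm
  have hgec : ∀ c : ℕ, ge Q (c : RatFunc k) 0 := fun c => by rw [hcast]; exact ge_C _
  have hne : ∀ c : ℕ, c < 4 → c ≠ 0 → (c : k) ≠ 0 := by
    intro c hc h0 h
    exact h0 (pencil_natCast_eq p hp hc (by norm_num : 0 < 4) (by rw [h, Nat.cast_zero]))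
  by_cases hx : ge Q x (ord Q f + 1)
  · refine ⟨0, ord Q f, le_rfl, fun c hc h0 => ?_⟩
    have hc0 : (c : RatFunc k) ≠ 0 := by
      rw [hcast]
      intro h
      exact hne c hc h0 ((map_eq_zero (RatFunc.C (K := k))).1 h)
    have hcf : (c : RatFunc k) * f ≠ 0 := mul_ne_zero hc0 hf
    have hord : ord Q ((c : RatFunc k) * f) = ord Q f := by
      rw [ord_mul hc0 hf, hcast, ord_C, zero_add]
    have := ord_add_eq (Q := Q) (x := (c : RatFunc k) * f) (y := x) hcf (by rw [hord]; exact hx)
    rw [add_comm x]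
    rw [hord] at this
    exact this
  · have hx0 : x ≠ 0 := fun h => hx (Or.inl h)
    have hlt : ord Q x ≤ ord Q f := by
      by_contra h
      exact hx (Or.inr (by omega))
    rcases hlt.lt_or_eq with hlt | heq
    · refine ⟨4, ord Q x, hlt.le, fun c hc _ => ?_⟩
      have h1 : ge Q ((c : RatFunc k) * f) (0 + ord Q f) := ge_mul (hgec c) ge_self
      exact ord_add_eq hx0 (ge_mono h1 (by omega))
    · have hxf : ge Q (x / f) 0 := by
        right
        rw [ord_div hx0 hf, heq]; simp
      obtain ⟨t, ht⟩ := exists_value hxf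
      have key : ∀ c : ℕ, (c : k) + t ≠ 0 →
          x + (c : RatFunc k) * f ≠ 0 ∧ ord Q (x + (c : RatFunc k) * f) = ord Q f := by
        intro c hc
        have hC : (RatFunc.C ((c : k) + t) : RatFunc k) ≠ 0 := by
          intro h
          exact hc ((map_eq_zero (RatFunc.C (K := k))).1 h)
        have h2 := ord_add_eq (Q := Q) (x := RatFunc.C ((c : k) + t)) (y := x / f - RatFunc.C t) hC
          (by rw [ord_C, zero_add]; exact ht)
        rw [ord_C] at h2
        have h3 : x + (c : RatFunc k) * f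
            = f * (RatFunc.C ((c : k) + t) + (x / f - RatFunc.C t)) := by
          rw [map_add, ← hcast]
          field_simp
          ring
        rw [h3]
        exact ⟨mul_ne_zero hf h2.1, by rw [ord_mul hf h2.1, h2.2, add_zero]⟩
      by_cases hex : ∃ c : ℕ, c < 4 ∧ (c : k) + t = 0
      · obtain ⟨c₀, hc₀, ht0⟩ := hex
        refine ⟨c₀, ord Q f, le_rfl, fun c hc hcc => key c fun h => hcc ?_⟩
        apply pencil_natCast_eq (k := k) p hp hc hc₀
        exact add_right_cancel (h.trans ht0.symm)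
      · push Not at hex
        exact ⟨4, ord Q f, le_rfl, fun c hc _ => key c (hex c hc)⟩

end LR78
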