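import Pool.Agent.LR78.Buchi
import Pool.Agent.LR78.Pencil

/-!
Simultaneous Frobenius powers. Let `f` have a pole at the finite point `P`. Suppose for
`c = 0, 1, 2, 3` and all `a ∈ F_p` that `(x + c f + a)(y + c F^s f + a)` is a square. Then `y = F^s x`.
Proof. For all but at most one `c ∈ {0,1,2,3}` the function `X_c = x + c f` is nonconstant; call
these `c` good. For good `c` by `buchi`, `y + c F^s f = F^(u_c) X_c` with `u_c ∈ ℤ` (negative `u`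
meaning `X_c = F^(-u) (y + c F^s f)`). Put `G = y - F^s x = F^(u_c) X_c - F^s X_c` (the same `G` for
all `c`!). If `u_c = s` for some good `c` then `G = 0`. Otherwise `G` has pole order
`n_c p^(max (u_c) s)` at `P`, where `n_c` is the pole order of `X_c` (if `n_c ≥ 1`), and at a point
`P'` where `x`, `f` are regular, `G - G(P')` has order `m_c p^(min (u_c) s)`,
`m_c = ord (X_c - X_c(P'))`. For all but at most one `c`, `n_c` has the same value `n ≥ 1`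
(`linear_pencil`), and for all but at most one `c`, `m_c = m`. So among three good `c` there are two,
`c₁, c₂`, with `n_c = n`, hence `max (u_c) s` is the same for both; if it is `> s` then
`u_{c₁} = u_{c₂} = u` and subtracting the two equations `F^s f = F^u f`, so `u = s`, contradiction;
so `u_{c₁}, u_{c₂} < s`. In the same way two of the three satisfy `m_c = m` and then both
`u_c > s`. The two pairs intersect: contradiction.
-/

set_option autoImplicit false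

namespace LR78

open Polynomial

variable (p : ℕ) [Fact p.Prime] {k : Type} [Field k] [Algebra (ZMod p) k]
  {x y f : RatFunc k}

omit [Fact p.Prime] [Algebra (ZMod p) k] in
/-- order of a difference of two Frobenius powers -/
theorem simul_ord_sub {X : RatFunc k} {Q : k} (hX : X ≠ 0) {i j : ℕ}
    (h : (p : ℤ) ^ i * ord Q X < (p : ℤ) ^ j * ord Q X) :
    ord Q (X ^ p ^ i - X ^ p ^ j) = (p : ℤ) ^ i * ord Q X := by
  have h1 : ord Q (X ^ p ^ i) = (p : ℤ) ^ i * ord Q X := by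
    rw [ord_pow]; push_cast; rfl
  have h2 : ord Q (X ^ p ^ j) = (p : ℤ) ^ j * ord Q X := by
    rw [ord_pow]; push_cast; rfl
  have := (ord_sub_eq (Q := Q) (x := X ^ p ^ i) (y := X ^ p ^ j) (pow_ne_zero _ hX)
    (Or.inr (by rw [h1, h2]; linarith))).2
  rw [this, h1]

omit [Fact p.Prime] [Algebra (ZMod p) k] in
theorem simul_ord_sub' {X : RatFunc k} {Q : k} (hX : X ≠ 0) {i j : ℕ}
    (h : (p : ℤ) ^ j * ord Q X < (p : ℤ) ^ i * ord Q X) :
    ord Q (X ^ p ^ i - X ^ p ^ j) = (p : ℤ) ^ j * ord Q X := by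
  rw [← simul_ord_sub p hX h, ← ord_neg, neg_sub]

theorem simul_pow_lt {i j : ℕ} (h : i < j) : (p : ℤ) ^ i < (p : ℤ) ^ j := by
  have hp : p.Prime := Fact.out
  exact pow_lt_pow_right₀ (by exact_mod_cast hp.one_lt) h

theorem simul_pow_inj {i j : ℕ} {μ : ℤ} (hμ : μ ≠ 0) (h : (p : ℤ) ^ i * μ = (p : ℤ) ^ j * μ) :
    i = j := by
  have h1 : (p : ℤ) ^ i = (p : ℤ) ^ j := mul_right_cancel₀ hμ h
  rcases lt_trichotomy i j with hlt | heq | hgt
  · exact absurd h1 (simul_pow_lt p hlt).ne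
  · exact heq
  · exact absurd h1 (simul_pow_lt p hgt).ne'

/-- the order of `G` at a pole -/
theorem simul_pole {X Y G : RatFunc k} {Q : k} {s A b : ℕ} (hX : ord Q X < 0)
    (hYX : Y ^ p ^ A = X ^ p ^ b) (hG : G = Y - X ^ p ^ s) (hb : b ≠ s + A) :
    (p : ℤ) ^ A * ord Q G = (p : ℤ) ^ (max b (s + A)) * ord Q X := by
  have hX0 : X ≠ 0 := by
    rintro rfl
    rw [ord_zero] at hX
    exact lt_irrefl _ hX
  have e : G ^ p ^ A = X ^ p ^ b - X ^ p ^ (s + A) := by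
    rw [hG, frob_sub, hYX, ← pow_mul, ← pow_add]
  have e2 : ord Q (G ^ p ^ A) = (p : ℤ) ^ A * ord Q G := by
    rw [ord_pow]; push_cast; rfl
  rw [← e2, e]
  rcases lt_or_gt_of_ne hb with h | h
  · rw [max_eq_right h.le]
    exact simul_ord_sub' p hX0 (mul_lt_mul_of_neg_right (simul_pow_lt p h) hX)
  · rw [max_eq_left h.le]
    exact simul_ord_sub p hX0 (mul_lt_mul_of_neg_right (simul_pow_lt p h) hX)

/-- the order of `G - G(Q)` at a regular point -/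
theorem simul_reg {X X' Y G : RatFunc k} {Q a g : k} {s A b : ℕ} (hX' : X' ≠ 0)
    (hXX' : X = X' + RatFunc.C a) (hge : ge Q X' 1)
    (hYX : Y ^ p ^ A = X ^ p ^ b) (hG : G = Y - X ^ p ^ s) (hb : b ≠ s + A)
    (hGg : ge Q (G - RatFunc.C g) 1) :
    (p : ℤ) ^ A * ord Q (G - RatFunc.C g) = (p : ℤ) ^ (min b (s + A)) * ord Q X' := by
  have hp : p.Prime := Fact.out
  have hpos : 0 < ord Q X' := by
    rcases hge with h | h
    · exact absurd h hX'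
    · linarith
  have e : G ^ p ^ A = X ^ p ^ b - X ^ p ^ (s + A) := by
    rw [hG, frob_sub, hYX, ← pow_mul, ← pow_add]
  have e1 : ∀ n : ℕ, X ^ p ^ n = X' ^ p ^ n + RatFunc.C (a ^ p ^ n) := by
    intro n
    rw [hXX', frob_add, map_pow]
  have e3 : (G - RatFunc.C g) ^ p ^ A = (X' ^ p ^ b - X' ^ p ^ (s + A)) +
      RatFunc.C (a ^ p ^ b - a ^ p ^ (s + A) - g ^ p ^ A) := by
    rw [frob_sub, e, e1, e1, map_sub, map_sub, ← map_pow]
    ring
  have hone : ∀ n : ℕ, (1 : ℤ) ≤ (p : ℤ) ^ n := fun n => by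
    have := Nat.one_le_pow n p hp.pos
    exact_mod_cast this
  have hg1 : ∀ {w : RatFunc k} (n : ℕ), ge Q w 1 → ge Q (w ^ p ^ n) 1 := by
    intro w n hw
    refine ge_mono (ge_pow hw (p ^ n)) ?_
    have := hone n
    push_cast
    linarith
  have hC : a ^ p ^ b - a ^ p ^ (s + A) - g ^ p ^ A = 0 := by
    refine C_eq_zero_of_ge_one (Q := Q) ?_
    have h1 : RatFunc.C (a ^ p ^ b - a ^ p ^ (s + A) - g ^ p ^ A) = (G - RatFunc.C g) ^ p ^ A -
        (X' ^ p ^ b - X' ^ p ^ (s + A)) := by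
      rw [e3]; ring
    rw [h1]
    exact ge_sub (hg1 A hGg) (ge_sub (hg1 b hge) (hg1 _ hge))
  rw [hC, map_zero, add_zero] at e3
  have e2 : ord Q ((G - RatFunc.C g) ^ p ^ A) = (p : ℤ) ^ A * ord Q (G - RatFunc.C g) := by
    rw [ord_pow]; push_cast; rfl
  rw [← e2, e3]
  rcases lt_or_gt_of_ne hb with h | h
  · rw [min_eq_left h.le]
    exact simul_ord_sub p hX' (mul_lt_mul_of_pos_right (simul_pow_lt p h) hpos)
  · rw [min_eq_right h.le]
    exact simul_ord_sub' p hX' (mul_lt_mul_of_pos_right (simul_pow_lt p h) hpos)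

theorem simul_avoid (a b d : ℕ) : ∃ c < 4, c ≠ a ∧ c ≠ b ∧ c ≠ d := by
  have hcard : ({a, b, d} : Finset ℕ).card < (Finset.range 4).card := by
    rw [Finset.card_range]
    exact lt_of_le_of_lt Finset.card_le_three (by norm_num)
  obtain ⟨c, hc, hc'⟩ := Finset.exists_mem_notMem_of_card_lt_card hcard
  simp only [Finset.mem_insert, Finset.mem_singleton, not_or] at hc'
  exact ⟨c, Finset.mem_range.1 hc, hc'⟩

theorem simul_diff {c₁ c₂ : ℕ} (hp : 13 ≤ p) (h₁ : c₁ < 4) (h₂ : c₂ < 4) (hne : c₁ ≠ c₂) :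
    ((c₁ : ZMod p) - (c₂ : ZMod p)) ≠ 0 := by
  intro h
  rw [sub_eq_zero, ZMod.natCast_eq_natCast_iff'] at h
  rw [Nat.mod_eq_of_lt (by omega), Nat.mod_eq_of_lt (by omega)] at h
  exact hne h

theorem simul [IsAlgClosed k] (hp : 13 ≤ p) {s : ℕ} {P : k} (hP : ord P f < 0)
    (h : ∀ c : ℕ, c < 4 → ∀ a : ZMod p,
      IsSquare ((x + (c : RatFunc k) * f + algebraMap (ZMod p) (RatFunc k) a) *
        (y + (c : RatFunc k) * f ^ p ^ s + algebraMap (ZMod p) (RatFunc k) a))) :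
    y = x ^ p ^ s := by
  have hpp : p.Prime := Fact.out
  by_contra hne
  have hf0 : f ≠ 0 := by
    rintro rfl
    rw [ord_zero] at hP
    exact lt_irrefl _ hP
  have hfC : ∀ c : k, f ≠ RatFunc.C c := by
    rintro c rfl
    rw [ord_C] at hP
    exact lt_irrefl _ hP
  set G : RatFunc k := y - x ^ p ^ s with hGdef
  have hG0 : G ≠ 0 := sub_ne_zero.2 hne
  set X : ℕ → RatFunc k := fun c => x + (c : RatFunc k) * f with hX
  set Y : ℕ → RatFunc k := fun c => y + (c : RatFunc k) * f ^ p ^ s with hY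
  have hcast : ∀ c : ℕ, (c : RatFunc k) = algebraMap (ZMod p) (RatFunc k) (c : ZMod p) :=
    fun c => (map_natCast _ c).symm
  -- differences
  have hXd : ∀ c₁ c₂ : ℕ, X c₁ - X c₂ =
      algebraMap (ZMod p) (RatFunc k) ((c₁ : ZMod p) - (c₂ : ZMod p)) * f := by
    intro c₁ c₂
    simp only [hX]
    rw [map_sub, ← hcast, ← hcast]
    ring
  have hYd : ∀ c₁ c₂ : ℕ, Y c₁ - Y c₂ =
      algebraMap (ZMod p) (RatFunc k) ((c₁ : ZMod p) - (c₂ : ZMod p)) * f ^ p ^ s := by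
    intro c₁ c₂
    simp only [hY]
    rw [map_sub, ← hcast, ← hcast]
    ring
  have hGc : ∀ c : ℕ, G = Y c - X c ^ p ^ s := by
    intro c
    simp only [hX, hY, hGdef]
    rw [frob_add, mul_pow, hcast, frob_zmod]
    ring
  -- the bad c
  obtain ⟨cb, hcb⟩ : ∃ cb : ℕ, ∀ c < 4, c ≠ cb → ∀ a : k, X c ≠ RatFunc.C a := by
    by_cases hex : ∃ c < 4, ∃ a : k, X c = RatFunc.C a
    · obtain ⟨c, hc, a, ha⟩ := hex
      refine ⟨c, fun c' hc' hcc' a' ha' => ?_⟩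
      have h1 := hXd c c'
      rw [ha, ha', ← map_sub] at h1
      have h2 := ord_zmod_mul (Q := P) p (x := f) (simul_diff p hp hc hc' (Ne.symm hcc'))
      rw [← h1, ord_C] at h2
      omega
    · push Not at hex
      exact ⟨0, fun c hc _ a => hex c hc a⟩
  -- exponents
  have hrel : ∀ c < 4, c ≠ cb → ∃ A b : ℕ, Y c ^ p ^ A = X c ^ p ^ b ∧ b ≠ s + A := by
    intro c hc hcc
    obtain ⟨u, hu | hu⟩ := buchi p hp (hcb c hc hcc) (h c hc)
    · have hu' : Y c = X c ^ p ^ u := hu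
      refine ⟨0, u, by rw [pow_zero, pow_one]; exact hu', fun h1 => hG0 ?_⟩
      have hus : u = s := by simpa using h1
      rw [hGc c, sub_eq_zero, ← hus]
      exact hu'
    · have hu' : X c = Y c ^ p ^ u := hu
      refine ⟨u, 0, by rw [← hu', pow_zero, pow_one], fun h1 => hG0 ?_⟩
      have hs : s = 0 := by omega
      have hu0 : u = 0 := by omega
      rw [hu0, pow_zero, pow_one] at hu'
      rw [hGc c, sub_eq_zero, ← hu', hs, pow_zero, pow_one]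
  -- final contradiction for two c with the same exponent difference
  have hfin : ∀ c₁ < 4, ∀ c₂ < 4, c₁ ≠ c₂ → ∀ A₁ b₁ A₂ b₂ : ℕ, Y c₁ ^ p ^ A₁ = X c₁ ^ p ^ b₁ →
      Y c₂ ^ p ^ A₂ = X c₂ ^ p ^ b₂ → b₁ ≠ s + A₁ → b₁ + A₂ = b₂ + A₁ → False := by
    intro c₁ h₁ c₂ h₂ h12 A₁ b₁ A₂ b₂ e₁ e₂ hb hsum
    have hd := simul_diff p hp h₁ h₂ h12
    have e3 : (Y c₁ - Y c₂) ^ p ^ (A₁ + A₂) = (X c₁ - X c₂) ^ p ^ (b₁ + A₂) := by
      rw [frob_sub, frob_sub]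
      congr 1
      · rw [pow_add p A₁ A₂, pow_mul, e₁, ← pow_mul, ← pow_add]
      · rw [Nat.add_comm A₁ A₂, hsum, pow_add p A₂ A₁, pow_mul, e₂, ← pow_mul, ← pow_add]
    have e4 := congrArg (ord P) e3
    rw [ord_pow, ord_pow, hXd, hYd, ord_zmod_mul p hd, ord_zmod_mul p hd, ord_pow] at e4
    push_cast at e4
    rw [← mul_assoc, ← pow_add] at e4
    have := simul_pow_inj p hP.ne e4
    omega
  -- pencil at P
  obtain ⟨c₀, μ, hμ, hpen⟩ := linear_pencil p (x := x) (f := f) (by omega) hf0 P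
  have hμneg : μ < 0 := lt_of_le_of_lt hμ hP
  -- a regular point
  obtain ⟨P', hP'⟩ := exists_regular (k := k) [x, f, y]
  have hrx : ge P' x 0 := hP' x (by simp)
  have hrf : ge P' f 0 := hP' f (by simp)
  have hry : ge P' y 0 := hP' y (by simp)
  obtain ⟨x₀, hx₀⟩ := exists_value hrx
  obtain ⟨f₀, hf₀⟩ := exists_value hrf
  obtain ⟨y₀, hy₀⟩ := exists_value hry
  have hGreg : ge P' G 0 := by
    refine ge_sub hry ?_
    have := ge_pow hrx (p ^ s)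
    simpa using this
  obtain ⟨g, hg⟩ := exists_value hGreg
  have hf' : f - RatFunc.C f₀ ≠ 0 := sub_ne_zero.2 (hfC f₀)
  obtain ⟨c₀', m, hm, hpen'⟩ := linear_pencil p (x := x - RatFunc.C x₀) (f := f - RatFunc.C f₀)
    (by omega) hf' P'
  have hXX' : ∀ c : ℕ, X c = ((x - RatFunc.C x₀) + (c : RatFunc k) * (f - RatFunc.C f₀)) +
      RatFunc.C (x₀ + (c : k) * f₀) := by
    intro c
    simp only [hX, map_add, map_mul, map_natCast]
    ring
  have hgeX' : ∀ c : ℕ, ge P' ((x - RatFunc.C x₀) + (c : RatFunc k) * (f - RatFunc.C f₀)) 1 := by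
    intro c
    rw [hcast]
    exact ge_add hx₀ (ge_zmod_mul p _ hf₀)
  -- Lemma A : high is impossible at P
  have hA : ∀ c₁ < 4, ∀ c₂ < 4, c₁ ≠ c₂ → c₁ ≠ c₀ → c₂ ≠ c₀ → ∀ A₁ b₁ A₂ b₂ : ℕ,
      Y c₁ ^ p ^ A₁ = X c₁ ^ p ^ b₁ → Y c₂ ^ p ^ A₂ = X c₂ ^ p ^ b₂ → b₁ ≠ s + A₁ →
      b₂ ≠ s + A₂ → s + A₁ < b₁ → False := by
    intro c₁ h₁ c₂ h₂ h12 hc₁ hc₂ A₁ b₁ A₂ b₂ e₁ e₂ hb₁ hb₂ hhigh
    obtain ⟨-, o₁⟩ := hpen c₁ h₁ hc₁
    obtain ⟨-, o₂⟩ := hpen c₂ h₂ hc₂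
    have q₁ := simul_pole p (Q := P) (X := X c₁) (Y := Y c₁) (G := G) (s := s) (A := A₁) (b := b₁)
      (by rw [show X c₁ = x + (c₁ : RatFunc k) * f from rfl, o₁]; exact hμneg) e₁ (hGc c₁) hb₁
    have q₂ := simul_pole p (Q := P) (X := X c₂) (Y := Y c₂) (G := G) (s := s) (A := A₂) (b := b₂)
      (by rw [show X c₂ = x + (c₂ : RatFunc k) * f from rfl, o₂]; exact hμneg) e₂ (hGc c₂) hb₂
    rw [show X c₁ = x + (c₁ : RatFunc k) * f from rfl, o₁] at q₁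
    rw [show X c₂ = x + (c₂ : RatFunc k) * f from rfl, o₂] at q₂
    have q₃ : (p : ℤ) ^ (max b₁ (s + A₁) + A₂) * μ = (p : ℤ) ^ (max b₂ (s + A₂) + A₁) * μ := by
      rw [pow_add, pow_add]
      linear_combination (-(p : ℤ) ^ A₂) * q₁ + (p : ℤ) ^ A₁ * q₂
    have q₄ := simul_pow_inj p hμneg.ne q₃
    refine hfin c₁ h₁ c₂ h₂ h12 A₁ b₁ A₂ b₂ e₁ e₂ hb₁ ?_
    omega
  -- Lemma B : low is impossible at P'
  have hB : ∀ c₁ < 4, ∀ c₂ < 4, c₁ ≠ c₂ → c₁ ≠ c₀' → c₂ ≠ c₀' → ∀ A₁ b₁ A₂ b₂ : ℕ,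
      Y c₁ ^ p ^ A₁ = X c₁ ^ p ^ b₁ → Y c₂ ^ p ^ A₂ = X c₂ ^ p ^ b₂ → b₁ ≠ s + A₁ →
      b₂ ≠ s + A₂ → b₁ < s + A₁ → False := by
    intro c₁ h₁ c₂ h₂ h12 hc₁ hc₂ A₁ b₁ A₂ b₂ e₁ e₂ hb₁ hb₂ hlow
    obtain ⟨n₁, o₁⟩ := hpen' c₁ h₁ hc₁
    obtain ⟨n₂, o₂⟩ := hpen' c₂ h₂ hc₂
    have q₁ := simul_reg p (Q := P') (G := G) (s := s) n₁ (hXX' c₁) (hgeX' c₁) e₁ (hGc c₁) hb₁ hg
    have q₂ := simul_reg p (Q := P') (G := G) (s := s) n₂ (hXX' c₂) (hgeX' c₂) e₂ (hGc c₂) hb₂ hg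
    rw [o₁] at q₁
    rw [o₂] at q₂
    have hmpos : 0 < m := by
      rcases hgeX' c₁ with h0 | h0
      · exact absurd h0 n₁
      · rw [o₁] at h0
        linarith
    have q₃ : (p : ℤ) ^ (min b₁ (s + A₁) + A₂) * m = (p : ℤ) ^ (min b₂ (s + A₂) + A₁) * m := by
      rw [pow_add, pow_add]
      linear_combination (-(p : ℤ) ^ A₂) * q₁ + (p : ℤ) ^ A₁ * q₂
    have q₄ := simul_pow_inj p hmpos.ne' q₃
    refine hfin c₁ h₁ c₂ h₂ h12 A₁ b₁ A₂ b₂ e₁ e₂ hb₁ ?_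
    omega
  -- combinatorics
  obtain ⟨c, hc, hccb, hcc₀, hcc₀'⟩ := simul_avoid cb c₀ c₀'
  obtain ⟨c₁, hc₁, hc₁c, hc₁b, hc₁₀⟩ := simul_avoid c cb c₀
  obtain ⟨c₂, hc₂, hc₂c, hc₂b, hc₂₀⟩ := simul_avoid c cb c₀'
  obtain ⟨A, b, e, hb⟩ := hrel c hc hccb
  obtain ⟨A₁, b₁, e₁, hb₁⟩ := hrel c₁ hc₁ hc₁b
  obtain ⟨A₂, b₂, e₂, hb₂⟩ := hrel c₂ hc₂ hc₂b
  rcases lt_or_gt_of_ne hb with hlow | hhigh
  · exact hB c hc c₂ hc₂ (Ne.symm hc₂c) hcc₀' hc₂₀ A b A₂ b₂ e e₂ hb hb₂ hlow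
  · exact hA c hc c₁ hc₁ (Ne.symm hc₁c) hcc₀ hc₁₀ A b A₁ b₁ e e₁ hb hb₁ hhigh

end LR78
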