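import Pool.Agent.LR78.ZeroSum

/-!
If `(x + a)(y + a)` is a square in `k(s)` for all `a ∈ F_p` (`p ≥ 13`) and `x` is not constant,
then `y = x^(p^u)` or `x = y^(p^u)`.
`buchi_count`: let `Q` be a zero of `x + a` of multiplicity `m`. If `m` is odd then `ord_Q (y+a)` is
odd, so `Q` is a zero of `y + a`, hence of `x - y`, or a pole of `y`; and `m ≤ 1 + 2 (m-1)`. If `m`
is even, `m ≤ 2 (m-1)`. Sum over `Q` and over the `p - 1` values `a ≠ a₁` of `zero_sets`:
`(p-1) d ≤ #zeros (x-y) + #poles y + 2 (2d-1) ≤ (d+e) + e + 4d - 2`.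
`buchi_sep`: with both inequalities, `(p-1)(d+e) + 4 ≤ 7 (d+e)`: contradiction.
`buchi_const`: `(p-2) d ≤ 2 (2d-1)`.
`buchi`: `x = x'^(p^i)`, `der x' ≠ 0`; if `y` is constant use `buchi_const` (all `a` with
`y + a ≠ 0`); otherwise `y = y'^(p^j)`, orders of `x'+a` and `x+a` have the same parity (`p` odd).
-/

set_option autoImplicit false

namespace LR78

open Polynomial

variable (p : ℕ) [Fact p.Prime] {k : Type} [Field k] [Algebra (ZMod p) k] [IsAlgClosed k]
  {x y : RatFunc k}

theorem buchi_count (hx : der x ≠ 0) (hy : der y ≠ 0) (hxy : x ≠ y)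
    (h : ∀ (a : ZMod p) (Q : k), Even (ord Q (x + algebraMap (ZMod p) (RatFunc k) a) +
      ord Q (y + algebraMap (ZMod p) (RatFunc k) a))) :
    (p - 1) * dg x + 2 ≤ 5 * dg x + 2 * dg y := by
  classical
  have hp1 : 1 ≤ p := (Fact.out : p.Prime).one_lt.le
  obtain ⟨Z, hZ, hZ1, ⟨a₁, hZ2⟩, -⟩ := zero_sets p hx
  obtain ⟨S, hS, hSs⟩ := poles_sum y
  have hxy0 : x - y ≠ 0 := sub_ne_zero.2 hxy
  obtain ⟨W, hW, hWs⟩ := zeros_sum hxy0
  have hScard : (S.card : ℤ) ≤ dg y := by
    have h1 : (S.card : ℤ) ≤ ∑ Q ∈ S, (-ord Q y) := by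
      rw [Finset.card_eq_sum_ones, Nat.cast_sum]
      refine Finset.sum_le_sum fun Q hQ => ?_
      have := (hS Q).1 hQ
      push_cast
      omega
    have h2 : (y.denom.natDegree : ℤ) ≤ dg y := by exact_mod_cast denom_natDegree_le_dg
    omega
  have hWcard : (W.card : ℤ) ≤ dg x + dg y := by
    have h1 : (W.card : ℤ) ≤ ∑ Q ∈ W, ord Q (x - y) := by
      rw [Finset.card_eq_sum_ones, Nat.cast_sum]
      refine Finset.sum_le_sum fun Q hQ => ?_
      have := (hW Q).1 hQ
      push_cast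
      omega
    have h2 : ((x - y).num.natDegree : ℤ) ≤ dg (x - y) := by exact_mod_cast num_natDegree_le_dg
    have h3 : (dg (x - y) : ℤ) ≤ dg x + dg y := by exact_mod_cast dg_sub_le
    omega
  set U := W ∪ S with hUdef
  have hU : (U.card : ℤ) ≤ dg x + 2 * dg y := by
    have : (U.card : ℤ) ≤ W.card + S.card := by exact_mod_cast Finset.card_union_le W S
    omega
  -- the pointwise estimate
  have key : ∀ a, ∀ Q ∈ Z a, ord Q (x + algebraMap (ZMod p) (RatFunc k) a) ≤
      (if Q ∈ U then 1 else 0) + 2 * (ord Q (x + algebraMap (ZMod p) (RatFunc k) a) - 1) := by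
    intro a Q hQ
    have hpos := (hZ a Q).1 hQ
    have hpar := h a Q
    by_cases hQU : Q ∈ U
    · rw [if_pos hQU]
      omega
    · rw [if_neg hQU]
      by_contra hlt
      have hone : ord Q (x + algebraMap (ZMod p) (RatFunc k) a) = 1 := by omega
      rw [hone] at hpar
      have hne : ord Q (y + algebraMap (ZMod p) (RatFunc k) a) ≠ 0 := by
        intro h0
        rw [h0] at hpar
        revert hpar
        decide
      have hy0 : y + algebraMap (ZMod p) (RatFunc k) a ≠ 0 := by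
        intro h0
        rw [h0] at hne
        exact hne ord_zero
      apply hQU
      rw [hUdef, Finset.mem_union]
      rcases lt_or_gt_of_ne hne with hlt | hgt
      · right
        rw [hS]
        by_contra hge
        have h1 : ge Q y 0 := Or.inr (not_lt.1 hge)
        have h2 : ge Q (algebraMap (ZMod p) (RatFunc k) a) 0 := by
          rw [algebraMap_zmod_eq_C]
          exact ge_C _
        have h3 := (ge_iff hy0).1 (ge_add h1 h2)
        omega
      · left
        rw [hW]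
        have h1 : ge Q (x + algebraMap (ZMod p) (RatFunc k) a) 1 := Or.inr (by omega)
        have h2 : ge Q (y + algebraMap (ZMod p) (RatFunc k) a) 1 := Or.inr (by omega)
        have h3 := ge_sub h1 h2
        rw [add_sub_add_right_eq_sub] at h3
        have h4 := (ge_iff hxy0).1 h3
        omega
  have h1 : ((p : ℤ) - 1) * dg x = ∑ a ∈ Finset.univ.erase a₁,
      ∑ Q ∈ Z a, ord Q (x + algebraMap (ZMod p) (RatFunc k) a) := by
    rw [Finset.sum_congr rfl (fun a ha => hZ2 a (Finset.ne_of_mem_erase ha)), Finset.sum_const,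
      Finset.card_erase_of_mem (Finset.mem_univ _), Finset.card_univ, ZMod.card, nsmul_eq_mul,
      Nat.cast_sub hp1, Nat.cast_one]
  have h2 : ∑ a ∈ Finset.univ.erase a₁,
      ∑ Q ∈ Z a, ord Q (x + algebraMap (ZMod p) (RatFunc k) a) ≤
      ∑ a ∈ Finset.univ.erase a₁, ∑ Q ∈ Z a, (if Q ∈ U then (1 : ℤ) else 0) +
      2 * ∑ a ∈ Finset.univ.erase a₁,
        ∑ Q ∈ Z a, (ord Q (x + algebraMap (ZMod p) (RatFunc k) a) - 1) := by
    rw [Finset.mul_sum, ← Finset.sum_add_distrib]
    refine Finset.sum_le_sum fun a _ => ?_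
    rw [Finset.mul_sum, ← Finset.sum_add_distrib]
    exact Finset.sum_le_sum fun Q hQ => key a Q hQ
  have h3 : ∑ a ∈ Finset.univ.erase a₁, ∑ Q ∈ Z a, (if Q ∈ U then (1 : ℤ) else 0) ≤ U.card := by
    have h4 : ∀ a ∈ Finset.univ.erase a₁, ∑ Q ∈ Z a, (if Q ∈ U then (1 : ℤ) else 0) =
        (((Z a).filter (· ∈ U)).card : ℤ) := by
      intro a _
      rw [Finset.sum_boole]
    rw [Finset.sum_congr rfl h4, ← Nat.cast_sum, ← Finset.card_biUnion]
    · refine Nat.cast_le.2 (Finset.card_le_card ?_)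
      intro Q hQ
      rw [Finset.mem_biUnion] at hQ
      obtain ⟨a, -, ha⟩ := hQ
      exact (Finset.mem_filter.1 ha).2
    · intro a _ b _ hab
      rw [Function.onFun, Finset.disjoint_left]
      intro Q hQ hQ'
      exact zero_disjoint p hab ((hZ a Q).1 (Finset.mem_filter.1 hQ).1)
        ((hZ b Q).1 (Finset.mem_filter.1 hQ').1)
  have h5 : ∑ a ∈ Finset.univ.erase a₁,
        ∑ Q ∈ Z a, (ord Q (x + algebraMap (ZMod p) (RatFunc k) a) - 1) ≤
      ∑ a, ∑ Q ∈ Z a, (ord Q (x + algebraMap (ZMod p) (RatFunc k) a) - 1) := by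
    refine Finset.sum_le_sum_of_subset_of_nonneg (Finset.erase_subset _ _) fun a _ _ => ?_
    refine Finset.sum_nonneg fun Q hQ => ?_
    have := (hZ a Q).1 hQ
    omega
  have hfin : ((p : ℤ) - 1) * dg x + 2 ≤ 5 * dg x + 2 * dg y := by linarith
  have hc : (((p - 1) * dg x + 2 : ℕ) : ℤ) ≤ ((5 * dg x + 2 * dg y : ℕ) : ℤ) := by
    push_cast [Nat.cast_sub hp1]
    exact hfin
  exact_mod_cast hc

end LR78
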