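import Pool.Agent.LR78.Hyp

/-!
Local facts at a pole `Q` of `g` of order `e`.
Let `n` be the pole order of `z` (`0` if regular), `x = z z^(p^N) - g (P(F)g)^(p^(N-D))`.
The second term has pole order `e (1 + p^(N+D))` (`ord_act`), the first `n (1 + p^N)`.
If `n ≤ e (p^D + 1)` both statements are trivial (`ge_der`). Otherwise
`n = e (p^D + 1) + r`, `r ≥ 1`, `x` has pole order `≤ W = n (1 + p^N)`, `der v` has pole order
`≤ W / p + 1`, `der g (P(F)g)^(p^(N-D))` has pole order `≤ e + 1 + e p^(N+D)`, so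
`ord (der z) ≥ n p^N - max (e + 1 + e p^(N+D)) (n / p + n p^(N-1) + 1)`, which is `≥ 0` and
`≥ r p^(N-1) - 1`.
-/

set_option autoImplicit false

namespace LR78

open Polynomial

variable {p : ℕ} [Fact p.Prime] {k : Type} [Field k] [Algebra (ZMod p) k] [IsAlgClosed k]
  {g z : RatFunc k} {P : (ZMod p)[X]} {D N : ℕ} {Q : k}

theorem locB_key (H : Hyp p g z P D N) {e : ℕ} (he : 1 ≤ e) (hg : ord Q g = -(e : ℤ)) {r n : ℕ}
    (hn : n = e * (p ^ D + 1) + r) (hz : ord Q z = -(n : ℤ)) :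
    ((r * p ^ (N - 1) : ℕ) : ℤ) - 1 ≤ ord Q (der z) := by
  obtain ⟨v, hv⟩ := H.as
  have hp := H.hp
  have hD := H.hD
  have hN := H.hN
  have hp0 : 0 < p := by omega
  have hz0 : z ≠ 0 := by
    intro h0
    exact H.derz (by rw [h0]; exact der_zero)
  have hP : P ≠ 0 := by
    intro h0
    exact H.P0 (by rw [h0]; simp)
  obtain ⟨ha0, ha⟩ := ord_act p hP he hg
  rw [H.natDegree_eq] at ha
  obtain ⟨A, hA⟩ : ∃ A : ℕ, A = p ^ D := ⟨_, rfl⟩
  obtain ⟨C, hC⟩ : ∃ C : ℕ, C = p ^ (N - 1) := ⟨_, rfl⟩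
  have hA1 : 1 ≤ A := by rw [hA]; exact Nat.one_le_pow _ _ hp0
  have hC1 : 1 ≤ C := by rw [hC]; exact Nat.one_le_pow _ _ hp0
  have hpN : p ^ N = p * C := by
    rw [hC, ← pow_succ']
    congr 1
    omega
  have hact : ord Q (act p P g ^ p ^ (N - D)) = -((e * (p * C * A) : ℕ) : ℤ) := by
    rw [ord_pow, ha, ← hpN, hA, ← pow_add, show N + D = (N - D) + 2 * D by omega, pow_add]
    push_cast
    ring
  have hrhs1 : ge Q (der g * act p P g ^ p ^ (N - D))
      ((-(e : ℤ) - 1) + -((e * (p * C * A) : ℕ) : ℤ)) :=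
    ge_mul (ge_der (hg ▸ ge_self)) (Or.inr hact.ge)
  -- the pole order of `x`
  have hzz : ge Q (z * z ^ p ^ N) (-((n * (1 + p * C) : ℕ) : ℤ)) := by
    right
    rw [ord_mul hz0 (pow_ne_zero _ hz0), ord_pow, hz, hpN]
    push_cast
    apply le_of_eq
    ring
  have hg2 : ge Q (g * act p P g ^ p ^ (N - D)) (-((n * (1 + p * C) : ℕ) : ℤ)) := by
    refine ge_mono (ge_mul (hg ▸ ge_self) (Or.inr hact.ge)) ?_
    have h1 : e + e * (p * C * A) ≤ n * (1 + p * C) := by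
      rw [hn, ← hA]
      have h2 : 0 ≤ e * A + r + e * (p * C) + r * (p * C) := Nat.zero_le _
      nlinarith [h2]
    have h2 : ((e + e * (p * C * A) : ℕ) : ℤ) ≤ ((n * (1 + p * C) : ℕ) : ℤ) := by
      exact_mod_cast h1
    rw [Nat.cast_add] at h2
    linarith
  have hx := ge_sub hzz hg2
  obtain ⟨-, hdv⟩ := as_der p hv hx
  have hdiv : n * (1 + p * C) / p = n / p + n * C := by
    rw [show n * (1 + p * C) = n + p * (n * C) by ring, Nat.add_mul_div_left _ _ hp0]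
  rw [hdiv] at hdv
  -- the derivative equation
  have hde := H.der_eq hv
  have hge : ge Q (der z * z ^ p ^ N) (((r * C : ℕ) : ℤ) - 1 - ((n * (p * C) : ℕ) : ℤ)) := by
    rw [hde]
    refine ge_sub (ge_mono hrhs1 ?_) (ge_mono hdv ?_)
    · have h1 : r * C + e + e * (p * C * A) ≤ n * (p * C) := by
        rw [hn, ← hA]
        have h2 : r * C ≤ r * (p * C) := Nat.mul_le_mul_left _ (Nat.le_mul_of_pos_left _ hp0)
        have h3 : e ≤ e * (p * C) := Nat.le_mul_of_pos_right _ (Nat.mul_pos hp0 hC1)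
        calc r * C + e + e * (p * C * A) ≤ r * (p * C) + e * (p * C) + e * (p * C * A) := by
              omega
          _ = (e * (A + 1) + r) * (p * C) := by ring
      have h2 : ((r * C + e + e * (p * C * A) : ℕ) : ℤ) ≤ ((n * (p * C) : ℕ) : ℤ) := by
        exact_mod_cast h1
      rw [Nat.cast_add, Nat.cast_add] at h2
      linarith
    · have h1 : r * C + (n / p + n * C) ≤ n * (p * C) := by
        have hrn : r ≤ n := by rw [hn]; exact Nat.le_add_left _ _
        have h2 : r * C ≤ n * C := Nat.mul_le_mul_right _ hrn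
        have h3 : n / p ≤ n * C := (Nat.div_le_self _ _).trans (Nat.le_mul_of_pos_right _ hC1)
        have h4 : 3 * (n * C) ≤ n * (p * C) := by
          calc 3 * (n * C) ≤ p * (n * C) := Nat.mul_le_mul_right _ (by omega)
            _ = n * (p * C) := by ring
        omega
      have h2 : ((r * C + (n / p + n * C) : ℕ) : ℤ) ≤ ((n * (p * C) : ℕ) : ℤ) := by
        exact_mod_cast h1
      rw [Nat.cast_add] at h2
      linarith
  have hne : der z * z ^ p ^ N ≠ 0 := mul_ne_zero H.derz (pow_ne_zero _ hz0)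
  rw [ge_iff hne, ord_mul H.derz (pow_ne_zero _ hz0), ord_pow, hz, hpN] at hge
  rw [← hC]
  push_cast at hge ⊢
  linarith

theorem locB1 (H : Hyp p g z P D N) {e : ℕ} (he : 1 ≤ e) (hg : ord Q g = -(e : ℤ)) :
    -((e * (p ^ D + 1) + 1 : ℕ) : ℤ) ≤ ord Q (der z) := by
  by_cases hm : -((e * (p ^ D + 1) : ℕ) : ℤ) ≤ ord Q z
  · have h1 : ge Q (der z) (-((e * (p ^ D + 1) : ℕ) : ℤ) - 1) := ge_der (Or.inr hm)
    rw [ge_iff H.derz] at h1
    rw [Nat.cast_add]
    push_cast at h1 ⊢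
    linarith
  · push Not at hm
    obtain ⟨n, hn⟩ : ∃ n : ℕ, ord Q z = -(n : ℤ) := by
      refine ⟨(-ord Q z).toNat, ?_⟩
      rw [Int.toNat_of_nonneg]
      · ring
      · have : (0 : ℤ) ≤ ((e * (p ^ D + 1) : ℕ) : ℤ) := Int.natCast_nonneg _
        linarith
    have hlt : e * (p ^ D + 1) < n := by
      rw [hn] at hm
      have : ((e * (p ^ D + 1) : ℕ) : ℤ) < (n : ℤ) := by linarith
      exact_mod_cast this
    have h2 := locB_key H he hg (r := n - e * (p ^ D + 1)) (n := n) (by omega) hn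
    have h3 : (0 : ℤ) ≤ (((n - e * (p ^ D + 1)) * p ^ (N - 1) : ℕ) : ℤ) := Int.natCast_nonneg _
    have h4 : (0 : ℤ) ≤ ((e * (p ^ D + 1) : ℕ) : ℤ) := Int.natCast_nonneg _
    rw [Nat.cast_add]
    push_cast at h2 h3 h4 ⊢
    linarith

theorem locB2 (H : Hyp p g z P D N) {e : ℕ} (he : 1 ≤ e) (hg : ord Q g = -(e : ℤ)) {n : ℕ}
    (hz : ord Q z = -(n : ℤ)) :
    ((p ^ (N - 1) * n : ℕ) : ℤ) ≤
      ((p ^ (N - 1) * (e * (p ^ D + 1)) : ℕ) : ℤ) + max (ord Q (der z)) 0 + 1 := by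
  have hmax0 : (0 : ℤ) ≤ max (ord Q (der z)) 0 := le_max_right _ _
  by_cases hle : n ≤ e * (p ^ D + 1)
  · have h1 : ((p ^ (N - 1) * n : ℕ) : ℤ) ≤ ((p ^ (N - 1) * (e * (p ^ D + 1)) : ℕ) : ℤ) := by
      exact_mod_cast Nat.mul_le_mul_left _ hle
    linarith
  · push Not at hle
    have h2 := locB_key H he hg (r := n - e * (p ^ D + 1)) (n := n) (by omega) hz
    have hmax1 : ord Q (der z) ≤ max (ord Q (der z)) 0 := le_max_left _ _
    have h3 : p ^ (N - 1) * n = p ^ (N - 1) * (e * (p ^ D + 1)) +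
        (n - e * (p ^ D + 1)) * p ^ (N - 1) := by
      obtain ⟨r, hr⟩ : ∃ r, n = e * (p ^ D + 1) + r := ⟨n - e * (p ^ D + 1), by omega⟩
      rw [hr, Nat.add_sub_cancel_left]
      ring
    rw [h3, Nat.cast_add]
    linarith

end LR78
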