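import Pool.Agent.LR78.Hyp

/-!
Local facts at a simple pole `Q` of `g`.
The second term of `x = z z^(p^N) - g (P(F)g)^(p^(N-D))` has pole order exactly `1 + p^(N+D)`,
prime to `p`. Let `n` be the pole order of `z` (`0` if `z` is regular).
* `n ≤ p^D - 1` : then `n (1 + p^N) < 1 + p^(N+D)`, `x` has pole order `1 + p^(N+D)`:
  contradiction with `as_ord`.
* `n = p^D`: `n (1 + p^N) = p^D + p^(N+D) > 1 + p^(N+D)`; `v` has pole order `≤ p^(D-1) + p^(N+D-1)`,
  so in `der z * z^(p^N) = der g * (...) - der v` the first term on the right, of pole order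
  exactly `2 + p^(N+D)`, dominates; so `ord (der z) = -2`.
* `n ≥ p^D + 1`: `ord (der z) ≥ n p^N - max (2 + p^(N+D)) (n / p + n p^(N-1) + 1) ≥ p^(N-1)`.
-/

set_option autoImplicit false

namespace LR78

open Polynomial

variable {p : ℕ} [Fact p.Prime] {k : Type} [Field k] [Algebra (ZMod p) k] [IsAlgClosed k]
  {g z : RatFunc k} {P : (ZMod p)[X]} {D N : ℕ} {Q : k}

theorem locD (H : Hyp p g z P D N) (hg : ord Q g = -1) :
    (ord Q z = -((p ^ D : ℕ) : ℤ) ∧ ord Q (der z) = -2) ∨
      ((p ^ (N - 1) : ℕ) : ℤ) ≤ ord Q (der z) := by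
  have hp := H.hp
  have hD := H.hD
  have hN := H.hN
  have hg0 : g ≠ 0 := by
    intro h
    rw [h, ord_zero] at hg
    omega
  have hz0 : z ≠ 0 := by
    intro h
    exact H.derz (by rw [h, der_zero])
  have hP : P ≠ 0 := by
    intro h
    exact H.P0 (by rw [h, coeff_zero])
  obtain ⟨hY0, hY⟩ := ord_act p hP (e := 1) (x := g) (Q := Q) le_rfl (by rw [hg]; norm_num)
  rw [H.natDegree_eq, one_mul] at hY
  set Y := act p P g with hYdef
  -- powers of `p`
  obtain ⟨a, ha⟩ : ∃ a : ℕ, a = p ^ (N - 1) := ⟨_, rfl⟩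
  obtain ⟨d, hd⟩ : ∃ d : ℕ, d = p ^ D := ⟨_, rfl⟩
  obtain ⟨d1, hd1⟩ : ∃ d1 : ℕ, d1 = p ^ (D - 1) := ⟨_, rfl⟩
  have hpN : p ^ N = p * a := by
    rw [ha, ← pow_succ']
    congr 1
    omega
  have hdd : d = p * d1 := by
    rw [hd, hd1, ← pow_succ']
    congr 1
    omega
  have hda : d ≤ a := by
    rw [hd, ha]
    exact Nat.pow_le_pow_right (by omega) (by omega)
  have hd1p : 1 ≤ d1 := by
    rw [hd1]
    exact Nat.one_le_pow _ _ (by omega)
  have ha1 : 1 ≤ a := by
    rw [ha]
    exact Nat.one_le_pow _ _ (by omega)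
  have hYp : Y ^ p ^ (N - D) ≠ 0 := pow_ne_zero _ hY0
  have hordYp : ord Q (Y ^ p ^ (N - D)) = -((p * a * d : ℕ) : ℤ) := by
    rw [ord_pow, hY]
    have : p ^ (N - D) * p ^ (2 * D) = p * a * d := by
      rw [← hpN, hd, ← pow_add, ← pow_add]
      congr 1
      omega
    rw [← this]
    push_cast
    ring
  have hB : ord Q (g * Y ^ p ^ (N - D)) = -((1 + p * a * d : ℕ) : ℤ) := by
    rw [ord_mul hg0 hYp, hg, hordYp]
    push_cast
    ring
  have hB0 : g * Y ^ p ^ (N - D) ≠ 0 := mul_ne_zero hg0 hYp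
  have hA : ord Q (z * z ^ p ^ N) = (1 + (p * a : ℕ)) * ord Q z := by
    rw [ord_mul hz0 (pow_ne_zero _ hz0), ord_pow, hpN]
    push_cast
    ring
  obtain ⟨v, hv⟩ := H.as
  have hder := H.der_eq hv
  rw [← hYdef] at hv hder
  have hdg := ord_der_of_simple (x := g) (Q := Q) hg
  have hR : ord Q (der g * Y ^ p ^ (N - D)) = -((2 + p * a * d : ℕ) : ℤ) := by
    rw [ord_mul hdg.1 hYp, hdg.2, hordYp]
    push_cast
    ring
  have hR0 : der g * Y ^ p ^ (N - D) ≠ 0 := mul_ne_zero hdg.1 hYp
  have hL : ord Q (der z * z ^ p ^ N) = ord Q (der z) + (p * a : ℕ) * ord Q z := by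
    rw [ord_mul H.derz (pow_ne_zero _ hz0), ord_pow, hpN]
  have hL0 : der z * z ^ p ^ N ≠ 0 := mul_ne_zero H.derz (pow_ne_zero _ hz0)
  have hpr : (5 : ℤ) ≤ p := by exact_mod_cast hp
  have har : (1 : ℤ) ≤ a := by exact_mod_cast ha1
  have hdr1 : (1 : ℤ) ≤ d1 := by exact_mod_cast hd1p
  have hdar : (d : ℤ) ≤ a := by exact_mod_cast hda
  have hddr : (d : ℤ) = p * d1 := by exact_mod_cast hdd
  have hd0 : (1 : ℤ) ≤ d := by
    rw [hddr]
    exact hdr1.trans (le_mul_of_one_le_left (by linarith) (by linarith))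
  rcases lt_trichotomy (ord Q z) (-(d : ℤ)) with hlt | heq | hgt
  · -- pole order larger than `p ^ D`
    right
    rw [← ha]
    obtain ⟨n, hn⟩ : ∃ n : ℕ, ord Q z = -(n : ℤ) := ⟨(-ord Q z).toNat, by omega⟩
    rw [hn] at hlt hA hL
    have hnd : (d : ℤ) + 1 ≤ n := by omega
    have hx : ge Q (v ^ p - v) (-((n + p * (n * a) : ℕ) : ℤ)) := by
      rw [← hv]
      refine ge_sub (Or.inr ?_) (Or.inr ?_)
      · rw [hA]
        push_cast
        linarith
      · rw [hB]
        push_cast
        have h1 : (p : ℤ) * a * d ≤ p * a * n := by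
          refine mul_le_mul_of_nonneg_left (by linarith) (by positivity)
        linarith
    have h1 := (as_der p rfl hx).2
    have hdiv : (n + p * (n * a)) / p = n / p + n * a := by
      rw [Nat.add_mul_div_left _ _ (by omega)]
    rw [hdiv] at h1
    have hnp : (((n / p : ℕ) : ℤ)) ≤ n := by exact_mod_cast Nat.div_le_self n p
    generalize n / p = q at h1 hnp
    have h2 : ge Q (der z * z ^ p ^ N)
        (-(max (2 + p * a * d : ℤ) (n + n * a + 1))) := by
      rw [hder]
      refine ge_sub (Or.inr ?_) (ge_mono h1 ?_)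
      · rw [hR]
        push_cast
        exact neg_le_neg (le_max_left _ _)
      · have := le_max_right (2 + p * a * d : ℤ) (n + n * a + 1)
        push_cast
        linarith
    rw [ge_iff hL0, hL] at h2
    have h3 : (a : ℤ) * n ≥ a * (d + 1) := mul_le_mul_of_nonneg_left hnd (by linarith)
    have h4 : (p : ℤ) * (a * n) ≥ p * (a * (d + 1)) := mul_le_mul_of_nonneg_left h3 (by linarith)
    rcases max_choice (2 + p * a * d : ℤ) (n + n * a + 1) with h | h
    · rw [h] at h2
      push_cast at h2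
      have h5 : (5 : ℤ) * a ≤ p * a := mul_le_mul_of_nonneg_right hpr (by linarith)
      linarith
    · rw [h] at h2
      push_cast at h2
      have h5 : (5 : ℤ) * (a * n) ≤ p * (a * n) := mul_le_mul_of_nonneg_right hpr (by positivity)
      have hn1 : (1 : ℤ) ≤ n := by linarith
      have h6 : (n : ℤ) ≤ a * n := le_mul_of_one_le_left (by linarith) har
      have h7 : (a : ℤ) ≤ a * n := le_mul_of_one_le_right (by linarith) hn1
      linarith
  · -- pole order `p ^ D`
    left
    refine ⟨by rw [heq, hd], ?_⟩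
    rw [heq] at hA hL
    have hx : ge Q (v ^ p - v) (-((p * (d1 + a * d) : ℕ) : ℤ)) := by
      rw [← hv]
      refine ge_sub (Or.inr ?_) (Or.inr ?_)
      · rw [hA]
        push_cast
        rw [hddr]
        apply le_of_eq
        ring
      · rw [hB]
        push_cast
        have h1 : (1 : ℤ) ≤ p * d1 := by
          rw [← hddr]
          linarith
        linarith
    have h1 := (as_der p rfl hx).2
    have hdiv : p * (d1 + a * d) / p = d1 + a * d := Nat.mul_div_cancel_left _ (by omega)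
    rw [hdiv] at h1
    have h2 : ge Q (der v) (ord Q (der g * Y ^ p ^ (N - D)) + 1) := by
      refine ge_mono h1 ?_
      rw [hR]
      push_cast
      have h3 : (d1 : ℤ) ≤ a * d := by
        have h31 : (d1 : ℤ) ≤ d := by
          rw [hddr]
          exact le_mul_of_one_le_left (by linarith) (by linarith)
        exact h31.trans (le_mul_of_one_le_left (by linarith) har)
      have h4 : (5 : ℤ) * (a * d) ≤ p * (a * d) := mul_le_mul_of_nonneg_right hpr (by positivity)
      linarith
    have h3 := (ord_sub_eq hR0 h2).2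
    rw [← hder, hL, hR] at h3
    push_cast at h3
    linarith
  · -- pole order smaller than `p ^ D`: impossible
    exfalso
    have hA' : ge Q (z * z ^ p ^ N) (ord Q (g * Y ^ p ^ (N - D)) + 1) := by
      right
      rw [hA, hB]
      push_cast
      have h1 : (1 + (p : ℤ) * a) * (-(d : ℤ) + 1) ≤ (1 + p * a) * ord Q z :=
        mul_le_mul_of_nonneg_left (by omega) (by positivity)
      have h2 : (a : ℤ) ≤ p * a := le_mul_of_one_le_left (by linarith) (by linarith)
      linarith
    have h1 := ord_sub_eq hB0 hA'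
    have h2 : ord Q (z * z ^ p ^ N - g * Y ^ p ^ (N - D)) = -((1 + p * a * d : ℕ) : ℤ) := by
      rw [← neg_sub, ord_neg, h1.2, hB]
    have h3 := as_ord p (Q := Q) ⟨v, hv⟩ (by
      rw [h2]
      have : (0 : ℤ) ≤ ((p * a * d : ℕ) : ℤ) := Int.natCast_nonneg _
      push_cast at this ⊢
      linarith)
    rw [h2, dvd_neg] at h3
    have h4 : p ∣ 1 + p * a * d := by exact_mod_cast h3
    have h5 : p ∣ 1 := (Nat.dvd_add_left ⟨a * d, by ring⟩).mp h4
    have := Nat.le_of_dvd (by norm_num) h5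
    omega

end LR78
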