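import Pool.Agent.LR78.LocA
import Pool.Agent.LR78.LocB
import Pool.Agent.LR78.LocD

/-!
Counting. Let `h = dg g` (`= g.denom.natDegree`, as `g` is regular at infinity; `h ≥ 1`).
Let `S` be a finite set containing all poles of `g` and of `z`; `sum_ord_der_le`:
`∑_{Q∈S} ord (der z) ≤ -1`. At points where `g` is regular `ord (der z) ≥ 0` (`ge_der_zero` if `z`
is regular, `locA` otherwise), at a pole of `g` of order `e` it is `≥ -(e (p^D+1) + 1)`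
(`locB1`). Hence `∑_{Q∈S} max (ord (der z)) 0 ≤ ∑_{poles of g} (e (p^D+1)+1) ≤ h (p^D + 2)`.
* height of `z`: by `locA`, `locB2`, `p^(N-1) dg z ≤ h (p^D+2) + p^(N-1) h (p^D+1) + h`, hence
  `dg z ≤ h (p^D + 2)` because `p^D + 3 ≤ p^(N-1)`.
* among the simple poles in `S₁` those not of type A (first alternative of `locD`) number at most
  `h (p^D+2) / p^(N-1) ≤ h / 6`, so that `2 #A ≥ 2 (#S₁ - h/6) ≥ h`.
-/

set_option autoImplicit false

namespace LR78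

open Polynomial

variable {p : ℕ} [Fact p.Prime] {k : Type} [Field k] [Algebra (ZMod p) k] [IsAlgClosed k]
  {g z : RatFunc k} {P : (ZMod p)[X]} {D N : ℕ}

/-- pointwise bound for the poles of `der z` -/
theorem count_pt1 (H : Hyp p g z P D N) (Q : k) :
    max (-ord Q (der z)) 0 ≤ ((p ^ D + 2 : ℕ) : ℤ) * max (-ord Q g) 0 := by
  rcases le_or_gt 0 (ord Q g) with hg | hg
  · have h0 : (0 : ℤ) ≤ ord Q (der z) := by
      rcases le_or_gt 0 (ord Q z) with hz | hz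
      · have h1 : ge Q (der z) 0 := ge_der_zero (Or.inr hz)
        rwa [ge_iff H.derz] at h1
      · obtain ⟨n, hn⟩ : ∃ n : ℕ, ord Q z = -(n : ℤ) :=
          ⟨(-ord Q z).toNat, by rw [Int.toNat_of_nonneg (by linarith)]; ring⟩
        have hn1 : 1 ≤ n := by
          have : (0 : ℤ) < (n : ℤ) := by linarith
          omega
        exact (Int.natCast_nonneg _).trans (locA H (Or.inr hg) hn1 hn)
    have h2 : max (-ord Q (der z)) 0 = 0 := max_eq_right (by linarith)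
    rw [h2]
    exact mul_nonneg (Int.natCast_nonneg _) (le_max_right _ _)
  · obtain ⟨e, he⟩ : ∃ e : ℕ, ord Q g = -(e : ℤ) :=
      ⟨(-ord Q g).toNat, by rw [Int.toNat_of_nonneg (by linarith)]; ring⟩
    have he1 : 1 ≤ e := by
      have : (0 : ℤ) < (e : ℤ) := by linarith
      omega
    have h1 := locB1 H he1 he
    have h2 : max (-ord Q g) 0 = (e : ℤ) := by
      rw [he, neg_neg]
      exact max_eq_left (Int.natCast_nonneg _)
    rw [h2]
    refine max_le ?_ (mul_nonneg (Int.natCast_nonneg _) (Int.natCast_nonneg _))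
    have h3 : (e * (p ^ D + 1) + 1 : ℕ) ≤ (p ^ D + 2) * e := by
      nlinarith
    have h4 : ((e * (p ^ D + 1) + 1 : ℕ) : ℤ) ≤ (((p ^ D + 2) * e : ℕ) : ℤ) := by
      exact_mod_cast h3
    rw [Nat.cast_mul (p ^ D + 2) e] at h4
    linarith

/-- pointwise bound for the poles of `z` -/
theorem count_pt2 (H : Hyp p g z P D N) (Q : k) (hz : ord Q z < 0) :
    ((p ^ (N - 1) : ℕ) : ℤ) * (-ord Q z) ≤ max (ord Q (der z)) 0 +
      ((p ^ (N - 1) * (p ^ D + 1) + 1 : ℕ) : ℤ) * max (-ord Q g) 0 := by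
  obtain ⟨n, hn⟩ : ∃ n : ℕ, ord Q z = -(n : ℤ) :=
    ⟨(-ord Q z).toNat, by rw [Int.toNat_of_nonneg (by linarith)]; ring⟩
  have hn1 : 1 ≤ n := by
    have : (0 : ℤ) < (n : ℤ) := by linarith
    omega
  rcases le_or_gt 0 (ord Q g) with hg | hg
  · have h1 := locA H (Or.inr hg) hn1 hn
    have h2 : ord Q (der z) ≤ max (ord Q (der z)) 0 := le_max_left _ _
    have h3 : (0 : ℤ) ≤ ((p ^ (N - 1) * (p ^ D + 1) + 1 : ℕ) : ℤ) * max (-ord Q g) 0 :=
      mul_nonneg (Int.natCast_nonneg _) (le_max_right _ _)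
    rw [hn, neg_neg]
    rw [Nat.cast_mul n (p ^ (N - 1)), mul_comm] at h1
    linarith
  · obtain ⟨e, he⟩ : ∃ e : ℕ, ord Q g = -(e : ℤ) :=
      ⟨(-ord Q g).toNat, by rw [Int.toNat_of_nonneg (by linarith)]; ring⟩
    have he1 : 1 ≤ e := by
      have : (0 : ℤ) < (e : ℤ) := by linarith
      omega
    have h1 := locB2 H he1 he hn
    have h2 : max (-ord Q g) 0 = (e : ℤ) := by
      rw [he, neg_neg]
      exact max_eq_left (Int.natCast_nonneg _)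
    rw [h2, hn, neg_neg]
    rw [Nat.cast_mul (p ^ (N - 1)) n] at h1
    have h3 : (p ^ (N - 1) * (e * (p ^ D + 1)) + 1 : ℕ) ≤
        (p ^ (N - 1) * (p ^ D + 1) + 1) * e := by
      calc p ^ (N - 1) * (e * (p ^ D + 1)) + 1 ≤ p ^ (N - 1) * (e * (p ^ D + 1)) + e := by omega
        _ = (p ^ (N - 1) * (p ^ D + 1) + 1) * e := by ring
    have h4 : ((p ^ (N - 1) * (e * (p ^ D + 1)) + 1 : ℕ) : ℤ) ≤
        (((p ^ (N - 1) * (p ^ D + 1) + 1) * e : ℕ) : ℤ) := by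
      exact_mod_cast h3
    rw [Nat.cast_mul (p ^ (N - 1) * (p ^ D + 1) + 1) e, Nat.cast_add (p ^ (N - 1) * _) 1,
      Nat.cast_one] at h4
    linarith

/-- the main counting estimate -/
theorem sum_pos_ord_der_le (H : Hyp p g z P D N) (S : Finset k) :
    ∑ Q ∈ S, max (ord Q (der z)) 0 ≤ ((dg g * (p ^ D + 2) : ℕ) : ℤ) := by
  classical
  obtain ⟨Sz, hSz, -⟩ := poles_sum z
  have h1 := sum_ord_der_le H.rz H.derz (S ∪ Sz)
    (fun Q hQ => Finset.mem_union_right _ ((hSz Q).2 hQ))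
  have h2 : ∑ Q ∈ S, max (ord Q (der z)) 0 ≤ ∑ Q ∈ S ∪ Sz, max (ord Q (der z)) 0 :=
    Finset.sum_le_sum_of_subset_of_nonneg Finset.subset_union_left
      (fun _ _ _ => le_max_right _ _)
  have h3 : ∑ Q ∈ S ∪ Sz, max (ord Q (der z)) 0 =
      ∑ Q ∈ S ∪ Sz, ord Q (der z) + ∑ Q ∈ S ∪ Sz, max (-ord Q (der z)) 0 := by
    rw [← Finset.sum_add_distrib]
    refine Finset.sum_congr rfl fun Q _ => ?_
    rcases le_total 0 (ord Q (der z)) with h | h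
    · rw [max_eq_left h, max_eq_right (by linarith)]; ring
    · rw [max_eq_right h, max_eq_left (by linarith)]; ring
  have h4 : ∑ Q ∈ S ∪ Sz, max (-ord Q (der z)) 0 ≤
      ((p ^ D + 2 : ℕ) : ℤ) * ∑ Q ∈ S ∪ Sz, max (-ord Q g) 0 := by
    rw [Finset.mul_sum]
    exact Finset.sum_le_sum fun Q _ => count_pt1 H Q
  have h5 : ∑ Q ∈ S ∪ Sz, max (-ord Q g) 0 ≤ ((dg g : ℕ) : ℤ) :=
    (sum_ord_neg_le (S ∪ Sz)).trans (by exact_mod_cast denom_natDegree_le_dg)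
  have h6 : ((p ^ D + 2 : ℕ) : ℤ) * ∑ Q ∈ S ∪ Sz, max (-ord Q g) 0 ≤
      ((p ^ D + 2 : ℕ) : ℤ) * ((dg g : ℕ) : ℤ) :=
    mul_le_mul_of_nonneg_left h5 (Int.natCast_nonneg _)
  rw [Nat.cast_mul (dg g) (p ^ D + 2), mul_comm ((dg g : ℕ) : ℤ)]
  linarith

theorem dg_z_le (H : Hyp p g z P D N) : dg z ≤ dg g * (p ^ D + 2) := by
  have hp := H.hp
  have hD := H.hD
  have hN := H.hN
  obtain ⟨Sz, hSz, hsum⟩ := poles_sum z
  rw [← dg_eq_of_regInf H.rz] at hsum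
  have h1 : ((p ^ (N - 1) : ℕ) : ℤ) * ∑ Q ∈ Sz, (-ord Q z) ≤
      ∑ Q ∈ Sz, max (ord Q (der z)) 0 +
        ((p ^ (N - 1) * (p ^ D + 1) + 1 : ℕ) : ℤ) * ∑ Q ∈ Sz, max (-ord Q g) 0 := by
    rw [Finset.mul_sum, Finset.mul_sum, ← Finset.sum_add_distrib]
    exact Finset.sum_le_sum fun Q hQ => count_pt2 H Q ((hSz Q).1 hQ)
  have h2 := sum_pos_ord_der_le H Sz
  have h5 : ∑ Q ∈ Sz, max (-ord Q g) 0 ≤ ((dg g : ℕ) : ℤ) :=
    (sum_ord_neg_le Sz).trans (by exact_mod_cast denom_natDegree_le_dg)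
  have h6 : ((p ^ (N - 1) * (p ^ D + 1) + 1 : ℕ) : ℤ) * ∑ Q ∈ Sz, max (-ord Q g) 0 ≤
      ((p ^ (N - 1) * (p ^ D + 1) + 1 : ℕ) : ℤ) * ((dg g : ℕ) : ℤ) :=
    mul_le_mul_of_nonneg_left h5 (Int.natCast_nonneg _)
  rw [hsum] at h1
  have h7 : ((p ^ (N - 1) : ℕ) : ℤ) * ((dg z : ℕ) : ℤ) ≤ ((dg g * (p ^ D + 2) : ℕ) : ℤ) +
      ((p ^ (N - 1) * (p ^ D + 1) + 1 : ℕ) : ℤ) * ((dg g : ℕ) : ℤ) := by linarith
  have h8 : p ^ (N - 1) * dg z ≤ dg g * (p ^ D + 2) + (p ^ (N - 1) * (p ^ D + 1) + 1) * dg g := by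
    exact_mod_cast h7
  have h9 : p ^ D + 3 ≤ p ^ (N - 1) := by
    have h10 : p ^ (D + 1) ≤ p ^ (N - 1) := Nat.pow_le_pow_right (by omega) (by omega)
    have h11 : 1 ≤ p ^ D := Nat.one_le_pow _ _ (by omega)
    have h12 : p ^ D * 5 ≤ p ^ (D + 1) := by
      rw [pow_succ]
      exact Nat.mul_le_mul_left _ hp
    omega
  have h13 : p ^ (N - 1) * dg z ≤ p ^ (N - 1) * (dg g * (p ^ D + 2)) := by
    have h14 : (p ^ D + 3) * dg g ≤ p ^ (N - 1) * dg g := Nat.mul_le_mul_right _ h9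
    calc p ^ (N - 1) * dg z ≤ dg g * (p ^ D + 2) + (p ^ (N - 1) * (p ^ D + 1) + 1) * dg g := h8
      _ = p ^ (N - 1) * (p ^ D + 1) * dg g + (p ^ D + 3) * dg g := by ring
      _ ≤ p ^ (N - 1) * (p ^ D + 1) * dg g + p ^ (N - 1) * dg g := by omega
      _ = p ^ (N - 1) * (dg g * (p ^ D + 2)) := by ring
  exact Nat.le_of_mul_le_mul_left h13 (by positivity)

end LR78
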