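import Mathlib

/-!
# MP_11ee63_lc (S14396): definitions for the function field side

`k` is a field (later: an algebraic closure of `F_p`), the function field is `RatFunc k`.
* `ord Q x`: order of `x` at the finite point `Q` (`0` for `x = 0`);
* `ge Q x n`: `x = 0` or `n ≤ ord Q x`;
* `dg x`: height `max (deg num) (deg denom)`;
* `regInf x`: `x` is regular at infinity;
* `der x`: derivative;
* `asr p x`: `x = v ^ p - v` for some `v` (Artin-Schreier);
* `act p P x = ∑ P_j x^(p^j)` for `P ∈ F_p[X]`;
* `Pa p n m a = (X^(2n)+aX^n+1)(X^(2m)+aX^m+1)`.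
-/

set_option autoImplicit false

namespace LR78

open Polynomial

section ordsec

variable {k : Type} [Field k]

/-- order at the point `Q` -/
noncomputable def ord (Q : k) (x : RatFunc k) : ℤ :=
  (x.num.rootMultiplicity Q : ℤ) - (x.denom.rootMultiplicity Q : ℤ)

/-- `x = 0` or `ord Q x ≥ n` -/
def ge (Q : k) (x : RatFunc k) (n : ℤ) : Prop := x = 0 ∨ n ≤ ord Q x

/-- the height -/
noncomputable def dg (x : RatFunc k) : ℕ := max x.num.natDegree x.denom.natDegree

/-- regular at infinity -/
def regInf (x : RatFunc k) : Prop := x.num.natDegree ≤ x.denom.natDegree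

/-- the derivative -/
noncomputable def der (x : RatFunc k) : RatFunc k :=
  algebraMap k[X] (RatFunc k) (derivative x.num * x.denom - x.num * derivative x.denom) /
    algebraMap k[X] (RatFunc k) (x.denom ^ 2)

end ordsec

/-- the Artin-Schreier relation -/
def asr (p : ℕ) {K : Type} [CommRing K] (x : K) : Prop := ∃ v : K, x = v ^ p - v

/-- `act p P x = ∑ P_j x^(p^j)` -/
noncomputable def act (p : ℕ) {K : Type} [CommRing K] [Algebra (ZMod p) K]
    (P : (ZMod p)[X]) (x : K) : K :=
  P.sum fun j c => algebraMap (ZMod p) K c * x ^ p ^ j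

/-- the polynomials `P_a` -/
noncomputable def Pa (p n m : ℕ) (a : ZMod p) : (ZMod p)[X] :=
  (X ^ (2 * n) + C a * X ^ n + 1) * (X ^ (2 * m) + C a * X ^ m + 1)

end LR78
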