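import Pool.Agent.LR78.OrdD

/-!
The basic hypothesis: the Artin-Schreier relation `z F^N z - g F^(N-D) (P(F) g) ~ 0`.
-/

set_option autoImplicit false

namespace LR78

open Polynomial

variable (p : ℕ) [Fact p.Prime] {k : Type} [Field k] [Algebra (ZMod p) k] [IsAlgClosed k]

/-- `P` is self-reciprocal of degree `2D`; `g`, `z` separable and regular at infinity -/
structure Hyp (g z : RatFunc k) (P : (ZMod p)[X]) (D N : ℕ) : Prop where
  hp : 5 ≤ p
  hD : 1 ≤ D
  hN : 2 * D + 4 ≤ N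
  derg : der g ≠ 0
  derz : der z ≠ 0
  rg : regInf g
  rz : regInf z
  deg : P.natDegree ≤ 2 * D
  symm : ∀ j, j ≤ 2 * D → P.coeff j = P.coeff (2 * D - j)
  P0 : P.coeff 0 ≠ 0
  as : asr p (z * z ^ p ^ N - g * (act p P g) ^ p ^ (N - D))

variable {p} {g z : RatFunc k} {P : (ZMod p)[X]} {D N : ℕ}

theorem Hyp.natDegree_eq (H : Hyp p g z P D N) : P.natDegree = 2 * D := by
  refine le_antisymm H.deg (le_natDegree_of_ne_zero ?_)
  have h := H.symm 0 (Nat.zero_le _)
  rw [Nat.sub_zero] at h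
  rw [← h]
  exact H.P0

/-- `dz F^N z = dg F^(N-D)(P(F)g) - dv` -/
theorem Hyp.der_eq (H : Hyp p g z P D N) {v : RatFunc k}
    (hv : z * z ^ p ^ N - g * (act p P g) ^ p ^ (N - D) = v ^ p - v) :
    der z * z ^ p ^ N = der g * (act p P g) ^ p ^ (N - D) - der v := by
  have hN := H.hN
  have h := congrArg der hv
  rw [der_sub, der_sub, der_mul_frob p (by omega), der_mul_frob p (by omega), der_frob_one p,
    zero_sub] at h
  rw [sub_eq_iff_eq_add] at h
  rw [h]
  ring

end LR78
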