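import Pool.Agent.LR78.StepLoc

/-!
End of the local analysis: from stage `D + 1` at a type A point `Q`:
`z = S(F) g + F^(D+1) ζ`, all of pole order `≤ p^D`, so `ζ` is regular at `Q`, and `S_D ≠ 0`.
`Yp (D+1) S = P(F) g - ∑_{j ≤ D} S_j F^(D-j) z = Δ(F) g - (regular at Q)`, where
`Δ = P - (reflect D S) * S`. If `Δ ≠ 0` has degree `δ ≥ D` then
`ζ z^(p^(M-D-1)) - g Yp^(p^(M-D))` has pole order `1 + p^(M-D+δ)` (the first term has pole order
`≤ p^(M-1)`), prime to `p`: contradiction. So `Δ_j = 0` for `j ≥ D`; `Δ` is symmetric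
(`Δ_j = Δ_(2D-j)`), so `Δ = 0`.
-/

set_option autoImplicit false

namespace LR78

open Polynomial

variable {p : ℕ} [Fact p.Prime] {k : Type} [Field k] [Algebra (ZMod p) k] [IsAlgClosed k]
  {g z : RatFunc k} {P : (ZMod p)[X]} {D M : ℕ} {Q : k}

theorem stage_regular (H : Hyp p g z P D M) {S : (ZMod p)[X]} {ζ : RatFunc k}
    (h : Stage p g z P D M (D + 1) S ζ) (hQ : typeA p g z D Q) : ge Q ζ 0 := by
  have hp : 2 ≤ p := (Fact.out : p.Prime).two_le
  by_cases hζ : ζ = 0
  · exact Or.inl hζ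
  right
  by_contra hneg
  push Not at hneg
  have h1 : ge Q (act p S g) (-((1 * p ^ D : ℕ) : ℤ)) :=
    ge_act_pole p (d := D) (e := 1) (fun j hj => h.degS j hj)
      (Or.inr (by rw [hQ.1, Nat.cast_one]))
  have h2 : ge Q z (-((1 * p ^ D : ℕ) : ℤ)) := Or.inr (by rw [hQ.2.1, one_mul])
  have h3 : ζ ^ p ^ (D + 1) = z - act p S g := by
    rw [eq_sub_iff_add_eq, add_comm]; exact h.eq.symm
  have h4 : ge Q (ζ ^ p ^ (D + 1)) (-((1 * p ^ D : ℕ) : ℤ)) := by
    rw [h3]; exact ge_sub h2 h1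
  rw [ge_iff (pow_ne_zero _ hζ), ord_pow] at h4
  have h5 : p ^ D < p ^ (D + 1) := Nat.pow_lt_pow_right (by omega) (by omega)
  have h6 : ((p ^ D : ℕ) : ℤ) < ((p ^ (D + 1) : ℕ) : ℤ) := by exact_mod_cast h5
  have h7 : (0 : ℤ) < ((p ^ D : ℕ) : ℤ) := by positivity
  rw [one_mul] at h4
  nlinarith

theorem prodEq_act_sum_poly {ι : Type} (s : Finset ι) (F : ι → (ZMod p)[X])
    (x : RatFunc k) : act p (∑ j ∈ s, F j) x = ∑ j ∈ s, act p (F j) x := by
  classical
  induction s using Finset.induction_on with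
  | empty => simp [act_zero_poly]
  | insert a s ha ih => rw [Finset.sum_insert ha, Finset.sum_insert ha, act_add_poly, ih]

theorem prodEq_act_C_mul (c : ZMod p) (R : (ZMod p)[X]) (x : RatFunc k) :
    act p (C c * R) x = algebraMap (ZMod p) (RatFunc k) c * act p R x := by
  rw [act_mul]
  have := act_C_mul_X_pow p (x := act p R x) c 0
  rw [pow_zero, mul_one, pow_zero, pow_one] at this
  exact this

theorem prodEq_act_X_pow_mul (n : ℕ) (R : (ZMod p)[X]) (x : RatFunc k) :
    act p (X ^ n * R) x = (act p R x) ^ p ^ n := by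
  rw [act_mul]
  have := act_C_mul_X_pow p (x := act p R x) 1 n
  rw [map_one, map_one, one_mul, one_mul] at this
  exact this

theorem prodEq_reflect {S : (ZMod p)[X]} (hS : ∀ j, D + 1 ≤ j → S.coeff j = 0) :
    reflect D S = ∑ j ∈ Finset.range (D + 1), C (S.coeff j) * X ^ (D - j) := by
  ext i
  rw [coeff_reflect, finsetSum_coeff]
  simp only [coeff_C_mul_X_pow]
  by_cases hi : i ≤ D
  · rw [revAt_le hi, Finset.sum_eq_single (D - i)]
    · rw [if_pos (by omega)]
    · intro b hb hne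
      rw [Finset.mem_range] at hb
      rw [if_neg (by omega)]
    · intro hn
      exact absurd (Finset.mem_range.2 (by omega)) hn
  · rw [revAt_eq_self_of_lt (by omega), hS i (by omega), Finset.sum_eq_zero]
    intro b hb
    rw [Finset.mem_range] at hb
    rw [if_neg (by omega)]

theorem stage_prod (H : Hyp p g z P D M) {S : (ZMod p)[X]} {ζ : RatFunc k}
    (h : Stage p g z P D M (D + 1) S ζ) (hQ : typeA p g z D Q) : P = reflect D S * S := by
  have hpp : p.Prime := Fact.out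
  have hp : 2 ≤ p := hpp.two_le
  have hN := H.hN
  have hreg := stage_regular H h hQ
  -- degree and symmetry
  have hSdeg : S.natDegree ≤ D := by
    rw [natDegree_le_iff_coeff_eq_zero]
    intro j hj; exact h.degS j hj
  have hRdeg : (reflect D S).natDegree ≤ D := by
    rw [natDegree_le_iff_coeff_eq_zero]
    intro j hj
    rw [coeff_reflect, revAt_eq_self_of_lt hj]
    exact h.degS j hj
  set R : (ZMod p)[X] := reflect D S * S with hR
  have hRR : reflect (D + D) R = R := by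
    rw [hR, reflect_mul _ _ hRdeg hSdeg, reflect_reflect, mul_comm]
  have hRsymm : ∀ j, j ≤ 2 * D → R.coeff j = R.coeff (2 * D - j) := by
    intro j hj
    have := congrArg (fun q => q.coeff j) hRR
    simp only [coeff_reflect] at this
    rw [revAt_le (by omega)] at this
    rw [← this]
    congr 1
    omega
  have hRnat : R.natDegree ≤ 2 * D := by
    rw [hR]
    exact (natDegree_mul_le_of_le hRdeg hSdeg).trans (by omega)
  by_contra hne
  set Δ : (ZMod p)[X] := P - R with hΔ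
  have hΔ0 : Δ ≠ 0 := sub_ne_zero.2 hne
  have hΔnat : Δ.natDegree ≤ 2 * D := (natDegree_sub_le_of_le H.deg hRnat).trans (by simp)
  have hδ : D ≤ Δ.natDegree := by
    by_contra hlt
    push Not at hlt
    have h1 : Δ.coeff Δ.natDegree ≠ 0 := by
      rw [coeff_natDegree]; exact leadingCoeff_ne_zero.2 hΔ0
    have h2 : Δ.coeff Δ.natDegree = Δ.coeff (2 * D - Δ.natDegree) := by
      rw [hΔ, coeff_sub, coeff_sub, H.symm _ hΔnat, hRsymm _ hΔnat]
    have h3 : Δ.coeff (2 * D - Δ.natDegree) = 0 := by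
      apply coeff_eq_zero_of_natDegree_lt
      omega
    exact h1 (h2.trans h3)
  -- the function Y
  have hzpow : ∀ j, j ≤ D → z ^ p ^ (D - j) =
      act p (X ^ (D - j) * S) g + ζ ^ p ^ (D + 1 + (D - j)) := by
    intro j _
    rw [prodEq_act_X_pow_mul, pow_add p, pow_mul ζ, ← frob_add, ← h.eq]
  set Z : RatFunc k := ∑ j ∈ Finset.range (D + 1),
    algebraMap (ZMod p) (RatFunc k) (S.coeff j) * ζ ^ p ^ (D + 1 + (D - j)) with hZ
  have hZge : ge Q Z 0 := by
    apply ge_sum
    intro j _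
    apply ge_zmod_mul
    have := ge_pow hreg (p ^ (D + 1 + (D - j)))
    simpa using this
  have hY : Yp p g z P D (D + 1) S = act p Δ g - Z := by
    have h1 : ∑ j ∈ Finset.range (D + 1),
        algebraMap (ZMod p) (RatFunc k) (S.coeff j) * z ^ p ^ (D - j) = act p R g + Z := by
      have h2 : R = ∑ j ∈ Finset.range (D + 1), C (S.coeff j) * (X ^ (D - j) * S) := by
        rw [hR, prodEq_reflect h.degS, Finset.sum_mul]
        exact Finset.sum_congr rfl fun j _ => by ring
      rw [h2, prodEq_act_sum_poly, hZ, ← Finset.sum_add_distrib]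
      refine Finset.sum_congr rfl fun j hj => ?_
      rw [Finset.mem_range] at hj
      rw [hzpow j (by omega), prodEq_act_C_mul]
      ring
    have h3 : act p P g = act p Δ g + act p R g := by
      rw [← act_add_poly, hΔ, sub_add_cancel]
    unfold Yp
    rw [h1, h3]
    ring
  obtain ⟨ha0, haord⟩ := ord_act p (Q := Q) (x := g) hΔ0 (e := 1) le_rfl (by rw [hQ.1]; simp)
  rw [one_mul] at haord
  have hppos : ∀ n : ℕ, (1 : ℤ) ≤ ((p ^ n : ℕ) : ℤ) := fun n => by
    exact_mod_cast Nat.one_le_pow _ _ (by omega)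
  obtain ⟨hY0, hYord⟩ := ord_sub_eq (Q := Q) (x := act p Δ g) (y := Z) ha0
    (ge_mono hZge (by rw [haord]; have := hppos Δ.natDegree; omega))
  rw [← hY] at hY0 hYord
  rw [haord] at hYord
  have hg0 : g ≠ 0 := by
    intro h0
    have := hQ.1
    rw [h0, ord_zero] at this
    omega
  have hgY : ord Q (g * (Yp p g z P D (D + 1) S) ^ p ^ (M - D)) =
      -(1 + ((p ^ (M - D + Δ.natDegree) : ℕ) : ℤ)) := by
    rw [ord_mul hg0 (pow_ne_zero _ hY0), ord_pow, hYord, hQ.1, pow_add]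
    push_cast
    ring
  have hgY0 : g * (Yp p g z P D (D + 1) S) ^ p ^ (M - D) ≠ 0 :=
    mul_ne_zero hg0 (pow_ne_zero _ hY0)
  have hζz : ge Q (ζ * z ^ p ^ (M - (D + 1))) (-((p ^ (M - 1) : ℕ) : ℤ)) := by
    have h1 : ge Q z (-((p ^ D : ℕ) : ℤ)) := Or.inr (by rw [hQ.2.1])
    have h2 := ge_mul hreg (ge_pow h1 (p ^ (M - (D + 1))))
    refine ge_mono h2 (le_of_eq ?_)
    have h3 : M - 1 = M - (D + 1) + D := by omega
    rw [h3, pow_add]
    push_cast
    ring
  have hpow : p ^ (M - 1) ≤ p ^ (M - D + Δ.natDegree) := Nat.pow_le_pow_right (by omega) (by omega)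
  have hpow' : ((p ^ (M - 1) : ℕ) : ℤ) ≤ ((p ^ (M - D + Δ.natDegree) : ℕ) : ℤ) := by
    exact_mod_cast hpow
  obtain ⟨hd0, hdord⟩ := ord_sub_eq (Q := Q)
    (x := g * (Yp p g z P D (D + 1) S) ^ p ^ (M - D)) (y := ζ * z ^ p ^ (M - (D + 1))) hgY0
    (ge_mono hζz (by rw [hgY]; omega))
  have has := h.rel M (Or.inl rfl)
  have hneg : ord Q (ζ * z ^ p ^ (M - (D + 1)) - g * (Yp p g z P D (D + 1) S) ^ p ^ (M - D)) =
      -(1 + ((p ^ (M - D + Δ.natDegree) : ℕ) : ℤ)) := by
    rw [← neg_sub, ord_neg, hdord, hgY]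
  have hdvd := as_ord p (Q := Q) has (by rw [hneg]; have := hppos (M - D + Δ.natDegree); omega)
  rw [hneg, dvd_neg] at hdvd
  have hd2 : (p : ℤ) ∣ ((p ^ (M - D + Δ.natDegree) : ℕ) : ℤ) := by
    have : p ∣ p ^ (M - D + Δ.natDegree) := dvd_pow_self p (by omega)
    exact_mod_cast this
  have hd3 : (p : ℤ) ∣ 1 := (dvd_add_left hd2).1 hdvd
  have hd4 : p ∣ 1 := by exact_mod_cast hd3
  have := Nat.le_of_dvd one_pos hd4
  omega

end LR78
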