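import Pool.Agent.LR78.StepGlob
import Pool.Agent.LR78.ProdEq

/-!
Summary of the analysis of the key relation.
-/

set_option autoImplicit false

namespace LR78

open Polynomial

variable {p : ℕ} [Fact p.Prime] {k : Type} [Field k] [Algebra (ZMod p) k] [IsAlgClosed k]
  {g z : RatFunc k} {P : (ZMod p)[X]} {D M : ℕ}

/-- the end of the induction -/
theorem exists_stage (H : Hyp p g z P D M) (H' : Hyp p g z P D (M + 1)) {A : Finset k}
    (hA : ∀ Q ∈ A, typeA p g z D Q) (hc : dg g ≤ 2 * A.card) (h1 : 1 ≤ dg g) :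
    ∃ (S : (ZMod p)[X]) (ζ : RatFunc k), Stage p g z P D M (D + 1) S ζ := by
  have key : ∀ i, i ≤ D + 1 → ∃ (S : (ZMod p)[X]) (ζ : RatFunc k), Stage p g z P D M i S ζ := by
    intro i
    induction i with
    | zero => exact fun _ => ⟨0, z, stage_zero H H'⟩
    | succ i ih =>
      intro hi
      obtain ⟨S, zi, h⟩ := ih (by omega)
      obtain ⟨c, z', hz⟩ := stage_glob H (by omega : i ≤ D) h hA hc h1
      have hN := H.hN
      exact ⟨_, z', stage_succ (by omega) (by omega) h hz⟩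
  exact key _ le_rfl

theorem kmain (H : Hyp p g z P D M) (H' : Hyp p g z P D (M + 1)) (S₁ : Finset k)
    (hS₁ : ∀ Q ∈ S₁, ord Q g = -1) (hc : 2 * dg g ≤ 3 * S₁.card) :
    ∃ (S : (ZMod p)[X]) (ζ : RatFunc k) (Q : k), S.natDegree ≤ D ∧
      z = act p S g + ζ ^ p ^ (D + 1) ∧ ord Q g = -1 ∧ ge Q ζ 0 ∧ P = reflect D S * S := by
  obtain ⟨A, hA, hcA, h1⟩ := exists_typeA H S₁ hS₁ hc
  obtain ⟨S, ζ, h⟩ := exists_stage H H' hA hcA h1
  have hne : A.Nonempty := by
    rw [← Finset.card_pos]; omega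
  obtain ⟨Q, hQA⟩ := hne
  have hQ := hA Q hQA
  refine ⟨S, ζ, Q, ?_, h.eq, hQ.1, stage_regular H h hQ, stage_prod H h hQ⟩
  rw [natDegree_le_iff_coeff_eq_zero]
  intro j hj
  exact h.degS j hj

end LR78
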