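import Pool.Agent.LR78.Hyp

/-!
Local facts at a point `Q` where `g` is regular and `z` has a pole of order `n`.
Proof of `locA`: `x = z z^(p^N) - g (...)` has pole order exactly `n (1 + p^N)`, so `p ∣ n`
(`as_ord`), `n ≥ p`, and `v` (`x = v^p - v`) satisfies `ge (der v) (-(n (1+p^N) / p) - 1)`
(`as_der`); `der z * z^(p^N) = der g * (...) - der v` gives
`ord (der z) ≥ n p^N - n (1 + p^N)/p - 1 ≥ n p^(N-1)`.
-/

set_option autoImplicit false

namespace LR78

open Polynomial

variable {p : ℕ} [Fact p.Prime] {k : Type} [Field k] [Algebra (ZMod p) k] [IsAlgClosed k]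
  {g z : RatFunc k} {P : (ZMod p)[X]} {D N : ℕ} {Q : k}

theorem locA (H : Hyp p g z P D N) (hg : ge Q g 0) {n : ℕ} (hn : 1 ≤ n)
    (hz : ord Q z = -(n : ℤ)) : ((n * p ^ (N - 1) : ℕ) : ℤ) ≤ ord Q (der z) := by
  have hp := H.hp
  have hN := H.hN
  have hz0 : z ≠ 0 := by
    rintro rfl
    rw [ord_zero] at hz
    omega
  obtain ⟨v, hv⟩ := H.as
  have hden := H.der_eq hv
  have hzz : ord Q (z * z ^ p ^ N) = -((n * (1 + p ^ N) : ℕ) : ℤ) := by
    rw [ord_mul hz0 (pow_ne_zero _ hz0), ord_pow, hz]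
    push_cast
    ring
  have hA : ge Q ((act p P g) ^ p ^ (N - D)) 0 := by
    have := ge_pow (ge_act p hg (P := P)) (p ^ (N - D))
    rwa [mul_zero] at this
  have hy : ge Q (g * (act p P g) ^ p ^ (N - D)) 0 := by
    have := ge_mul hg hA
    rwa [add_zero] at this
  have hW : 1 ≤ n * (1 + p ^ N) := Nat.mul_pos (by omega) (by omega)
  have hx : ge Q (z * z ^ p ^ N - g * (act p P g) ^ p ^ (N - D))
      (-((n * (1 + p ^ N) : ℕ) : ℤ)) := by
    refine ge_sub (hzz ▸ ge_self) (ge_mono hy (by omega))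
  have hdv := (as_der p hv hx).2
  have hdg : ge Q (der g * (act p P g) ^ p ^ (N - D)) 0 := by
    have := ge_mul (ge_der_zero hg) hA
    rwa [add_zero] at this
  have hE : ge Q (der z * z ^ p ^ N) (-(((n * (1 + p ^ N)) / p : ℕ) : ℤ) - 1) := by
    rw [hden]
    refine ge_sub (ge_mono hdg ?_) hdv
    have : (0 : ℤ) ≤ (((n * (1 + p ^ N)) / p : ℕ) : ℤ) := Int.natCast_nonneg _
    omega
  rw [ge_iff (mul_ne_zero H.derz (pow_ne_zero _ hz0)),
    ord_mul H.derz (pow_ne_zero _ hz0), ord_pow, hz] at hE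
  -- arithmetic
  have hpN : p ^ N = p * p ^ (N - 1) := by
    rw [← pow_succ']
    congr 1
    omega
  have hdiv : p * ((n * (1 + p ^ N)) / p) ≤ n * (1 + p ^ N) := Nat.mul_div_le _ _
  have hq : 1 ≤ p ^ (N - 1) := Nat.one_le_pow _ _ (by omega)
  rw [hpN] at hE hdiv
  set q := p ^ (N - 1) with hqdef
  set w := n * (1 + p * q) / p with hw
  have h5 : w ≤ n * q + n := by
    have : p * w ≤ p * (n * q + n) := by
      calc p * w ≤ n * (1 + p * q) := hdiv
        _ = p * (n * q) + n := by ring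
        _ ≤ p * (n * q) + p * n := by
          have : 1 * n ≤ p * n := Nat.mul_le_mul_right _ (by omega)
          omega
        _ = p * (n * q + n) := by ring
    exact Nat.le_of_mul_le_mul_left this (by omega)
  have h6 : 5 * (n * q) ≤ p * (n * q) := Nat.mul_le_mul_right _ hp
  have h7 : n ≤ n * q := Nat.le_mul_of_pos_right _ (by omega)
  have h8 : ((p * q : ℕ) : ℤ) * -(n : ℤ) = -((p * (n * q) : ℕ) : ℤ) := by
    push_cast
    ring
  rw [h8] at hE
  omega

end LR78
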