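import Pool.Agent.LR78.Defs

/-!
Orders at finite points: arithmetic. `ord Q x = rootMultiplicity Q num - rootMultiplicity Q denom`.
Hint: `RatFunc.num_div_denom`, `RatFunc.num_denom_mul`, `Polynomial.rootMultiplicity_mul`.
-/

set_option autoImplicit false

namespace LR78

open Polynomial

variable {k : Type} [Field k] {Q : k} {x y : RatFunc k}

/-- the order can be read off from any representation as a quotient -/
theorem ord_div_algebraMap {a b : k[X]} (ha : a ≠ 0) (hb : b ≠ 0) :
    ord Q (algebraMap k[X] (RatFunc k) a / algebraMap k[X] (RatFunc k) b) =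
      (a.rootMultiplicity Q : ℤ) - (b.rootMultiplicity Q : ℤ) := by
  set x : RatFunc k := algebraMap k[X] (RatFunc k) a / algebraMap k[X] (RatFunc k) b with hx
  have h := (RatFunc.num_mul_eq_mul_denom_iff (x := x) hb).2 hx
  have hx0 : x ≠ 0 := by
    rw [hx]
    exact div_ne_zero (RatFunc.algebraMap_ne_zero ha) (RatFunc.algebraMap_ne_zero hb)
  have hn : x.num ≠ 0 := RatFunc.num_ne_zero hx0
  have hd : x.denom ≠ 0 := RatFunc.denom_ne_zero x
  have h' := congrArg (rootMultiplicity Q) h
  rw [rootMultiplicity_mul (mul_ne_zero hn hb), rootMultiplicity_mul (mul_ne_zero ha hd)] at h'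
  unfold ord
  omega

theorem ord_algebraMap (P : k[X]) :
    ord Q (algebraMap k[X] (RatFunc k) P) = P.rootMultiplicity Q := by
  unfold ord
  rw [RatFunc.num_algebraMap, RatFunc.denom_algebraMap]
  simp

theorem ord_zero : ord Q (0 : RatFunc k) = 0 := by
  unfold ord
  rw [RatFunc.num_zero, RatFunc.denom_zero]
  simp

theorem ord_one : ord Q (1 : RatFunc k) = 0 := by
  unfold ord
  rw [RatFunc.num_one, RatFunc.denom_one]
  simp

theorem ord_C (c : k) : ord Q (RatFunc.C c) = 0 := by
  unfold ord
  rw [RatFunc.num_C, RatFunc.denom_C]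
  simp

theorem ord_mul (hx : x ≠ 0) (hy : y ≠ 0) : ord Q (x * y) = ord Q x + ord Q y := by
  have e : x * y = algebraMap k[X] (RatFunc k) (x.num * y.num) /
      algebraMap k[X] (RatFunc k) (x.denom * y.denom) := by
    rw [map_mul, map_mul, mul_div_mul_comm, RatFunc.num_div_denom, RatFunc.num_div_denom]
  have hxn : x.num ≠ 0 := RatFunc.num_ne_zero hx
  have hyn : y.num ≠ 0 := RatFunc.num_ne_zero hy
  have hxd : x.denom ≠ 0 := RatFunc.denom_ne_zero x
  have hyd : y.denom ≠ 0 := RatFunc.denom_ne_zero y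
  rw [e, ord_div_algebraMap (mul_ne_zero hxn hyn) (mul_ne_zero hxd hyd),
    rootMultiplicity_mul (mul_ne_zero hxn hyn), rootMultiplicity_mul (mul_ne_zero hxd hyd)]
  unfold ord
  push_cast
  ring

theorem ord_inv : ord Q x⁻¹ = - ord Q x := by
  by_cases hx : x = 0
  · rw [hx, inv_zero, ord_zero, neg_zero]
  · have h := ord_mul (Q := Q) hx (inv_ne_zero hx)
    rw [mul_inv_cancel₀ hx, ord_one] at h
    omega

theorem ord_div (hx : x ≠ 0) (hy : y ≠ 0) : ord Q (x / y) = ord Q x - ord Q y := by
  rw [div_eq_mul_inv, ord_mul hx (inv_ne_zero hy), ord_inv, sub_eq_add_neg]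

theorem ord_pow (n : ℕ) : ord Q (x ^ n) = n * ord Q x := by
  by_cases hx : x = 0
  · rcases Nat.eq_zero_or_pos n with rfl | hn
    · rw [pow_zero, ord_one]; simp
    · rw [hx, zero_pow (by omega), ord_zero, mul_zero]
  · induction n with
    | zero => rw [pow_zero, ord_one]; simp
    | succ n ih => rw [pow_succ, ord_mul (pow_ne_zero n hx) hx, ih]; push_cast; ring

theorem ord_neg : ord Q (-x) = ord Q x := by
  by_cases hx : x = 0
  · rw [hx, neg_zero]
  · have e : -x = RatFunc.C (-1) * x := by
      rw [map_neg, map_one, neg_one_mul]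
    have hC : (RatFunc.C (-1 : k) : RatFunc k) ≠ 0 := by
      rw [map_neg, map_one]; exact neg_ne_zero.2 one_ne_zero
    rw [e, ord_mul hC hx, ord_C, zero_add]

end LR78
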