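import Pool.Agent.LR78.OrdA1

/-!
The predicate `ge Q x n` (`x = 0` or `n ≤ ord Q x`): ultrametric calculus.
Hint for `ge_add`: write `x = a/b`, `y = c/d`; `x + y = (a d + b c)/(b d)`, and a power of `X - C Q` dividing
both summands divides the sum (`Polynomial.le_rootMultiplicity_iff`, `Polynomial.rootMultiplicity_add`).
-/

set_option autoImplicit false

namespace LR78

open Polynomial

variable {k : Type} [Field k] {Q : k} {x y : RatFunc k}

theorem ge_iff (hx : x ≠ 0) {n : ℤ} : ge Q x n ↔ n ≤ ord Q x :=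
  ⟨fun h => h.resolve_left hx, Or.inr⟩

theorem ge_zero (n : ℤ) : ge Q (0 : RatFunc k) n := Or.inl rfl

theorem ge_self : ge Q x (ord Q x) := Or.inr le_rfl

theorem ge_mono {m n : ℤ} (h : ge Q x n) (hmn : m ≤ n) : ge Q x m := by
  rcases h with h | h
  · exact Or.inl h
  · exact Or.inr (hmn.trans h)

theorem ge_neg {n : ℤ} (h : ge Q x n) : ge Q (-x) n := by
  rcases h with h | h
  · exact Or.inl (by rw [h, neg_zero])
  · exact Or.inr (by rwa [ord_neg])

theorem ge_add {n : ℤ} (hx : ge Q x n) (hy : ge Q y n) : ge Q (x + y) n := by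
  by_cases hx0 : x = 0
  · rwa [hx0, zero_add]
  by_cases hy0 : y = 0
  · rwa [hy0, add_zero]
  by_cases hs : x + y = 0
  · exact Or.inl hs
  rw [ge_iff hx0] at hx
  rw [ge_iff hy0] at hy
  rw [ge_iff hs]
  have hxn : x.num ≠ 0 := RatFunc.num_ne_zero hx0
  have hyn : y.num ≠ 0 := RatFunc.num_ne_zero hy0
  have hxd : x.denom ≠ 0 := RatFunc.denom_ne_zero x
  have hyd : y.denom ≠ 0 := RatFunc.denom_ne_zero y
  have hxd' : algebraMap k[X] (RatFunc k) x.denom ≠ 0 := RatFunc.algebraMap_ne_zero hxd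
  have hyd' : algebraMap k[X] (RatFunc k) y.denom ≠ 0 := RatFunc.algebraMap_ne_zero hyd
  have e : x + y = algebraMap k[X] (RatFunc k) (x.num * y.denom + x.denom * y.num) /
      algebraMap k[X] (RatFunc k) (x.denom * y.denom) := by
    conv_lhs => rw [← RatFunc.num_div_denom x, ← RatFunc.num_div_denom y]
    rw [div_add_div _ _ hxd' hyd', map_add, map_mul, map_mul, map_mul]
  have hne : x.num * y.denom + x.denom * y.num ≠ 0 := by
    intro h0
    rw [h0, map_zero, zero_div] at e
    exact hs e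
  rw [e, ord_div_algebraMap hne (mul_ne_zero hxd hyd), rootMultiplicity_mul (mul_ne_zero hxd hyd)]
  have h1 := rootMultiplicity_add (a := Q) (p := x.num * y.denom) (q := x.denom * y.num) hne
  rw [rootMultiplicity_mul (mul_ne_zero hxn hyd), rootMultiplicity_mul (mul_ne_zero hxd hyn)] at h1
  unfold ord at hx hy
  omega

theorem ge_sub {n : ℤ} (hx : ge Q x n) (hy : ge Q y n) : ge Q (x - y) n := by
  rw [sub_eq_add_neg]
  exact ge_add hx (ge_neg hy)

theorem ge_sum {ι : Type} (s : Finset ι) (F : ι → RatFunc k) {n : ℤ}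
    (h : ∀ i ∈ s, ge Q (F i) n) : ge Q (∑ i ∈ s, F i) n := by
  classical
  induction s using Finset.induction_on with
  | empty => simpa using ge_zero n
  | insert a s ha ih =>
    rw [Finset.sum_insert ha]
    exact ge_add (h a (Finset.mem_insert_self _ _))
      (ih fun i hi => h i (Finset.mem_insert_of_mem hi))

theorem ge_mul {m n : ℤ} (hx : ge Q x m) (hy : ge Q y n) : ge Q (x * y) (m + n) := by
  by_cases hx0 : x = 0
  · exact Or.inl (by rw [hx0, zero_mul])
  by_cases hy0 : y = 0
  · exact Or.inl (by rw [hy0, mul_zero])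
  rw [ge_iff hx0] at hx
  rw [ge_iff hy0] at hy
  rw [ge_iff (mul_ne_zero hx0 hy0), ord_mul hx0 hy0]
  omega

theorem ge_pow {m : ℤ} (hx : ge Q x m) (n : ℕ) : ge Q (x ^ n) (n * m) := by
  induction n with
  | zero => rw [pow_zero]; exact Or.inr (by rw [ord_one]; simp)
  | succ n ih =>
    rw [pow_succ]
    have := ge_mul ih hx
    convert this using 1
    push_cast
    ring

theorem ge_C (c : k) : ge Q (RatFunc.C c) 0 := Or.inr (by rw [ord_C])

/-- ultrametric equality -/
theorem ord_add_eq (hx : x ≠ 0) (h : ge Q y (ord Q x + 1)) :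
    x + y ≠ 0 ∧ ord Q (x + y) = ord Q x := by
  have key : ¬ ge Q (x + y) (ord Q x + 1) := by
    intro h'
    have h2 := ge_sub h' h
    rw [add_sub_cancel_right, ge_iff hx] at h2
    omega
  have hne : x + y ≠ 0 := fun h0 => key (Or.inl h0)
  refine ⟨hne, ?_⟩
  have h1 : ge Q (x + y) (ord Q x) := ge_add ge_self (ge_mono h (by omega))
  rw [ge_iff hne] at h1 key
  omega

theorem ord_sub_eq (hx : x ≠ 0) (h : ge Q y (ord Q x + 1)) :
    x - y ≠ 0 ∧ ord Q (x - y) = ord Q x := by
  rw [sub_eq_add_neg]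
  exact ord_add_eq hx (ge_neg h)

end LR78
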