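import Pool.Agent.LR78.OrdA2

/-!
Values of functions at regular points.
Hint: if `x` is regular at `Q`, its (reduced) denominator does not vanish at `Q`; take
`c = num(Q)/denom(Q)`.
-/

set_option autoImplicit false

namespace LR78

open Polynomial

variable {k : Type} [Field k] {Q : k} {x y : RatFunc k}

/-- values at points where `x` is regular -/
theorem exists_value (h : ge Q x 0) : ∃ c : k, ge Q (x - RatFunc.C c) 1 := by
  by_cases hx : x = 0
  · exact ⟨0, Or.inl (by rw [hx, map_zero, sub_zero])⟩
  rw [ge_iff hx] at h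
  have hn : x.num ≠ 0 := RatFunc.num_ne_zero hx
  have hd : x.denom ≠ 0 := RatFunc.denom_ne_zero x
  have hdQ : x.denom.eval Q ≠ 0 := by
    intro h0
    have hr : 0 < x.denom.rootMultiplicity Q := (rootMultiplicity_pos hd).2 h0
    have hnr : 0 < x.num.rootMultiplicity Q := by
      unfold ord at h
      omega
    have hn0 : x.num.eval Q = 0 := (rootMultiplicity_pos hn).1 hnr
    obtain ⟨u, v, huv⟩ := RatFunc.isCoprime_num_denom x
    have := congrArg (eval Q) huv
    rw [eval_add, eval_mul, eval_mul, hn0, h0, eval_one] at this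
    simp at this
  refine ⟨x.num.eval Q / x.denom.eval Q, ?_⟩
  set c := x.num.eval Q / x.denom.eval Q with hc
  have hd' : algebraMap k[X] (RatFunc k) x.denom ≠ 0 := RatFunc.algebraMap_ne_zero hd
  have e : x - RatFunc.C c = algebraMap k[X] (RatFunc k) (x.num - C c * x.denom) /
      algebraMap k[X] (RatFunc k) x.denom := by
    rw [map_sub, map_mul, sub_div, RatFunc.num_div_denom, RatFunc.algebraMap_C,
      mul_div_cancel_right₀ _ hd']
  by_cases h0 : x.num - C c * x.denom = 0
  · left
    rw [e, h0, map_zero, zero_div]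
  · right
    rw [e, ord_div_algebraMap h0 hd, rootMultiplicity_eq_zero (p := x.denom) hdQ]
    have : 0 < (x.num - C c * x.denom).rootMultiplicity Q := by
      refine (rootMultiplicity_pos h0).2 ?_
      rw [IsRoot.def, eval_sub, eval_mul, eval_C, hc, div_mul_cancel₀ _ hdQ, sub_self]
    omega

theorem C_eq_zero_of_ge_one {c : k} (h : ge Q (RatFunc.C c) 1) : c = 0 := by
  rcases h with h | h
  · exact (map_eq_zero RatFunc.C).1 h
  · rw [ord_C] at h
    omega

/-- `x - x(Q)` for `x = C c` -/
theorem ge_one_unique {c c' : k} (h : ge Q (x - RatFunc.C c) 1) (h' : ge Q (x - RatFunc.C c') 1) :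
    c = c' := by
  have h2 := ge_sub h h'
  have e : x - RatFunc.C c - (x - RatFunc.C c') = RatFunc.C (c' - c) := by
    rw [map_sub]; ring
  rw [e] at h2
  exact (sub_eq_zero.1 (C_eq_zero_of_ge_one h2)).symm

end LR78
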