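import Pool.Agent.LR78.OrdA3

/-!
The derivative `der` on `RatFunc k`: algebraic rules.
First prove `der_div_algebraMap` (independence of the representation), the rest follows from it.
-/

set_option autoImplicit false

namespace LR78

open Polynomial

variable {k : Type} [Field k] {Q : k} {x y : RatFunc k}

theorem der_div_algebraMap (a : k[X]) {b : k[X]} (hb : b ≠ 0) :
    der (algebraMap k[X] (RatFunc k) a / algebraMap k[X] (RatFunc k) b) =
      algebraMap k[X] (RatFunc k) (derivative a * b - a * derivative b) /
        algebraMap k[X] (RatFunc k) (b ^ 2) := by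
  set x := algebraMap k[X] (RatFunc k) a / algebraMap k[X] (RatFunc k) b with hx
  have hd : x.denom ≠ 0 := x.denom_ne_zero
  have hb' : algebraMap k[X] (RatFunc k) b ≠ 0 := RatFunc.algebraMap_ne_zero hb
  have hd' : algebraMap k[X] (RatFunc k) x.denom ≠ 0 := RatFunc.algebraMap_ne_zero hd
  have h0 : algebraMap k[X] (RatFunc k) x.num / algebraMap k[X] (RatFunc k) x.denom =
      algebraMap k[X] (RatFunc k) a / algebraMap k[X] (RatFunc k) b := by
    rw [RatFunc.num_div_denom]
  rw [div_eq_div_iff hd' hb', ← map_mul, ← map_mul] at h0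
  have h : x.num * b = a * x.denom := RatFunc.algebraMap_injective k h0
  have h' := congrArg derivative h
  rw [derivative_mul, derivative_mul] at h'
  unfold der
  rw [div_eq_div_iff (RatFunc.algebraMap_ne_zero (pow_ne_zero 2 hd))
    (RatFunc.algebraMap_ne_zero (pow_ne_zero 2 hb)), ← map_mul, ← map_mul]
  congr 1
  linear_combination (b * x.denom) * h' -
    (x.denom * derivative b + b * derivative x.denom) * h

theorem exists_rep (x : RatFunc k) : ∃ a b : k[X], b ≠ 0 ∧
    x = algebraMap k[X] (RatFunc k) a / algebraMap k[X] (RatFunc k) b :=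
  ⟨x.num, x.denom, x.denom_ne_zero, x.num_div_denom.symm⟩

theorem der_algebraMap (P : k[X]) :
    der (algebraMap k[X] (RatFunc k) P) = algebraMap k[X] (RatFunc k) (derivative P) := by
  have h := der_div_algebraMap P (b := 1) one_ne_zero
  simpa using h

theorem der_zero : der (0 : RatFunc k) = 0 := by
  have h := der_algebraMap (0 : k[X])
  simpa using h

theorem der_C (c : k) : der (RatFunc.C c) = 0 := by
  have h := der_algebraMap (Polynomial.C c)
  rw [derivative_C, map_zero, RatFunc.algebraMap_C] at h
  exact h

theorem der_add : der (x + y) = der x + der y := by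
  obtain ⟨a, b, hb, rfl⟩ := exists_rep x
  obtain ⟨c, d, hd, rfl⟩ := exists_rep y
  have hb' : algebraMap k[X] (RatFunc k) b ≠ 0 := RatFunc.algebraMap_ne_zero hb
  have hd' : algebraMap k[X] (RatFunc k) d ≠ 0 := RatFunc.algebraMap_ne_zero hd
  rw [div_add_div _ _ hb' hd', ← map_mul, ← map_mul, ← map_add, ← map_mul,
    der_div_algebraMap _ (mul_ne_zero hb hd), der_div_algebraMap _ hb, der_div_algebraMap _ hd]
  simp only [derivative_add, derivative_mul, map_add, map_sub, map_mul, map_pow]
  field_simp
  ring

theorem der_neg : der (-x) = -der x := by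
  have h : der (x + -x) = der x + der (-x) := der_add
  rw [add_neg_cancel, der_zero] at h
  linear_combination -h

theorem der_sub : der (x - y) = der x - der y := by
  rw [sub_eq_add_neg, der_add, der_neg, sub_eq_add_neg]

theorem der_mul : der (x * y) = der x * y + x * der y := by
  obtain ⟨a, b, hb, rfl⟩ := exists_rep x
  obtain ⟨c, d, hd, rfl⟩ := exists_rep y
  have hb' : algebraMap k[X] (RatFunc k) b ≠ 0 := RatFunc.algebraMap_ne_zero hb
  have hd' : algebraMap k[X] (RatFunc k) d ≠ 0 := RatFunc.algebraMap_ne_zero hd
  rw [div_mul_div_comm, ← map_mul, ← map_mul,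
    der_div_algebraMap _ (mul_ne_zero hb hd), der_div_algebraMap _ hb, der_div_algebraMap _ hd]
  simp only [derivative_mul, map_add, map_sub, map_mul, map_pow]
  field_simp
  ring

theorem der_pow (n : ℕ) : der (x ^ n) = n * x ^ (n - 1) * der x := by
  induction n with
  | zero =>
    have h := der_C (1 : k)
    rw [map_one] at h
    simp [h]
  | succ n ih =>
    rw [pow_succ, der_mul, ih]
    rcases Nat.eq_zero_or_pos n with rfl | hn
    · simp
    · obtain ⟨m, rfl⟩ : ∃ m, n = m + 1 := ⟨n - 1, by omega⟩
      simp only [Nat.add_sub_cancel]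
      push_cast
      ring

theorem der_inv : der (x⁻¹) = - der x / x ^ 2 := by
  rcases eq_or_ne x 0 with rfl | hx
  · simp [der_zero]
  have h : der (x * x⁻¹) = der x * x⁻¹ + x * der (x⁻¹) := der_mul
  have h1 := der_C (1 : k)
  rw [map_one] at h1
  rw [mul_inv_cancel₀ hx, h1] at h
  field_simp at h ⊢
  linear_combination -h

theorem der_sum {ι : Type} (s : Finset ι) (F : ι → RatFunc k) :
    der (∑ i ∈ s, F i) = ∑ i ∈ s, der (F i) := by
  classical
  induction s using Finset.induction_on with
  | empty => simp [der_zero]
  | insert a s ha ih => rw [Finset.sum_insert ha, Finset.sum_insert ha, der_add, ih]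

end LR78
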