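import Pool.Agent.LR78.OrdB1

/-!
Effect of `der` on orders. `ge_der`: for `x ≠ 0` write `x = (X - C Q)^m u` in `RatFunc`, `m = ord Q x ∈ ℤ`,
`u` of order `0` at `Q` (so `u = a/b` with `a(Q), b(Q) ≠ 0`), and use `der_mul`;
or work directly with `w = a' b - a b'` and divisibility by powers of `X - C Q`.
-/

set_option autoImplicit false

namespace LR78

open Polynomial

variable {k : Type} [Field k] {Q : k} {x y : RatFunc k}

/-- the local parameter -/
noncomputable def unif (Q : k) : RatFunc k := algebraMap k[X] (RatFunc k) (X - C Q)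

theorem unif_ne_zero (Q : k) : unif Q ≠ 0 := RatFunc.algebraMap_ne_zero (X_sub_C_ne_zero Q)

theorem ord_unif : ord Q (unif Q) = 1 := by
  unfold unif
  rw [ord_algebraMap, rootMultiplicity_X_sub_C_self]
  norm_num

theorem ord_unif_zpow (m : ℤ) : ord Q (unif Q ^ m) = m := by
  rcases m with n | n
  · rw [Int.ofNat_eq_natCast, zpow_natCast, ord_pow, ord_unif]; ring
  · rw [zpow_negSucc, ord_inv, ord_pow, ord_unif, Int.negSucc_eq]; push_cast; ring

theorem der_unif : der (unif Q) = 1 := by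
  unfold unif
  rw [der_algebraMap]; simp

theorem der_unif_zpow (m : ℤ) : der (unif Q ^ m) = m * unif Q ^ (m - 1) := by
  have h0 := unif_ne_zero Q
  rcases m with n | n
  · rw [Int.ofNat_eq_natCast, zpow_natCast, der_pow, der_unif, mul_one]
    rcases Nat.eq_zero_or_pos n with rfl | hn
    · simp
    · obtain ⟨l, rfl⟩ : ∃ l, n = l + 1 := ⟨n - 1, by omega⟩
      have : ((l + 1 : ℕ) : ℤ) - 1 = (l : ℤ) := by push_cast; ring
      rw [this, zpow_natCast, Nat.add_sub_cancel]
      push_cast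
      ring
  · rw [zpow_negSucc, der_inv, der_pow, der_unif, mul_one, Nat.add_sub_cancel]
    have h1 : unif Q ^ (Int.negSucc n - 1) = (unif Q ^ (n + 2))⁻¹ := by
      have : Int.negSucc n - 1 = -((n + 2 : ℕ) : ℤ) := by
        rw [Int.negSucc_eq]; push_cast; ring
      rw [this, zpow_neg, zpow_natCast]
    rw [h1, Int.cast_negSucc]
    field_simp
    ring

theorem ge_der_zero (h : ge Q x 0) : ge Q (der x) 0 := by
  by_cases hx : x = 0
  · rw [hx, der_zero]; exact Or.inl rfl
  rw [ge_iff hx] at h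
  have hd : x.denom ≠ 0 := x.denom_ne_zero
  have hd0 : x.denom.rootMultiplicity Q = 0 := by
    by_contra hne
    have h1 : 0 < x.denom.rootMultiplicity Q := Nat.pos_of_ne_zero hne
    unfold ord at h
    have h2 : 0 < x.num.rootMultiplicity Q := by omega
    have h3 : x.denom.IsRoot Q := (rootMultiplicity_pos hd).mp h1
    have h4 : x.num.IsRoot Q := (rootMultiplicity_pos (RatFunc.num_ne_zero hx)).mp h2
    have h5 := x.isCoprime_num_denom
    obtain ⟨u, v, huv⟩ := h5
    have h6 := congrArg (eval Q) huv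
    rw [eval_add, eval_mul, eval_mul, h3.eq_zero, h4.eq_zero] at h6
    simp at h6
  unfold der
  by_cases hW : derivative x.num * x.denom - x.num * derivative x.denom = 0
  · rw [hW, map_zero, zero_div]; exact Or.inl rfl
  · right
    rw [ord_div_algebraMap hW (pow_ne_zero 2 hd), pow_two, rootMultiplicity_mul
      (mul_ne_zero hd hd), hd0]
    simp

theorem exists_unit (hx : x ≠ 0) : ∃ u : RatFunc k, u ≠ 0 ∧ ord Q u = 0 ∧
    x = unif Q ^ (ord Q x) * u := by
  have h0 := unif_ne_zero Q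
  have hz : unif Q ^ (ord Q x) ≠ 0 := zpow_ne_zero _ h0
  refine ⟨x / unif Q ^ (ord Q x), div_ne_zero hx hz, ?_, ?_⟩
  · rw [ord_div hx hz, ord_unif_zpow, sub_self]
  · field_simp

theorem ge_intCast (m : ℤ) : ge Q (m : RatFunc k) 0 := by
  have h := ge_C (Q := Q) (m : k)
  rwa [map_intCast] at h

theorem ge_der {n : ℤ} (h : ge Q x n) : ge Q (der x) (n - 1) := by
  by_cases hx : x = 0
  · rw [hx, der_zero]; exact Or.inl rfl
  rw [ge_iff hx] at h
  obtain ⟨u, hu0, hu, hxu⟩ := exists_unit (Q := Q) hx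
  set m := ord Q x with hm
  rw [hxu, der_mul, der_unif_zpow]
  have hu' : ge Q u 0 := by rw [ge_iff hu0, hu]
  have h1 : ge Q ((m : RatFunc k) * unif Q ^ (m - 1) * u) (0 + (m - 1) + 0) :=
    ge_mul (ge_mul (ge_intCast m) (Or.inr (ord_unif_zpow (m - 1)).ge)) hu'
  have h2 : ge Q (unif Q ^ m * der u) (m + 0) :=
    ge_mul (Or.inr (ord_unif_zpow m).ge) (ge_der_zero hu')
  exact ge_add (ge_mono h1 (by omega)) (ge_mono h2 (by omega))

/-- a simple pole of `x` is a double pole of `der x` -/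
theorem ord_der_of_simple (h : ord Q x = -1) : der x ≠ 0 ∧ ord Q (der x) = -2 := by
  have hx : x ≠ 0 := by
    rintro rfl
    rw [ord_zero] at h
    omega
  obtain ⟨u, hu0, hu, hxu⟩ := exists_unit (Q := Q) hx
  rw [h] at hxu
  have h0 := unif_ne_zero Q
  have hu' : ge Q u 0 := by rw [ge_iff hu0, hu]
  have hd : der x = -(unif Q ^ (-2 : ℤ) * u) + unif Q ^ (-1 : ℤ) * der u := by
    rw [hxu, der_mul, der_unif_zpow]
    norm_num
  have hne : -(unif Q ^ (-2 : ℤ) * u) ≠ 0 :=
    neg_ne_zero.mpr (mul_ne_zero (zpow_ne_zero _ h0) hu0)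
  have ho : ord Q (-(unif Q ^ (-2 : ℤ) * u)) = -2 := by
    rw [ord_neg, ord_mul (zpow_ne_zero _ h0) hu0, ord_unif_zpow, hu, add_zero]
  have h2 : ge Q (unif Q ^ (-1 : ℤ) * der u) (ord Q (-(unif Q ^ (-2 : ℤ) * u)) + 1) := by
    rw [ho]
    have := ge_mul (Q := Q) (x := unif Q ^ (-1 : ℤ)) (y := der u) (m := -1) (n := 0)
      (Or.inr (ord_unif_zpow (-1)).ge) (ge_der_zero hu')
    exact ge_mono this (by norm_num)
  have h3 := ord_add_eq hne h2
  rw [hd]
  exact ⟨h3.1, by rw [h3.2, ho]⟩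

end LR78
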