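import Pool.Agent.LR78.OrdB1

/-!
The derivative in characteristic `p`.
-/

set_option autoImplicit false

namespace LR78

open Polynomial

variable {k : Type} [Field k] {Q : k} {x y : RatFunc k}

variable (p : ℕ) [Fact p.Prime] [Algebra (ZMod p) k]

theorem natCast_p_ratFunc : ((p : ℕ) : RatFunc k) = 0 := by
  have h1 : ((p : ℕ) : k) = 0 := by
    have h : algebraMap (ZMod p) k ((p : ℕ) : ZMod p) = ((p : ℕ) : k) := map_natCast _ p
    rw [← h, ZMod.natCast_self, map_zero]
  have h2 : (RatFunc.C ((p : ℕ) : k) : RatFunc k) = ((p : ℕ) : RatFunc k) := map_natCast _ p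
  rw [← h2, h1, map_zero]

theorem der_frob {n : ℕ} (hn : 1 ≤ n) : der (x ^ p ^ n) = 0 := by
  rw [der_pow]
  have h : ((p ^ n : ℕ) : RatFunc k) = 0 := by
    rw [Nat.cast_pow, natCast_p_ratFunc p, zero_pow (by omega)]
  rw [h, zero_mul, zero_mul]

theorem der_frob_one : der (x ^ p) = 0 := by
  rw [der_pow, natCast_p_ratFunc p, zero_mul, zero_mul]

theorem der_mul_frob {n : ℕ} (hn : 1 ≤ n) : der (x * y ^ p ^ n) = der x * y ^ p ^ n := by
  rw [der_mul, der_frob p hn, mul_zero, add_zero]

theorem der_algebraMap_zmod (c : ZMod p) : der (algebraMap (ZMod p) (RatFunc k) c) = 0 := by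
  have h1 : algebraMap (ZMod p) (RatFunc k) c = ((c.val : ℕ) : RatFunc k) := by
    conv_lhs => rw [← ZMod.natCast_zmod_val c]
    exact map_natCast _ _
  have h2 : (RatFunc.C ((c.val : ℕ) : k) : RatFunc k) = ((c.val : ℕ) : RatFunc k) :=
    map_natCast _ _
  rw [h1, ← h2, der_C]

theorem der_zmod_mul (c : ZMod p) :
    der (algebraMap (ZMod p) (RatFunc k) c * x) = algebraMap (ZMod p) (RatFunc k) c * der x := by
  rw [der_mul, der_algebraMap_zmod, zero_mul, zero_add]

end LR78
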