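import Pool.Agent.LR78.OrdA3

/-!
Counting zeros and poles. `∑ rootMultiplicity ≤ natDegree` (`Polynomial.card_roots'`, `Polynomial.count_roots`),
with equality over an algebraically closed field (`IsAlgClosed.splits`, `Polynomial.splits_iff_card_roots`).
-/

set_option autoImplicit false

namespace LR78

open Polynomial

variable {k : Type} [Field k] {Q : k} {x y : RatFunc k}

private theorem num_or_denom_eq_zero (x : RatFunc k) (Q : k) :
    x.num.rootMultiplicity Q = 0 ∨ x.denom.rootMultiplicity Q = 0 := by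
  by_contra h
  push Not at h
  obtain ⟨h1, h2⟩ := h
  have r1 : x.num.IsRoot Q := (rootMultiplicity_pos'.1 (Nat.pos_of_ne_zero h1)).2
  have r2 : x.denom.IsRoot Q := (rootMultiplicity_pos'.1 (Nat.pos_of_ne_zero h2)).2
  obtain ⟨a, b, hab⟩ := RatFunc.isCoprime_num_denom x
  have := congrArg (Polynomial.eval Q) hab
  simp [r1.eq_zero, r2.eq_zero] at this

private theorem max_ord (x : RatFunc k) (Q : k) :
    max (ord Q x) 0 = (x.num.rootMultiplicity Q : ℤ) := by
  unfold ord
  rcases num_or_denom_eq_zero x Q with h | h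
  · rw [h]; simp
  · rw [h]; simp

private theorem max_neg_ord (x : RatFunc k) (Q : k) :
    max (-ord Q x) 0 = (x.denom.rootMultiplicity Q : ℤ) := by
  unfold ord
  rcases num_or_denom_eq_zero x Q with h | h
  · rw [h]; simp
  · rw [h]; simp

private theorem sum_rootMultiplicity_le (P : k[X]) (S : Finset k) :
    ∑ Q ∈ S, P.rootMultiplicity Q ≤ P.natDegree := by
  classical
  have h1 : ∑ Q ∈ S, P.rootMultiplicity Q ≤ ∑ Q ∈ S ∪ P.roots.toFinset, P.roots.count Q := by
    simp_rw [count_roots]
    exact Finset.sum_le_sum_of_subset Finset.subset_union_left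
  have h2 : ∑ Q ∈ S ∪ P.roots.toFinset, P.roots.count Q = P.roots.card := by
    apply Multiset.sum_count_eq_card
    intro a ha
    exact Finset.mem_union_right _ (Multiset.mem_toFinset.2 ha)
  exact h1.trans (h2.le.trans P.card_roots')

private theorem sum_rootMultiplicity_eq [IsAlgClosed k] (P : k[X]) (S : Finset k)
    (hS : ∀ Q, P.rootMultiplicity Q ≠ 0 → Q ∈ S) :
    ∑ Q ∈ S, P.rootMultiplicity Q = P.natDegree := by
  classical
  have h2 : ∑ Q ∈ S, P.roots.count Q = P.roots.card := by
    apply Multiset.sum_count_eq_card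
    intro a ha
    apply hS
    rw [← count_roots]
    exact Multiset.count_ne_zero.2 ha
  simp_rw [count_roots] at h2
  rw [h2]
  exact (Polynomial.splits_iff_card_roots.1 (IsAlgClosed.splits P))

theorem sum_ord_pos_le (hx : x ≠ 0) (S : Finset k) :
    ∑ Q ∈ S, max (ord Q x) 0 ≤ (x.num.natDegree : ℤ) := by
  simp_rw [max_ord]
  exact_mod_cast sum_rootMultiplicity_le _ _

theorem sum_ord_neg_le (S : Finset k) :
    ∑ Q ∈ S, max (-ord Q x) 0 ≤ (x.denom.natDegree : ℤ) := by
  simp_rw [max_neg_ord]
  exact_mod_cast sum_rootMultiplicity_le _ _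

/-- over an algebraically closed field the poles are counted by the degree of the denominator -/
theorem poles_sum [IsAlgClosed k] (x : RatFunc k) : ∃ S : Finset k,
    (∀ Q, Q ∈ S ↔ ord Q x < 0) ∧ ∑ Q ∈ S, (-ord Q x) = (x.denom.natDegree : ℤ) := by
  classical
  have hmem : ∀ Q, Q ∈ x.denom.roots.toFinset ↔ ord Q x < 0 := by
    intro Q
    rw [Multiset.mem_toFinset, ← Multiset.count_ne_zero, count_roots]
    have := max_neg_ord x Q
    omega
  refine ⟨x.denom.roots.toFinset, hmem, ?_⟩
  have h1 : ∀ Q ∈ x.denom.roots.toFinset, -ord Q x = (x.denom.rootMultiplicity Q : ℤ) := by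
    intro Q hQ
    rw [hmem] at hQ
    have := max_neg_ord x Q
    omega
  rw [Finset.sum_congr rfl h1]
  have := sum_rootMultiplicity_eq x.denom x.denom.roots.toFinset (by
    intro Q hQ
    rw [Multiset.mem_toFinset, ← Multiset.count_ne_zero, count_roots]
    exact hQ)
  exact_mod_cast this

theorem zeros_sum [IsAlgClosed k] (hx : x ≠ 0) : ∃ S : Finset k,
    (∀ Q, Q ∈ S ↔ 0 < ord Q x) ∧ ∑ Q ∈ S, (ord Q x) = (x.num.natDegree : ℤ) := by
  classical
  have hmem : ∀ Q, Q ∈ x.num.roots.toFinset ↔ 0 < ord Q x := by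
    intro Q
    rw [Multiset.mem_toFinset, ← Multiset.count_ne_zero, count_roots]
    have := max_ord x Q
    omega
  refine ⟨x.num.roots.toFinset, hmem, ?_⟩
  have h1 : ∀ Q ∈ x.num.roots.toFinset, ord Q x = (x.num.rootMultiplicity Q : ℤ) := by
    intro Q hQ
    rw [hmem] at hQ
    have := max_ord x Q
    omega
  rw [Finset.sum_congr rfl h1]
  have := sum_rootMultiplicity_eq x.num x.num.roots.toFinset (by
    intro Q hQ
    rw [Multiset.mem_toFinset, ← Multiset.count_ne_zero, count_roots]
    exact hQ)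
  exact_mod_cast this

/-- infinitely many points avoid all poles of a finite list of functions (for existence of
regular points) -/
theorem exists_regular [Infinite k] (l : List (RatFunc k)) : ∃ Q : k, ∀ x ∈ l, ge Q x 0 := by
  classical
  have hP : (l.map RatFunc.denom).prod ≠ 0 := by
    intro h
    rw [List.prod_eq_zero_iff, List.mem_map] at h
    obtain ⟨x, _, hx⟩ := h
    exact x.denom_ne_zero hx
  obtain ⟨Q, hQ⟩ := Infinite.exists_notMem_finset (l.map RatFunc.denom).prod.roots.toFinset
  refine ⟨Q, fun x hx => Or.inr ?_⟩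
  have hdvd : x.denom ∣ (l.map RatFunc.denom).prod :=
    List.dvd_prod (List.mem_map_of_mem hx)
  have h0 : x.denom.rootMultiplicity Q = 0 := by
    by_contra h
    apply hQ
    rw [Multiset.mem_toFinset, mem_roots hP]
    exact (rootMultiplicity_pos'.1 (Nat.pos_of_ne_zero h)).2.dvd hdvd
  unfold ord
  rw [h0]
  simp

end LR78
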