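import Pool.Agent.LR78.OrdC1

/-!
The height `dg x = max (deg num) (deg denom)`.
Hint: for any representation `x = a / b`, `b ≠ 0`, `dg x ≤ max (deg a) (deg b)` (num and denom divide).
-/

set_option autoImplicit false

namespace LR78

open Polynomial

variable {k : Type} [Field k] {Q : k} {x y : RatFunc k}

private theorem dg_zero' : dg (0 : RatFunc k) = 0 := by
  simp [dg]

theorem dg_C (c : k) : dg (RatFunc.C c) = 0 := by
  simp [dg]

theorem dg_neg : dg (-x) = dg x := by
  have key : ∀ x : RatFunc k, dg (-x) ≤ dg x := by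
    intro x
    rcases eq_or_ne x 0 with rfl | hx
    · simp
    have h : -x = algebraMap k[X] (RatFunc k) (-x.num) / algebraMap k[X] (RatFunc k) x.denom := by
      rw [map_neg, neg_div, RatFunc.num_div_denom]
    unfold dg
    apply max_le_max
    · have h1 : (-x).num ∣ -x.num := (RatFunc.num_dvd (neg_ne_zero.2 (RatFunc.num_ne_zero hx))).2
        ⟨_, x.denom_ne_zero, h⟩
      have := natDegree_le_of_dvd h1 (neg_ne_zero.2 (RatFunc.num_ne_zero hx))
      simpa using this
    · have h1 : (-x).denom ∣ x.denom := (RatFunc.denom_dvd x.denom_ne_zero).2 ⟨_, h⟩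
      exact natDegree_le_of_dvd h1 x.denom_ne_zero
  apply le_antisymm (key x)
  have := key (-x)
  rwa [neg_neg] at this

/-- height of a quotient -/
private theorem dg_le_of_eq {a b : k[X]} (hb : b ≠ 0)
    (h : x = algebraMap k[X] (RatFunc k) a / algebraMap k[X] (RatFunc k) b) :
    dg x ≤ max a.natDegree b.natDegree := by
  rcases eq_or_ne a 0 with rfl | ha
  · simp only [map_zero, zero_div] at h
    rw [h, dg_zero']
    exact Nat.zero_le _
  · unfold dg
    apply max_le_max
    · exact natDegree_le_of_dvd ((RatFunc.num_dvd ha).2 ⟨_, hb, h⟩) ha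
    · exact natDegree_le_of_dvd ((RatFunc.denom_dvd hb).2 ⟨_, h⟩) hb

theorem dg_inv : dg (x⁻¹) = dg x := by
  have key : ∀ x : RatFunc k, dg (x⁻¹) ≤ dg x := by
    intro x
    rcases eq_or_ne x 0 with rfl | hx
    · simp
    have h : x⁻¹ = algebraMap k[X] (RatFunc k) x.denom / algebraMap k[X] (RatFunc k) x.num := by
      rw [← inv_div, RatFunc.num_div_denom]
    have := dg_le_of_eq (RatFunc.num_ne_zero hx) h
    rw [max_comm] at this
    exact this
  apply le_antisymm (key x)
  have := key (x⁻¹)
  rwa [inv_inv] at this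

theorem dg_mul_le : dg (x * y) ≤ dg x + dg y := by
  have h : x * y = algebraMap k[X] (RatFunc k) (x.num * y.num) /
      algebraMap k[X] (RatFunc k) (x.denom * y.denom) := by
    rw [map_mul, map_mul, mul_div_mul_comm, RatFunc.num_div_denom, RatFunc.num_div_denom]
  refine (dg_le_of_eq (mul_ne_zero x.denom_ne_zero y.denom_ne_zero) h).trans ?_
  apply max_le
  · exact natDegree_mul_le.trans (add_le_add (le_max_left _ _) (le_max_left _ _))
  · exact natDegree_mul_le.trans (add_le_add (le_max_right _ _) (le_max_right _ _))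

theorem dg_div_le : dg (x / y) ≤ dg x + dg y := by
  rw [div_eq_mul_inv]
  refine dg_mul_le.trans ?_
  rw [dg_inv]

theorem dg_add_le : dg (x + y) ≤ dg x + dg y := by
  have hx' : algebraMap k[X] (RatFunc k) x.denom ≠ 0 := by
    simpa using x.denom_ne_zero
  have hy' : algebraMap k[X] (RatFunc k) y.denom ≠ 0 := by
    simpa using y.denom_ne_zero
  have h : x + y = algebraMap k[X] (RatFunc k) (x.num * y.denom + x.denom * y.num) /
      algebraMap k[X] (RatFunc k) (x.denom * y.denom) := by
    rw [map_add, map_mul, map_mul, map_mul, ← div_add_div _ _ hx' hy', RatFunc.num_div_denom,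
      RatFunc.num_div_denom]
  refine (dg_le_of_eq (mul_ne_zero x.denom_ne_zero y.denom_ne_zero) h).trans ?_
  apply max_le
  · refine (natDegree_add_le _ _).trans (max_le ?_ ?_)
    · exact natDegree_mul_le.trans (add_le_add (le_max_left _ _) (le_max_right _ _))
    · exact natDegree_mul_le.trans (add_le_add (le_max_right _ _) (le_max_left _ _))
  · exact natDegree_mul_le.trans (add_le_add (le_max_right _ _) (le_max_right _ _))

theorem dg_sub_le : dg (x - y) ≤ dg x + dg y := by
  rw [sub_eq_add_neg]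
  refine dg_add_le.trans ?_
  rw [dg_neg]

private theorem num_denom_pow (n : ℕ) :
    ∃ u : k[X], IsUnit u ∧ (x ^ n).num * u = x.num ^ n ∧ (x ^ n).denom * u = x.denom ^ n := by
  have hc : IsCoprime (x.num ^ n) (x.denom ^ n) := (RatFunc.isCoprime_num_denom x).pow
  have hb : x.denom ^ n ≠ 0 := pow_ne_zero _ x.denom_ne_zero
  have h : x ^ n = algebraMap k[X] (RatFunc k) (x.num ^ n) /
      algebraMap k[X] (RatFunc k) (x.denom ^ n) := by
    rw [map_pow, map_pow, ← div_pow, RatFunc.num_div_denom]
  obtain ⟨u, hu⟩ := (RatFunc.denom_dvd hb).2 ⟨_, h⟩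
  have h2 : (x ^ n).num * x.denom ^ n = x.num ^ n * (x ^ n).denom :=
    (RatFunc.num_mul_eq_mul_denom_iff hb).2 h
  have h3 : (x ^ n).num * u = x.num ^ n := by
    apply mul_right_cancel₀ (RatFunc.denom_ne_zero (x ^ n))
    rw [← h2, hu]; ring
  refine ⟨u, ?_, h3, hu.symm⟩
  apply hc.isUnit_of_dvd'
  · exact ⟨_, by rw [← h3, mul_comm]⟩
  · exact ⟨_, by rw [hu, mul_comm]⟩

theorem dg_pow (n : ℕ) : dg (x ^ n) = n * dg x := by
  obtain ⟨u, hu, h1, h2⟩ := num_denom_pow (x := x) n
  have hu0 : u ≠ 0 := hu.ne_zero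
  have hud : u.natDegree = 0 := natDegree_eq_zero_of_isUnit hu
  have h3 : (x ^ n).denom.natDegree = n * x.denom.natDegree := by
    have := congrArg natDegree h2
    rw [natDegree_mul (RatFunc.denom_ne_zero _) hu0, natDegree_pow, hud] at this
    simpa using this
  have h4 : (x ^ n).num.natDegree = n * x.num.natDegree := by
    rcases eq_or_ne (x ^ n).num 0 with h0 | h0
    · rw [h0, zero_mul] at h1
      rw [h0, ← natDegree_pow, ← h1]
    · have := congrArg natDegree h1
      rw [natDegree_mul h0 hu0, natDegree_pow, hud] at this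
      simpa using this
  unfold dg
  rw [h3, h4]
  exact (Nat.mul_max_mul_left n _ _)

/-- height of `x^p - x` -/
theorem dg_pow_sub_le (n : ℕ) (hn : 1 ≤ n) : dg (x ^ n - x) ≤ n * dg x := by
  have hb : x.denom ^ n ≠ 0 := pow_ne_zero _ x.denom_ne_zero
  have hx' : algebraMap k[X] (RatFunc k) x.denom ≠ 0 := by
    simpa using x.denom_ne_zero
  have h : x ^ n - x = algebraMap k[X] (RatFunc k) (x.num ^ n - x.num * x.denom ^ (n - 1)) /
      algebraMap k[X] (RatFunc k) (x.denom ^ n) := by
    obtain ⟨m, rfl⟩ : ∃ m, n = m + 1 := ⟨n - 1, by omega⟩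
    rw [eq_div_iff (by rw [map_pow]; exact pow_ne_zero _ hx')]
    have hx : x * algebraMap k[X] (RatFunc k) x.denom = algebraMap k[X] (RatFunc k) x.num := by
      conv_lhs => rw [← RatFunc.num_div_denom x]
      rw [RatFunc.num_div_denom x]
      rw [← eq_div_iff hx', RatFunc.num_div_denom]
    simp only [map_sub, map_mul, map_pow, Nat.add_sub_cancel]
    rw [← hx]
    ring
  refine (dg_le_of_eq hb h).trans ?_
  have e1 : (x.num ^ n).natDegree ≤ n * dg x := by
    rw [natDegree_pow]
    exact Nat.mul_le_mul_left _ (le_max_left _ _)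
  have e2 : (x.denom ^ n).natDegree ≤ n * dg x := by
    rw [natDegree_pow]
    exact Nat.mul_le_mul_left _ (le_max_right _ _)
  have e3 : (x.num * x.denom ^ (n - 1)).natDegree ≤ n * dg x := by
    refine natDegree_mul_le.trans ?_
    rw [natDegree_pow]
    calc x.num.natDegree + (n - 1) * x.denom.natDegree ≤ dg x + (n - 1) * dg x :=
          add_le_add (le_max_left _ _) (Nat.mul_le_mul_left _ (le_max_right _ _))
      _ = n * dg x := by
          obtain ⟨m, rfl⟩ : ∃ m, n = m + 1 := ⟨n - 1, by omega⟩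
          simp; ring
  exact max_le ((natDegree_sub_le _ _).trans (max_le e1 e3)) e2

theorem dg_eq_of_regInf (h : regInf x) : dg x = x.denom.natDegree := by
  exact max_eq_right h

theorem denom_natDegree_le_dg : x.denom.natDegree ≤ dg x := le_max_right _ _

theorem num_natDegree_le_dg : x.num.natDegree ≤ dg x := le_max_left _ _

/-- if `x` vanishes to order `≥ L` at all points of `A` and `#A * L > dg x` then `x = 0` -/
theorem eq_zero_of_ge (A : Finset k) (L : ℕ) (h : ∀ Q ∈ A, ge Q x L) (hL : dg x < A.card * L) :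
    x = 0 := by
  by_contra hx
  have h1 : ∑ Q ∈ A, (L : ℤ) ≤ ∑ Q ∈ A, max (ord Q x) 0 := by
    apply Finset.sum_le_sum
    intro Q hQ
    exact ((ge_iff hx).1 (h Q hQ)).trans (le_max_left _ _)
  have h2 := h1.trans (sum_ord_pos_le hx A)
  rw [Finset.sum_const, nsmul_eq_mul] at h2
  have h3 : (x.num.natDegree : ℤ) ≤ (dg x : ℤ) := by exact_mod_cast num_natDegree_le_dg
  have h4 : (dg x : ℤ) < (A.card : ℤ) * L := by exact_mod_cast hL
  omega

end LR78
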