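import Pool.Agent.LR78.OrdC2
import Pool.Agent.LR78.OrdB2

/-!
The degree of `der x`. With `x = A/B` in lowest terms, `der x = w/B^2`, `w = A'B - AB'`,
`deg w ≤ deg A + deg B - 1`.
-/

set_option autoImplicit false

namespace LR78

open Polynomial

variable {k : Type} [Field k] {Q : k} {x y : RatFunc k}

/-- the degree of `dx` on the affine line: with `x = A/B` (`deg A ≤ deg B`) one has
`der x = w/B^2`, `w = A'B - AB'`, `deg w ≤ 2 deg B - 1` -/
theorem sum_ord_der_le [IsAlgClosed k] (hreg : regInf x) (hd : der x ≠ 0) (S : Finset k)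
    (hS : ∀ Q, ord Q x < 0 → Q ∈ S) : ∑ Q ∈ S, ord Q (der x) ≤ -1 := by
  classical
  set A := x.num with hA
  set B := x.denom with hB
  set w := derivative A * B - A * derivative B with hw
  have hB0 : B ≠ 0 := x.denom_ne_zero
  have hder : der x = algebraMap k[X] (RatFunc k) w / algebraMap k[X] (RatFunc k) (B ^ 2) := rfl
  have hw0 : w ≠ 0 := by
    intro h
    apply hd
    rw [hder, h]; simp
  have hord : ∀ Q, ord Q (der x) = (w.rootMultiplicity Q : ℤ) - 2 * (B.rootMultiplicity Q : ℤ) := by
    intro Q
    rw [hder, ord_div_algebraMap hw0 (pow_ne_zero _ hB0)]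
    have : (B ^ 2).rootMultiplicity Q = 2 * B.rootMultiplicity Q := by
      rw [sq, rootMultiplicity_mul (mul_ne_zero hB0 hB0)]; ring
    rw [this]; push_cast; ring
  have hBdeg : 1 ≤ B.natDegree := by
    by_contra h
    have hB1 : B.natDegree = 0 := by omega
    have hA1 : A.natDegree = 0 := by
      have : A.natDegree ≤ B.natDegree := hreg
      omega
    apply hw0
    rw [hw, eq_C_of_natDegree_eq_zero hB1, eq_C_of_natDegree_eq_zero hA1]
    simp
  have hAB : A.natDegree ≤ B.natDegree := hreg
  have hwdeg : w.natDegree ≤ 2 * B.natDegree - 1 := by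
    refine (natDegree_sub_le _ _).trans (max_le ?_ ?_)
    · rcases Nat.eq_zero_or_pos A.natDegree with h0 | h0
      · rw [eq_C_of_natDegree_eq_zero h0]; simp
      · refine natDegree_mul_le.trans ?_
        have := natDegree_derivative_lt (p := A) (by omega)
        omega
    · refine natDegree_mul_le.trans ?_
      have := natDegree_derivative_lt (p := B) (by omega)
      omega
  have h1 : ∑ Q ∈ S, w.rootMultiplicity Q ≤ w.natDegree := by
    have h2 : ∑ Q ∈ S, w.rootMultiplicity Q ≤ ∑ Q ∈ S ∪ w.roots.toFinset, w.roots.count Q := by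
      simp_rw [count_roots]
      exact Finset.sum_le_sum_of_subset Finset.subset_union_left
    have h3 : ∑ Q ∈ S ∪ w.roots.toFinset, w.roots.count Q = w.roots.card := by
      apply Multiset.sum_count_eq_card
      intro a ha
      exact Finset.mem_union_right _ (Multiset.mem_toFinset.2 ha)
    exact h2.trans (h3.le.trans w.card_roots')
  have h2 : ∑ Q ∈ S, B.rootMultiplicity Q = B.natDegree := by
    have h3 : ∑ Q ∈ S, B.roots.count Q = B.roots.card := by
      apply Multiset.sum_count_eq_card
      intro Q ha
      apply hS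
      have hr : B.IsRoot Q := (mem_roots hB0).1 ha
      have hBm : 0 < B.rootMultiplicity Q := (rootMultiplicity_pos hB0).2 hr
      have hAm : A.rootMultiplicity Q = 0 := by
        by_contra h
        have r1 : A.IsRoot Q := (rootMultiplicity_pos'.1 (Nat.pos_of_ne_zero h)).2
        obtain ⟨a, b, hab⟩ := RatFunc.isCoprime_num_denom x
        have := congrArg (Polynomial.eval Q) hab
        rw [← hA, ← hB] at this
        simp [r1.eq_zero, hr.eq_zero] at this
      unfold ord
      rw [← hA, ← hB, hAm]
      omega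
    simp_rw [count_roots] at h3
    rw [h3]
    exact (Polynomial.splits_iff_card_roots.1 (IsAlgClosed.splits B))
  have h4 : ∑ Q ∈ S, ord Q (der x) =
      ((∑ Q ∈ S, w.rootMultiplicity Q : ℕ) : ℤ) - 2 * ((∑ Q ∈ S, B.rootMultiplicity Q : ℕ) : ℤ) := by
    rw [Finset.sum_congr rfl (fun Q _ => hord Q), Finset.sum_sub_distrib, ← Finset.mul_sum]
    push_cast
    rfl
  rw [h4, h2]
  omega

theorem dg_der_le : dg (der x) ≤ 2 * dg x := by
  set A := x.num with hA
  set B := x.denom with hB
  have hB0 : B ≠ 0 := x.denom_ne_zero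
  have hder : der x = algebraMap k[X] (RatFunc k) (derivative A * B - A * derivative B) /
    algebraMap k[X] (RatFunc k) (B ^ 2) := rfl
  have hA1 : A.natDegree ≤ dg x := le_max_left _ _
  have hB1 : B.natDegree ≤ dg x := le_max_right _ _
  rcases eq_or_ne (der x) 0 with h0 | h0
  · rw [h0]; simp [dg]
  have hw0 : derivative A * B - A * derivative B ≠ 0 := by
    intro h
    apply h0
    rw [hder, h]; simp
  have hB2 : B ^ 2 ≠ 0 := pow_ne_zero _ hB0
  unfold dg
  apply max_le
  · refine (natDegree_le_of_dvd ((RatFunc.num_dvd hw0).2 ⟨_, hB2, hder⟩) hw0).trans ?_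
    refine (natDegree_sub_le _ _).trans (max_le ?_ ?_)
    · refine natDegree_mul_le.trans ?_
      have := natDegree_derivative_le A
      change _ ≤ 2 * dg x
      omega
    · refine natDegree_mul_le.trans ?_
      have := natDegree_derivative_le B
      change _ ≤ 2 * dg x
      omega
  · refine (natDegree_le_of_dvd ((RatFunc.denom_dvd hB2).2 ⟨_, hder⟩) hB2).trans ?_
    rw [natDegree_pow]
    change _ ≤ 2 * dg x
    omega

end LR78
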