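import Pool.Agent.LR78.Defs

/-!
Regularity at infinity (`regInf x ↔ x = 0 ∨ x.intDegree ≤ 0`, see `RatFunc.intDegree`), denominators.
-/

set_option autoImplicit false

namespace LR78

open Polynomial

variable {k : Type} [Field k] {Q : k} {x y : RatFunc k}

theorem c4_regInf_iff : regInf x ↔ x.intDegree ≤ 0 := by
  unfold regInf RatFunc.intDegree
  omega

/-- regularity at infinity is closed under the ring operations -/
theorem regInf_C (c : k) : regInf (RatFunc.C c) := by
  rw [c4_regInf_iff, RatFunc.intDegree_C]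

theorem regInf_add (hx : regInf x) (hy : regInf y) : regInf (x + y) := by
  rw [c4_regInf_iff] at *
  by_cases hy0 : y = 0
  · simpa [hy0] using hx
  by_cases hxy : x + y = 0
  · rw [hxy, RatFunc.intDegree_zero]
  · exact (RatFunc.intDegree_add_le hy0 hxy).trans (max_le hx hy)

theorem regInf_neg (hx : regInf x) : regInf (-x) := by
  rw [c4_regInf_iff] at *
  rwa [RatFunc.intDegree_neg]

theorem regInf_mul (hx : regInf x) (hy : regInf y) : regInf (x * y) := by
  by_cases hx0 : x = 0
  · simpa [hx0] using hx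
  by_cases hy0 : y = 0
  · simpa [hy0] using hy
  rw [c4_regInf_iff] at *
  rw [RatFunc.intDegree_mul hx0 hy0]
  omega

theorem c4_intDegree_pow (n : ℕ) : (x ^ n).intDegree = n * x.intDegree := by
  by_cases hx0 : x = 0
  · subst hx0
    rcases n with _ | n
    · simp
    · simp
  induction n with
  | zero => simp
  | succ n ih =>
    rw [pow_succ, RatFunc.intDegree_mul (pow_ne_zero _ hx0) hx0, ih]
    push_cast
    ring

theorem regInf_pow_iff {n : ℕ} (hn : 1 ≤ n) : regInf (x ^ n) ↔ regInf x := by
  rw [c4_regInf_iff, c4_regInf_iff, c4_intDegree_pow]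
  have h : (0 : ℤ) < n := by exact_mod_cast hn
  constructor
  · intro h1
    by_contra h2
    nlinarith
  · intro h1
    nlinarith

/-- `x.denom` of a sum, in degree -/
theorem denom_natDegree_add_le :
    (x + y).denom.natDegree ≤ x.denom.natDegree + y.denom.natDegree := by
  refine (natDegree_le_of_dvd (RatFunc.denom_add_dvd x y)
    (mul_ne_zero (RatFunc.denom_ne_zero x) (RatFunc.denom_ne_zero y))).trans ?_
  exact natDegree_mul_le

theorem denom_pow (n : ℕ) : (x ^ n).denom = x.denom ^ n := by
  have hd : x.denom ^ n ≠ 0 := pow_ne_zero _ (RatFunc.denom_ne_zero x)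
  have hx : x ^ n = algebraMap k[X] (RatFunc k) (x.num ^ n) /
      algebraMap k[X] (RatFunc k) (x.denom ^ n) := by
    conv_lhs => rw [← RatFunc.num_div_denom x]
    rw [div_pow, map_pow, map_pow]
  have h1 : (x ^ n).denom ∣ x.denom ^ n := by
    rw [RatFunc.denom_dvd hd]
    exact ⟨_, hx⟩
  have h2 : (x ^ n).num * x.denom ^ n = x.num ^ n * (x ^ n).denom :=
    (RatFunc.num_mul_eq_mul_denom_iff hd).2 hx
  have h3 : x.denom ^ n ∣ (x ^ n).denom := by
    have hc : IsCoprime (x.denom ^ n) (x.num ^ n) :=
      (RatFunc.isCoprime_num_denom x).symm.pow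
    refine hc.dvd_of_dvd_mul_left ?_
    rw [← h2]
    exact dvd_mul_left _ _
  exact Polynomial.eq_of_dvd_of_natDegree_le_of_leadingCoeff h1
    (natDegree_le_of_dvd h3 (RatFunc.denom_ne_zero _))
    (by rw [(RatFunc.monic_denom _).leadingCoeff, ((RatFunc.monic_denom x).pow n).leadingCoeff])

end LR78
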