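import Pool.Agent.LR78.Defs

/-!
Frobenius and Artin-Schreier classes in a commutative ring `K` of characteristic `p`
(for a trivial ring everything is trivial; otherwise `CharP K p`, e.g. `charP_of_injective_algebraMap`, `add_pow_char_pow`).
-/

set_option autoImplicit false

namespace LR78

open Polynomial

variable (p : ℕ) [Fact p.Prime] {K : Type} [CommRing K] [Algebra (ZMod p) K] {x y : K}

theorem cases_charP (K : Type) [CommRing K] [Algebra (ZMod p) K] :
    Subsingleton K ∨ CharP K p := by
  rcases subsingleton_or_nontrivial K with h | h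
  · exact Or.inl h
  · exact Or.inr (charP_of_injective_algebraMap (algebraMap (ZMod p) K).injective p)

theorem frob_add (n : ℕ) : (x + y) ^ p ^ n = x ^ p ^ n + y ^ p ^ n := by
  rcases cases_charP p K with h | h
  · exact Subsingleton.elim _ _
  · exact add_pow_char_pow x y p n

theorem frob_sub (n : ℕ) : (x - y) ^ p ^ n = x ^ p ^ n - y ^ p ^ n := by
  rcases cases_charP p K with h | h
  · exact Subsingleton.elim _ _
  · exact sub_pow_char_pow x y n

theorem frob_zmod (c : ZMod p) (n : ℕ) :
    (algebraMap (ZMod p) K c) ^ p ^ n = algebraMap (ZMod p) K c := by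
  rw [← map_pow, ZMod.pow_card_pow]

theorem asr_zero : asr p (0 : K) := by
  refine ⟨0, ?_⟩
  rw [zero_pow (Fact.out : p.Prime).ne_zero, sub_zero]

theorem asr_add (hx : asr p x) (hy : asr p y) : asr p (x + y) := by
  obtain ⟨v, rfl⟩ := hx
  obtain ⟨w, rfl⟩ := hy
  refine ⟨v + w, ?_⟩
  have h := frob_add p (x := v) (y := w) 1
  rw [pow_one] at h
  rw [h]
  ring

theorem asr_zmod_mul (c : ZMod p) (hx : asr p x) : asr p (algebraMap (ZMod p) K c * x) := by
  obtain ⟨v, rfl⟩ := hx
  refine ⟨algebraMap (ZMod p) K c * v, ?_⟩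
  have h := frob_zmod p (K := K) c 1
  rw [pow_one] at h
  rw [mul_pow, h]
  ring

theorem asr_neg (hx : asr p x) : asr p (-x) := by
  have h := asr_zmod_mul p (-1) hx
  rwa [map_neg, map_one, neg_one_mul] at h

theorem asr_sub (hx : asr p x) (hy : asr p y) : asr p (x - y) := by
  rw [sub_eq_add_neg]
  exact asr_add p hx (asr_neg p hy)

theorem asr_sum {ι : Type} (s : Finset ι) (F : ι → K) (h : ∀ i ∈ s, asr p (F i)) :
    asr p (∑ i ∈ s, F i) :=
  Finset.sum_induction F (asr p) (fun _ _ => asr_add p) (asr_zero p) h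

/-- `F^n x - x = (F - 1)(x + F x + ... + F^(n-1) x)` -/
theorem asr_frob_sub (n : ℕ) (x : K) : asr p (x ^ p ^ n - x) := by
  induction n with
  | zero => simpa using asr_zero p (K := K)
  | succ n ih =>
    have h1 : asr p (x ^ p ^ (n + 1) - x ^ p ^ n) := ⟨x ^ p ^ n, by rw [pow_succ, pow_mul]⟩
    have h2 := asr_add p h1 ih
    rwa [sub_add_sub_cancel] at h2

theorem asr_frob_iff (n : ℕ) : asr p (x ^ p ^ n) ↔ asr p x := by
  constructor
  · intro h
    have h2 := asr_sub p h (asr_frob_sub p n x)
    rwa [sub_sub_cancel] at h2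
  · intro h
    have h2 := asr_add p (asr_frob_sub p n x) h
    rwa [sub_add_cancel] at h2

end LR78
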