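import Pool.Agent.LR78.OrdC2
import Pool.Agent.LR78.OrdC4
import Pool.Agent.LR78.OrdB2
import Pool.Agent.LR78.OrdB3
import Pool.Agent.LR78.OrdD1

/-!
`p`-th powers in `RatFunc k`. `der x = 0` gives `num' denom = num denom'`, so by coprimality `num' = 0`, `denom' = 0`,
and both are `p`-th powers (`k` perfect; `Polynomial.expand`, `Polynomial.contract`). `exists_sep`: induction on `dg x`.
-/

set_option autoImplicit false

namespace LR78

open Polynomial

variable (p : ℕ) [Fact p.Prime] {k : Type} [Field k] [Algebra (ZMod p) k] {Q : k}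
  {x y : RatFunc k}

private theorem poly_pow_of_derivative_eq_zero [IsAlgClosed k] {f : k[X]}
    (hf : derivative f = 0) : ∃ g : k[X], f = g ^ p := by
  have : CharP k p := charP_of_injective_algebraMap (algebraMap (ZMod p) k).injective p
  have : ExpChar k p := ExpChar.prime Fact.out
  have : PerfectRing k p := PerfectField.toPerfectRing p
  refine ⟨(contract p f).map ((frobeniusEquiv k p).symm : k →+* k), ?_⟩
  rw [← map_frobenius_expand, ← map_expand, Polynomial.map_map]
  have h1 : (frobenius k p).comp ((frobeniusEquiv k p).symm : k →+* k) = RingHom.id k := by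
    ext c
    exact (frobeniusEquiv k p).apply_symm_apply c
  rw [h1, Polynomial.map_id]
  exact (expand_contract p hf (Fact.out : p.Prime).ne_zero).symm

private theorem eq_zero_of_dvd_derivative {f g : k[X]} (hc : IsCoprime f g)
    (h : derivative f * g = f * derivative g) : derivative f = 0 := by
  rw [← dvd_derivative_iff]
  refine hc.dvd_of_dvd_mul_right ?_
  rw [h]
  exact Dvd.intro _ rfl

theorem exists_pow_of_der_eq_zero [IsAlgClosed k] (h : der x = 0) : ∃ y : RatFunc k, x = y ^ p := by
  have hden : algebraMap k[X] (RatFunc k) (x.denom ^ 2) ≠ 0 := by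
    intro h0
    have := (map_eq_zero_iff _ (RatFunc.algebraMap_injective k)).mp h0
    exact pow_ne_zero 2 (RatFunc.denom_ne_zero x) this
  unfold der at h
  rw [div_eq_zero_iff, or_iff_left hden, map_eq_zero_iff _ (RatFunc.algebraMap_injective k),
    sub_eq_zero] at h
  have hc := RatFunc.isCoprime_num_denom x
  have h1 : derivative x.num = 0 := eq_zero_of_dvd_derivative hc h
  have h2 : derivative x.denom = 0 := by
    refine eq_zero_of_dvd_derivative hc.symm ?_
    rw [mul_comm (derivative x.denom), ← h, mul_comm]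
  obtain ⟨a, ha⟩ := poly_pow_of_derivative_eq_zero p h1
  obtain ⟨b, hb⟩ := poly_pow_of_derivative_eq_zero p h2
  refine ⟨algebraMap k[X] (RatFunc k) a / algebraMap k[X] (RatFunc k) b, ?_⟩
  rw [div_pow, ← map_pow, ← map_pow, ← ha, ← hb]
  exact (RatFunc.num_div_denom x).symm

private theorem eq_C_of_dg_eq_zero (h : dg x = 0) : ∃ c : k, x = RatFunc.C c := by
  have h1 : x.num.natDegree = 0 := Nat.le_zero.mp ((le_max_left _ _).trans h.le)
  have h2 : x.denom.natDegree = 0 := Nat.le_zero.mp ((le_max_right _ _).trans h.le)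
  refine ⟨x.num.coeff 0, ?_⟩
  have h3 : x.denom = 1 := (RatFunc.monic_denom x).natDegree_eq_zero.mp h2
  have h4 : x.num = C (x.num.coeff 0) := eq_C_of_natDegree_eq_zero h1
  have h5 := RatFunc.num_div_denom x
  rw [h3, map_one, div_one] at h5
  rw [← RatFunc.algebraMap_C, ← h4, h5]

/-- every nonconstant function is `F^j` of one with nonzero derivative -/
theorem exists_sep [IsAlgClosed k] (h : ∀ c : k, x ≠ RatFunc.C c) :
    ∃ (j : ℕ) (y : RatFunc k), x = y ^ p ^ j ∧ der y ≠ 0 := by
  have hp2 : 2 ≤ p := (Fact.out : p.Prime).two_le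
  induction hn : dg x using Nat.strong_induction_on generalizing x with
  | _ n ih =>
    by_cases hd : der x = 0
    · obtain ⟨y, hy⟩ := exists_pow_of_der_eq_zero p hd
      have h1 : dg x = p * dg y := by rw [hy, dg_pow]
      have hx0 : dg x ≠ 0 := by
        intro h0
        obtain ⟨c, hc⟩ := eq_C_of_dg_eq_zero h0
        exact h c hc
      have hlt : dg y < n := by
        rw [← hn, h1]
        have : dg y ≠ 0 := by
          intro h0
          rw [h0, mul_zero] at h1
          exact hx0 h1
        have : 0 < dg y := Nat.pos_of_ne_zero this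
        nlinarith
      obtain ⟨j, z, hz, hdz⟩ := ih (dg y) hlt (x := y) (by
        intro c hc
        refine h (c ^ p) ?_
        rw [hy, hc, map_pow]) rfl
      refine ⟨j + 1, z, ?_, hdz⟩
      rw [hy, hz, ← pow_mul, pow_succ]
    · exact ⟨0, x, by rw [pow_zero, pow_one], hd⟩

theorem fix_frob (h : x ^ p = x) : ∃ c : ZMod p, x = algebraMap (ZMod p) (RatFunc k) c := by
  have : CharP (RatFunc k) p :=
    charP_of_injective_algebraMap (algebraMap (ZMod p) (RatFunc k)).injective p
  have h1 : x ∈ (⊥ : Subfield (RatFunc k)) := (Subfield.mem_bot_iff_pow_eq_self _ p).mpr h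
  obtain ⟨n, hn⟩ := (mem_bot_iff_intCast p (RatFunc k)).mp h1
  refine ⟨(n : ZMod p), ?_⟩
  rw [map_intCast, hn]

theorem frob_injective {n : ℕ} (h : x ^ p ^ n = y ^ p ^ n) : x = y := by
  have h1 : (x - y) ^ p ^ n = 0 := by rw [frob_sub p n, h, sub_self]
  exact sub_eq_zero.mp ((pow_eq_zero_iff (pow_pos (Fact.out : p.Prime).pos n).ne').mp h1)

theorem algebraMap_zmod_eq_C (c : ZMod p) :
    algebraMap (ZMod p) (RatFunc k) c = RatFunc.C (algebraMap (ZMod p) k c) := by
  have h : algebraMap (ZMod p) (RatFunc k) = (RatFunc.C : k →+* RatFunc k).comp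
      (algebraMap (ZMod p) k) := Subsingleton.elim _ _
  rw [h]
  rfl

end LR78
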