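import Pool.Agent.LR78.OrdD2
import Pool.Agent.LR78.OrdA3

/-!
Orders of `act p P x`.
-/

set_option autoImplicit false

namespace LR78

open Polynomial

variable (p : ℕ) [Fact p.Prime] {k : Type} [Field k] [Algebra (ZMod p) k] {Q : k}
  {x y : RatFunc k}

theorem algebraMap_zmod_eq_C (c : ZMod p) :
    algebraMap (ZMod p) (RatFunc k) c = RatFunc.C (algebraMap (ZMod p) k c) := by
  have h : algebraMap (ZMod p) (RatFunc k) =
      (RatFunc.C : k →+* RatFunc k).comp (algebraMap (ZMod p) k) := Subsingleton.elim _ _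
  rw [h]
  rfl

theorem ge_zmod_mul {n : ℤ} (c : ZMod p) (h : ge Q x n) :
    ge Q (algebraMap (ZMod p) (RatFunc k) c * x) n := by
  rw [algebraMap_zmod_eq_C]
  have := ge_mul (ge_C (Q := Q) (algebraMap (ZMod p) k c)) h
  rwa [zero_add] at this

theorem ord_zmod_mul {c : ZMod p} (hc : c ≠ 0) :
    ord Q (algebraMap (ZMod p) (RatFunc k) c * x) = ord Q x := by
  by_cases hx : x = 0
  · rw [hx, mul_zero]
  rw [algebraMap_zmod_eq_C]
  have h1 : (algebraMap (ZMod p) k c) ≠ 0 := by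
    intro h
    exact hc ((algebraMap (ZMod p) k).injective (by rw [h, map_zero]))
  have h2 : (RatFunc.C (algebraMap (ZMod p) k c) : RatFunc k) ≠ 0 := by
    intro h
    exact h1 ((RatFunc.C : k →+* RatFunc k).injective (by rw [h, map_zero]))
  rw [ord_mul h2 hx, ord_C, zero_add]

theorem ge_act {P : (ZMod p)[X]} (h : ge Q x 0) : ge Q (act p P x) 0 := by
  unfold act
  rw [Polynomial.sum_def]
  refine ge_sum _ _ fun j _ => ge_zmod_mul p _ ?_
  have := ge_pow h (p ^ j)
  rwa [mul_zero] at this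

/-- weak bound for the pole order of `P(F) x`, coefficients of `P` vanish from `d + 1` on -/
theorem ge_act_pole {P : (ZMod p)[X]} {d e : ℕ} (hd : ∀ j, d < j → P.coeff j = 0)
    (h : ge Q x (-(e : ℤ))) : ge Q (act p P x) (-((e * p ^ d : ℕ) : ℤ)) := by
  unfold act
  rw [Polynomial.sum_def]
  refine ge_sum _ _ fun j hj => ge_zmod_mul p _ ?_
  have hjd : j ≤ d := by
    by_contra hlt
    exact (Polynomial.mem_support_iff.1 hj) (hd j (by omega))
  refine ge_mono (ge_pow h (p ^ j)) ?_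
  have h1 : e * p ^ j ≤ e * p ^ d :=
    Nat.mul_le_mul_left _ (Nat.pow_le_pow_right (Fact.out : p.Prime).pos hjd)
  have h2 : ((e * p ^ j : ℕ) : ℤ) ≤ ((e * p ^ d : ℕ) : ℤ) := by exact_mod_cast h1
  have h3 : ((p ^ j : ℕ) : ℤ) * (-(e : ℤ)) = -((e * p ^ j : ℕ) : ℤ) := by
    push_cast
    ring
  rw [h3]
  linarith

/-- exact pole order of `P(F) x` -/
theorem ord_act {P : (ZMod p)[X]} (hP : P ≠ 0) {e : ℕ} (he : 1 ≤ e) (h : ord Q x = -(e : ℤ)) :
    act p P x ≠ 0 ∧ ord Q (act p P x) = -((e * p ^ P.natDegree : ℕ) : ℤ) := by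
  have hp : p.Prime := Fact.out
  have hx : x ≠ 0 := by
    intro h0
    rw [h0, ord_zero] at h
    omega
  have hlc : P.coeff P.natDegree ≠ 0 := by
    rw [Polynomial.coeff_natDegree]
    exact Polynomial.leadingCoeff_ne_zero.2 hP
  set N := P.natDegree with hN
  set L : RatFunc k := algebraMap (ZMod p) (RatFunc k) (P.coeff N) * x ^ p ^ N with hL
  have hL1 : ord Q L = -((e * p ^ N : ℕ) : ℤ) := by
    rw [hL, ord_zmod_mul p hlc, ord_pow, h]
    push_cast
    ring
  have hL0 : L ≠ 0 := by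
    intro h0
    rw [h0, ord_zero] at hL1
    have : 0 < e * p ^ N := Nat.mul_pos he (pow_pos hp.pos N)
    omega
  have hsum : act p P x = L + ∑ j ∈ P.support.erase N,
      algebraMap (ZMod p) (RatFunc k) (P.coeff j) * x ^ p ^ j := by
    unfold act
    rw [Polynomial.sum_def, ← Finset.add_sum_erase P.support _
      (Polynomial.mem_support_iff.2 hlc)]
  have hrest : ge Q (∑ j ∈ P.support.erase N,
      algebraMap (ZMod p) (RatFunc k) (P.coeff j) * x ^ p ^ j) (ord Q L + 1) := by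
    refine ge_sum _ _ fun j hj => ge_zmod_mul p _ ?_
    rw [Finset.mem_erase] at hj
    have hjN : j < N := lt_of_le_of_ne (Polynomial.le_natDegree_of_mem_supp j hj.2) hj.1
    have hge : ge Q x (-(e : ℤ)) := Or.inr (by rw [h])
    refine ge_mono (ge_pow hge (p ^ j)) ?_
    rw [hL1]
    have h1 : p ^ j < p ^ N := Nat.pow_lt_pow_right hp.one_lt hjN
    have h2 : e * p ^ j < e * p ^ N := Nat.mul_lt_mul_of_pos_left h1 he
    have h3 : ((e * p ^ j : ℕ) : ℤ) < ((e * p ^ N : ℕ) : ℤ) := by exact_mod_cast h2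
    have h4 : ((p ^ j : ℕ) : ℤ) * (-(e : ℤ)) = -((e * p ^ j : ℕ) : ℤ) := by
      push_cast
      ring
    rw [h4]
    omega
  obtain ⟨h5, h6⟩ := ord_add_eq hL0 hrest
  rw [hsum]
  exact ⟨h5, by rw [h6, hL1]⟩

end LR78
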