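import Pool.Agent.LR78.OrdD1
import Pool.Agent.LR78.OrdB2
import Pool.Agent.LR78.OrdB3

/-!
The Artin-Schreier lemma: if `x = v^p - v` and `v` has a pole of order `m` then `x` has a pole of order `p m`.
-/

set_option autoImplicit false

namespace LR78

open Polynomial

variable (p : ℕ) [Fact p.Prime] {k : Type} [Field k] [Algebra (ZMod p) k] {Q : k}
  {x y : RatFunc k}

omit [Algebra (ZMod p) k] in
/-- the order of `v ^ p - v` at a pole of `v` -/
theorem ord_as_of_pole {v : RatFunc k} (hv : ord Q v < 0) :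
    v ^ p - v ≠ 0 ∧ ord Q (v ^ p - v) = p * ord Q v := by
  have hp2 : (2 : ℤ) ≤ p := by exact_mod_cast (Fact.out : p.Prime).two_le
  have hv0 : v ≠ 0 := by
    intro h0
    rw [h0, ord_zero] at hv
    omega
  have h1 : ge Q v (ord Q (v ^ p) + 1) := by
    refine Or.inr ?_
    rw [ord_pow]
    nlinarith
  obtain ⟨h2, h3⟩ := ord_sub_eq (pow_ne_zero p hv0) h1
  exact ⟨h2, by rw [h3, ord_pow]⟩

/-- a pole of `v ^ p - v` has order divisible by `p` -/
theorem as_ord {x : RatFunc k} (h : asr p x) (hx : ord Q x < 0) : (p : ℤ) ∣ ord Q x := by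
  obtain ⟨v, rfl⟩ := h
  by_cases hv : ord Q v < 0
  · rw [(ord_as_of_pole p hv).2]
    exact Dvd.intro _ rfl
  · exfalso
    have h1 : ge Q v 0 := Or.inr (by omega)
    have h2 := ge_pow h1 p
    rw [mul_zero] at h2
    rcases ge_sub h2 h1 with h3 | h3
    · rw [h3, ord_zero] at hx
      omega
    · omega

/-- if `x = v ^ p - v` has pole order at most `N`, then `v` has pole order at most `N / p` and
`der v` has pole order at most `N / p + 1` -/
theorem as_der {x v : RatFunc k} (h : x = v ^ p - v) {N : ℕ} (hx : ge Q x (-(N : ℤ))) :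
    ge Q v (-((N / p : ℕ) : ℤ)) ∧ ge Q (der v) (-((N / p : ℕ) : ℤ) - 1) := by
  have h1 : ge Q v (-((N / p : ℕ) : ℤ)) := by
    by_cases hv : ord Q v < 0
    · obtain ⟨h2, h3⟩ := ord_as_of_pole p hv
      rw [← h] at h2 h3
      rcases hx with h4 | h4
      · exact absurd h4 h2
      · refine Or.inr ?_
        rw [h3] at h4
        obtain ⟨m, hm⟩ : ∃ m : ℕ, ord Q v = -(m : ℤ) := ⟨(-ord Q v).toNat, by omega⟩
        rw [hm] at h4 ⊢
        have h5 : p * m ≤ N := by
          have : (p : ℤ) * m ≤ N := by linarith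
          exact_mod_cast this
        have h6 : m ≤ N / p := by
          rw [Nat.le_div_iff_mul_le (Fact.out : p.Prime).pos, mul_comm]
          exact h5
        have h7 : (m : ℤ) ≤ ((N / p : ℕ) : ℤ) := by exact_mod_cast h6
        linarith
    · refine Or.inr ?_
      have : (0 : ℤ) ≤ ((N / p : ℕ) : ℤ) := Int.natCast_nonneg _
      omega
  exact ⟨h1, ge_der h1⟩

theorem der_of_as {x v : RatFunc k} (h : x = v ^ p - v) : der x = -der v := by
  have hp0 : ((p : ℕ) : RatFunc k) = 0 := by
    rw [← map_natCast (algebraMap (ZMod p) (RatFunc k)) p, ZMod.natCast_self, map_zero]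
  rw [h, der_sub, der_pow, hp0, zero_mul, zero_mul, zero_sub]

end LR78
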