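import Pool.Agent.LR78.OrdC3
import Pool.Agent.LR78.OrdC4
import Pool.Agent.LR78.OrdD3
import Pool.Agent.LR78.OrdD4
import Pool.Agent.LR78.OrdD5

/-! Collects the basic facts (nothing to prove here). -/
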