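import Pool.Agent.LR78.OrdD1

/-!
The action `act p P x = ∑ P_j x^(p^j)` of `F_p[T]`.
-/

set_option autoImplicit false

namespace LR78

open Polynomial

variable (p : ℕ) [Fact p.Prime] {K : Type} [CommRing K] [Algebra (ZMod p) K] {x y : K}

theorem act_eq_sum_range (P : (ZMod p)[X]) {d : ℕ} (hd : ∀ j, d ≤ j → P.coeff j = 0) :
    act p P x = ∑ j ∈ Finset.range d, algebraMap (ZMod p) K (P.coeff j) * x ^ p ^ j := by
  unfold act
  rw [Polynomial.sum_def]
  refine Finset.sum_subset ?_ ?_
  · intro j hj
    rw [Finset.mem_range]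
    by_contra h
    exact (Polynomial.mem_support_iff.1 hj) (hd j (not_lt.1 h))
  · intro j _ hj
    rw [Polynomial.notMem_support_iff.1 hj, map_zero, zero_mul]

theorem act_eq_sum_range' (P : (ZMod p)[X]) {d : ℕ} (hd : P.natDegree < d) :
    act p P x = ∑ j ∈ Finset.range d, algebraMap (ZMod p) K (P.coeff j) * x ^ p ^ j :=
  act_eq_sum_range p P fun _ hj => Polynomial.coeff_eq_zero_of_natDegree_lt (by omega)

theorem act_add (P : (ZMod p)[X]) : act p P (x + y) = act p P x + act p P y := by
  rw [act_eq_sum_range' p P (Nat.lt_succ_self _), act_eq_sum_range' p P (Nat.lt_succ_self _),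
    act_eq_sum_range' p P (Nat.lt_succ_self _), ← Finset.sum_add_distrib]
  refine Finset.sum_congr rfl fun j _ => ?_
  rw [frob_add, mul_add]

theorem frob_sum {ι : Type} (s : Finset ι) (F : ι → K) (n : ℕ) :
    (∑ i ∈ s, F i) ^ p ^ n = ∑ i ∈ s, F i ^ p ^ n := by
  classical
  induction s using Finset.induction_on with
  | empty =>
    rw [Finset.sum_empty, Finset.sum_empty]
    exact zero_pow (pow_ne_zero n (Fact.out : p.Prime).ne_zero)
  | insert i s hi ih =>
    rw [Finset.sum_insert hi, Finset.sum_insert hi, frob_add, ih]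

theorem act_frob (P : (ZMod p)[X]) (n : ℕ) : act p P (x ^ p ^ n) = (act p P x) ^ p ^ n := by
  rw [act_eq_sum_range' p P (Nat.lt_succ_self _), act_eq_sum_range' p P (Nat.lt_succ_self _),
    frob_sum]
  refine Finset.sum_congr rfl fun j _ => ?_
  rw [mul_pow, frob_zmod, ← pow_mul, ← pow_mul, mul_comm (p ^ n)]

theorem act_add_poly (P R : (ZMod p)[X]) : act p (P + R) x = act p P x + act p R x := by
  have h1 : P.natDegree < max P.natDegree R.natDegree + 1 := by omega
  have h2 : R.natDegree < max P.natDegree R.natDegree + 1 := by omega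
  have h3 : (P + R).natDegree < max P.natDegree R.natDegree + 1 :=
    (Polynomial.natDegree_add_le P R).trans_lt (Nat.lt_succ_self _)
  rw [act_eq_sum_range' p P h1, act_eq_sum_range' p R h2, act_eq_sum_range' p (P + R) h3,
    ← Finset.sum_add_distrib]
  refine Finset.sum_congr rfl fun j _ => ?_
  rw [coeff_add, map_add, add_mul]

theorem act_C_mul_X_pow (c : ZMod p) (j : ℕ) :
    act p (C c * X ^ j) x = algebraMap (ZMod p) K c * x ^ p ^ j := by
  rw [act_eq_sum_range p (C c * X ^ j) (d := j + 1) ?_]
  · rw [Finset.sum_eq_single j]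
    · rw [coeff_C_mul, coeff_X_pow_self, mul_one]
    · intro i _ hi
      rw [coeff_C_mul, coeff_X_pow, if_neg hi, mul_zero, map_zero, zero_mul]
    · intro h
      exact absurd (Finset.self_mem_range_succ j) h
  · intro i hi
    rw [coeff_C_mul, coeff_X_pow, if_neg (by omega), mul_zero]

theorem act_zero_poly : act p (0 : (ZMod p)[X]) x = 0 := by
  rw [act_eq_sum_range p 0 (d := 0) (fun j _ => coeff_zero j), Finset.sum_range_zero]

theorem act_zmod_mul (P : (ZMod p)[X]) (c : ZMod p) :
    act p P (algebraMap (ZMod p) K c * x) = algebraMap (ZMod p) K c * act p P x := by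
  rw [act_eq_sum_range' p P (Nat.lt_succ_self _), act_eq_sum_range' p P (Nat.lt_succ_self _),
    Finset.mul_sum]
  refine Finset.sum_congr rfl fun j _ => ?_
  rw [mul_pow, frob_zmod]
  ring

theorem act_sum (P : (ZMod p)[X]) {ι : Type} (s : Finset ι) (F : ι → K) :
    act p P (∑ i ∈ s, F i) = ∑ i ∈ s, act p P (F i) := by
  classical
  induction s using Finset.induction_on with
  | empty =>
    rw [Finset.sum_empty, Finset.sum_empty]
    have h := act_zmod_mul p P (K := K) (x := 0) 0
    rwa [map_zero, zero_mul, zero_mul] at h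
  | insert i s hi ih =>
    rw [Finset.sum_insert hi, Finset.sum_insert hi, act_add, ih]

/-- `(P R)(F) x = P(F) (R(F) x)` -/
theorem act_mul (P R : (ZMod p)[X]) : act p (P * R) x = act p P (act p R x) := by
  induction P using Polynomial.induction_on' with
  | add P P' h h' => rw [add_mul, act_add_poly, act_add_poly, h, h']
  | monomial i c =>
    rw [← C_mul_X_pow_eq_monomial]
    induction R using Polynomial.induction_on' with
    | add R R' h h' => rw [mul_add, act_add_poly, act_add_poly, act_add, h, h']
    | monomial j d =>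
      have e : C c * X ^ i * (C d * X ^ j) = C (c * d) * X ^ (i + j) := by
        rw [C_mul, pow_add]
        ring
      rw [← C_mul_X_pow_eq_monomial, e, act_C_mul_X_pow, act_C_mul_X_pow, act_C_mul_X_pow,
        mul_pow, frob_zmod, ← pow_mul, map_mul, pow_add, mul_comm (p ^ j)]
      ring

theorem map_act {K' : Type} [CommRing K'] [Algebra (ZMod p) K'] (φ : K →ₐ[ZMod p] K')
    (P : (ZMod p)[X]) : φ (act p P x) = act p P (φ x) := by
  rw [act_eq_sum_range' p P (Nat.lt_succ_self _), act_eq_sum_range' p P (Nat.lt_succ_self _),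
    map_sum]
  refine Finset.sum_congr rfl fun j _ => ?_
  rw [map_mul, map_pow, AlgHom.commutes]

end LR78
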