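import Pool.Agent.LR78.OrdD

/-!
The commutation relation (5): `z F^M g - g F^(M-D) z ~ 0`. Let `z' = S(F) G + F^(D+1) ζ`, `G` with
a simple pole at `Q`, `ζ` regular at `Q`, `deg S ≤ D`.
`palin_A`: with `g = F^δ G`, `z = z'`, `δ ≥ 1`, the relation is impossible if `S_0 ≠ 0`:
`z' G^(p^(M+δ)) = ∑ S_κ G^(p^κ) G^(p^(M+δ)) + ζ^(p^(D+1)) G^(p^(M+δ))`, and
`G^(p^κ) G^(p^(M+δ)) ~ G G^(p^(M+δ-κ))` (`asr_frob_sub`); the term `κ = 0` has pole order
`1 + p^(M+δ)` and every other term has pole order `≤ p^(M+δ)`; `1 + p^(M+δ)` is prime to `p`.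
`palin_B`: with `g = G`, `z = F^ε z'`, `ε ≥ 1`: impossible if `S_D ≠ 0`: now the term
`S_D G G^(p^(M+ε))` of `G z'^(p^(M-D+ε))` has pole order `1 + p^(M+ε)`, all the others `≤ p^(M+ε)`.
-/

set_option autoImplicit false

namespace LR78

open Polynomial

variable {p : ℕ} [Fact p.Prime] {k : Type} [Field k] [Algebra (ZMod p) k]
  {G z' ζ : RatFunc k} {S : (ZMod p)[X]} {D M : ℕ} {Q : k}

/-- sliding a Frobenius -/
theorem asr_slide {K : Type} [CommRing K] [Algebra (ZMod p) K] (A B : K) {κ L : ℕ} (h : κ ≤ L) :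
    asr p (A ^ p ^ κ * B ^ p ^ L - A * B ^ p ^ (L - κ)) := by
  have := asr_frob_sub p κ (A * B ^ p ^ (L - κ))
  rwa [mul_pow, ← pow_mul, ← pow_add, Nat.sub_add_cancel h] at this

/-- the pole order `1 + p^L` of an Artin-Schreier class is impossible -/
theorem asr_pole_false {x y w : RatFunc k} {L : ℕ} (hL : 1 ≤ L) (h : asr p x) (hx : x = y + w)
    (hy : y ≠ 0) (hy' : ord Q y = -((1 + p ^ L : ℕ) : ℤ)) (hw : ge Q w (-((p ^ L : ℕ) : ℤ))) :
    False := by
  have hp : p.Prime := Fact.out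
  obtain ⟨-, h2⟩ := ord_add_eq (Q := Q) hy (y := w) (by
    rw [hy']
    refine ge_mono hw ?_
    push_cast
    linarith)
  rw [← hx, hy'] at h2
  have hneg : ord Q x < 0 := by
    rw [h2]
    have : (0 : ℤ) < ((1 + p ^ L : ℕ) : ℤ) := by positivity
    linarith
  have h3 := as_ord p h hneg
  rw [h2, dvd_neg, Int.natCast_dvd_natCast] at h3
  have h4 : p ∣ p ^ L := dvd_pow_self p (by omega)
  have h5 : p ∣ 1 := (Nat.dvd_add_left h4).1 h3
  exact hp.one_lt.ne' (Nat.dvd_one.1 h5)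

theorem ne_zero_of_ord {x : RatFunc k} (h : ord Q x ≠ 0) : x ≠ 0 := by
  rintro rfl
  exact h ord_zero

/-- pole orders of the products occurring here -/
theorem ge_pole_mul {A B : RatFunc k} {a b c : ℕ} (hA : ge Q A (-(1 : ℤ)))
    (hB : ge Q B (-(1 : ℤ))) (h : a + b ≤ c) :
    ge Q (A ^ a * B ^ b) (-((c : ℕ) : ℤ)) := by
  have h1 := ge_mul (ge_pow hA a) (ge_pow hB b)
  refine ge_mono h1 ?_
  have : ((a + b : ℕ) : ℤ) ≤ (c : ℤ) := by exact_mod_cast h
  push_cast at this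
  linarith

theorem ge_reg_mul {A B : RatFunc k} {a b c : ℕ} (hA : ge Q A 0)
    (hB : ge Q B (-(1 : ℤ))) (h : b ≤ c) :
    ge Q (A ^ a * B ^ b) (-((c : ℕ) : ℤ)) := by
  have h1 := ge_mul (ge_pow hA a) (ge_pow hB b)
  refine ge_mono h1 ?_
  have : (b : ℤ) ≤ (c : ℤ) := by exact_mod_cast h
  linarith

theorem act_pow_expand (hdeg : S.natDegree ≤ D) (hz : z' = act p S G + ζ ^ p ^ (D + 1)) (n : ℕ) :
    z' ^ p ^ n = ∑ j ∈ Finset.range (D + 1),
      algebraMap (ZMod p) (RatFunc k) (S.coeff j) * G ^ p ^ (j + n) + ζ ^ p ^ (D + 1 + n) := by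
  rw [hz, frob_add p n, ← act_frob, act_eq_sum_range p S (d := D + 1)
    (fun j hj => coeff_eq_zero_of_natDegree_lt (by omega))]
  congr 1
  · refine Finset.sum_congr rfl fun j _ => ?_
    rw [← pow_mul, ← pow_add, Nat.add_comm n j]
  · rw [← pow_mul, ← pow_add]

omit [Fact p.Prime] in
theorem two_pow_le (hp : 2 ≤ p) {a b c : ℕ} (ha : a < c) (hb : b < c) : p ^ a + p ^ b ≤ p ^ c := by
  obtain ⟨c, rfl⟩ : ∃ d, c = d + 1 := ⟨c - 1, by omega⟩
  have h1 : p ^ a ≤ p ^ c := Nat.pow_le_pow_right (by omega) (by omega)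
  have h2 : p ^ b ≤ p ^ c := Nat.pow_le_pow_right (by omega) (by omega)
  calc p ^ a + p ^ b ≤ p ^ c * 2 := by omega
    _ ≤ p ^ c * p := Nat.mul_le_mul_left _ hp
    _ = p ^ (c + 1) := (pow_succ _ _).symm

theorem palin_A (hp : 3 ≤ p) (hM : 2 * D + 4 ≤ M) (hdeg : S.natDegree ≤ D) (h0 : S.coeff 0 ≠ 0)
    (hz : z' = act p S G + ζ ^ p ^ (D + 1)) (hG : ord Q G = -1) (hζ : ge Q ζ 0) {δ : ℕ}
    (hδ : 1 ≤ δ) : ¬ asr p (z' * (G ^ p ^ δ) ^ p ^ M - G ^ p ^ δ * z' ^ p ^ (M - D)) := by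
  intro h
  have hp1 : 1 ≤ p := by omega
  have hG0 : G ≠ 0 := ne_zero_of_ord (Q := Q) (by rw [hG]; norm_num)
  have hGge : ge Q G (-(1 : ℤ)) := Or.inr hG.ge
  set c : ℕ → RatFunc k := fun j => algebraMap (ZMod p) (RatFunc k) (S.coeff j) with hc
  -- the expansion
  have e1 : z' = ∑ j ∈ Finset.range (D + 1), c j * G ^ p ^ j + ζ ^ p ^ (D + 1) := by
    have := act_pow_expand hdeg hz 0
    simpa using this
  have e2 := act_pow_expand hdeg hz (M - D)
  -- the slid expression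
  have s1 : asr p (∑ j ∈ Finset.range (D + 1), c j *
      (G ^ p ^ j * G ^ p ^ (M + δ) - G * G ^ p ^ (M + δ - j))) := by
    refine asr_sum p _ _ fun j hj => asr_zmod_mul p _ (asr_slide G G ?_)
    have := Finset.mem_range.1 hj
    omega
  have s2 : asr p (ζ ^ p ^ (D + 1) * G ^ p ^ (M + δ) - ζ * G ^ p ^ (M + δ - (D + 1))) :=
    asr_slide ζ G (by omega)
  have s3 := asr_sub p (asr_sub p h s1) s2
  refine asr_pole_false (Q := Q) (L := M + δ) (by omega) s3 (y := c 0 * (G * G ^ p ^ (M + δ)))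
    (w := ∑ j ∈ Finset.range D, c (j + 1) * (G ^ 1 * G ^ p ^ (M + δ - (j + 1)))
      + ζ ^ 1 * G ^ p ^ (M + δ - (D + 1))
      - (∑ j ∈ Finset.range (D + 1), c j * (G ^ p ^ δ * G ^ p ^ (j + (M - D)))
        + ζ ^ p ^ (D + 1 + (M - D)) * G ^ p ^ δ)) ?_ ?_ ?_ ?_
  · have hs : ∑ j ∈ Finset.range (D + 1), c j * (G * G ^ p ^ (M + δ - j)) =
        ∑ j ∈ Finset.range D, c (j + 1) * (G ^ 1 * G ^ p ^ (M + δ - (j + 1))) +
          c 0 * (G * G ^ p ^ (M + δ)) := by
      rw [Finset.sum_range_succ']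
      simp
    have hA : z' * (G ^ p ^ δ) ^ p ^ M = ∑ j ∈ Finset.range (D + 1), c j *
        (G ^ p ^ j * G ^ p ^ (M + δ)) + ζ ^ p ^ (D + 1) * G ^ p ^ (M + δ) := by
      rw [← pow_mul, ← pow_add, Nat.add_comm δ M]
      conv_lhs => rw [e1]
      rw [add_mul, Finset.sum_mul]
      congr 1
      exact Finset.sum_congr rfl fun j _ => by ring
    have hB : G ^ p ^ δ * z' ^ p ^ (M - D) =
        ∑ j ∈ Finset.range (D + 1), c j * (G ^ p ^ δ * G ^ p ^ (j + (M - D)))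
        + ζ ^ p ^ (D + 1 + (M - D)) * G ^ p ^ δ := by
      rw [e2, mul_add, Finset.mul_sum]
      congr 1
      · exact Finset.sum_congr rfl fun j _ => by simp only [hc]; ring
      · ring
    have hC : ∑ j ∈ Finset.range (D + 1), c j *
      (G ^ p ^ j * G ^ p ^ (M + δ) - G * G ^ p ^ (M + δ - j)) =
        ∑ j ∈ Finset.range (D + 1), c j * (G ^ p ^ j * G ^ p ^ (M + δ)) -
        ∑ j ∈ Finset.range (D + 1), c j * (G * G ^ p ^ (M + δ - j)) := by
      rw [← Finset.sum_sub_distrib]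
      exact Finset.sum_congr rfl fun j _ => by ring
    rw [hA, hB, hC, hs]
    ring
  · refine mul_ne_zero ?_ (mul_ne_zero hG0 (pow_ne_zero _ hG0))
    rw [hc]
    simp only [ne_eq]
    rw [map_eq_zero_iff _ (algebraMap (ZMod p) (RatFunc k)).injective]
    exact h0
  · rw [hc]
    simp only
    rw [ord_zmod_mul p h0, ord_mul hG0 (pow_ne_zero _ hG0), ord_pow, hG]
    push_cast
    ring
  · have key : ∀ a b : ℕ, 0 < p ^ a := fun a _ => pow_pos (by omega) _
    refine ge_sub (ge_add (ge_sum _ _ fun j hj => ge_zmod_mul p _ (ge_pole_mul hGge hGge ?_))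
      (ge_reg_mul hζ hGge ?_))
      (ge_add (ge_sum _ _ fun j hj => ge_zmod_mul p _ (ge_pole_mul hGge hGge ?_))
      (ge_reg_mul hζ hGge ?_))
    · have := two_pow_le (p := p) (by omega) (a := 0) (b := M + δ - (j + 1)) (c := M + δ)
        (by omega) (by omega)
      simpa using this
    · exact Nat.pow_le_pow_right hp1 (by omega)
    · have := Finset.mem_range.1 hj
      exact two_pow_le (by omega) (by omega) (by omega)
    · exact Nat.pow_le_pow_right hp1 (by omega)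

theorem palin_B (hp : 3 ≤ p) (hM : 2 * D + 4 ≤ M) (hdeg : S.natDegree ≤ D) (hD : S.coeff D ≠ 0)
    (hz : z' = act p S G + ζ ^ p ^ (D + 1)) (hG : ord Q G = -1) (hζ : ge Q ζ 0) {ε : ℕ}
    (hε : 1 ≤ ε) : ¬ asr p (z' ^ p ^ ε * G ^ p ^ M - G * (z' ^ p ^ ε) ^ p ^ (M - D)) := by
  intro h
  have hp1 : 1 ≤ p := by omega
  have hG0 : G ≠ 0 := ne_zero_of_ord (Q := Q) (by rw [hG]; norm_num)
  have hGge : ge Q G (-(1 : ℤ)) := Or.inr hG.ge
  set c : ℕ → RatFunc k := fun j => algebraMap (ZMod p) (RatFunc k) (S.coeff j) with hc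
  have e1 := act_pow_expand hdeg hz ε
  have e2 := act_pow_expand hdeg hz (ε + (M - D))
  refine asr_pole_false (Q := Q) (L := M + ε) (by omega) h (y := -(c D * (G * G ^ p ^ (M + ε))))
    (w := (∑ j ∈ Finset.range (D + 1), c j * (G ^ p ^ (j + ε) * G ^ p ^ M)
      + ζ ^ p ^ (D + 1 + ε) * G ^ p ^ M)
      - (∑ j ∈ Finset.range D, c j * (G ^ 1 * G ^ p ^ (j + (ε + (M - D))))
        + ζ ^ p ^ (D + 1 + (ε + (M - D))) * G ^ 1)) ?_ ?_ ?_ ?_
  · have hA : z' ^ p ^ ε * G ^ p ^ M = ∑ j ∈ Finset.range (D + 1), c j *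
        (G ^ p ^ (j + ε) * G ^ p ^ M) + ζ ^ p ^ (D + 1 + ε) * G ^ p ^ M := by
      rw [e1, add_mul, Finset.sum_mul]
      congr 1
      exact Finset.sum_congr rfl fun j _ => by simp only [hc]; ring
    have hB : G * (z' ^ p ^ ε) ^ p ^ (M - D) =
        ∑ j ∈ Finset.range D, c j * (G ^ 1 * G ^ p ^ (j + (ε + (M - D))))
        + c D * (G * G ^ p ^ (M + ε))
        + ζ ^ p ^ (D + 1 + (ε + (M - D))) * G ^ 1 := by
      rw [← pow_mul, ← pow_add, e2, mul_add, Finset.mul_sum, Finset.sum_range_succ]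
      have : D + (ε + (M - D)) = M + ε := by omega
      rw [this]
      congr 1
      · congr 1
        · exact Finset.sum_congr rfl fun j _ => by simp only [hc]; ring
        · simp only [hc]; ring
      · ring
    rw [hA, hB]
    ring
  · refine neg_ne_zero.2 (mul_ne_zero ?_ (mul_ne_zero hG0 (pow_ne_zero _ hG0)))
    rw [hc]
    simp only [ne_eq]
    rw [map_eq_zero_iff _ (algebraMap (ZMod p) (RatFunc k)).injective]
    exact hD
  · rw [ord_neg, hc]
    simp only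
    rw [ord_zmod_mul p hD, ord_mul hG0 (pow_ne_zero _ hG0), ord_pow, hG]
    push_cast
    ring
  · refine ge_sub (ge_add (ge_sum _ _ fun j hj => ge_zmod_mul p _ (ge_pole_mul hGge hGge ?_))
      (ge_reg_mul hζ hGge ?_))
      (ge_add (ge_sum _ _ fun j hj => ge_zmod_mul p _ (ge_pole_mul hGge hGge ?_))
      (ge_reg_mul hζ hGge ?_))
    · have := Finset.mem_range.1 hj
      exact two_pow_le (by omega) (by omega) (by omega)
    · exact Nat.pow_le_pow_right hp1 (by omega)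
    · have := Finset.mem_range.1 hj
      have := two_pow_le (p := p) (by omega) (a := 0) (b := j + (ε + (M - D))) (c := M + ε)
        (by omega) (by omega)
      simpa using this
    · exact Nat.one_le_pow _ _ (by omega)

end LR78
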