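import Pool.Agent.LR78.OrdD

/-!
The ring `R_p = F_p[t]_(t)`, its maximal ideal `M = {(y^p - y) z}`, and the embedding
`φ : R_p → RatFunc k`, `t ↦ 1/X`, `k` an algebraic closure of `F_p`.
-/

set_option autoImplicit false

namespace LR78

open Polynomial

variable (p : ℕ) [Fact p.Prime]

theorem am_ne_zero {b : (ZMod p)[X]} (hb : b.eval 0 ≠ 0) :
    algebraMap (ZMod p)[X] (RatFunc (ZMod p)) b ≠ 0 := by
  refine RatFunc.algebraMap_ne_zero ?_
  rintro rfl
  simp at hb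

/-- `F_p[t]_(t)` -/
noncomputable def Rp : Subalgebra (ZMod p) (RatFunc (ZMod p)) where
  carrier := {x | ∃ a b : (ZMod p)[X], b.eval 0 ≠ 0 ∧
    x = algebraMap (ZMod p)[X] (RatFunc (ZMod p)) a / algebraMap (ZMod p)[X] (RatFunc (ZMod p)) b}
  mul_mem' := by
    rintro x y ⟨a, b, hb, rfl⟩ ⟨c, d, hd, rfl⟩
    refine ⟨a * c, b * d, by simpa using ⟨hb, hd⟩, ?_⟩
    rw [div_mul_div_comm, map_mul, map_mul]
  add_mem' := by
    rintro x y ⟨a, b, hb, rfl⟩ ⟨c, d, hd, rfl⟩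
    refine ⟨a * d + b * c, b * d, by simpa using ⟨hb, hd⟩, ?_⟩
    rw [div_add_div _ _ (am_ne_zero p hb) (am_ne_zero p hd), map_mul, map_add, map_mul, map_mul]
  algebraMap_mem' := by
    intro r
    refine ⟨C r, 1, by simp, ?_⟩
    rw [map_one, div_one, IsScalarTower.algebraMap_apply (ZMod p) (ZMod p)[X] (RatFunc (ZMod p))]
    rfl

theorem mem_Rp {x : RatFunc (ZMod p)} : x ∈ Rp p ↔ ∃ a b : (ZMod p)[X], b.eval 0 ≠ 0 ∧
    x = algebraMap (ZMod p)[X] (RatFunc (ZMod p)) a /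
      algebraMap (ZMod p)[X] (RatFunc (ZMod p)) b := Iff.rfl

/-- membership in the maximal ideal, as an existential formula -/
def inM {R : Type} [CommRing R] (f : R) : Prop := ∃ y z : R, f = (y ^ p - y) * z

/-- `t ∈ M`: `t = (t^p - t) / (t^(p-1) - 1)` -/
theorem exists_inM : ∃ f : Rp p, f ≠ 0 ∧ inM p f := by
  have hp : 2 ≤ p := (Fact.out : p.Prime).two_le
  set am := algebraMap (ZMod p)[X] (RatFunc (ZMod p)) with ham
  have hX : am X ≠ 0 := RatFunc.algebraMap_ne_zero X_ne_zero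
  have hD : (X ^ (p - 1) - 1 : (ZMod p)[X]).eval 0 ≠ 0 := by
    rw [eval_sub, eval_pow, eval_X, eval_one, zero_pow (by omega), zero_sub]
    exact neg_ne_zero.2 one_ne_zero
  have hD' : am (X ^ (p - 1) - 1) ≠ 0 := am_ne_zero p hD
  let t : Rp p := ⟨am X, ⟨X, 1, by simp, by simp [ham]⟩⟩
  let z : Rp p := ⟨1 / am (X ^ (p - 1) - 1), ⟨1, X ^ (p - 1) - 1, hD, by simp [ham]⟩⟩
  refine ⟨t, ?_, t, z, ?_⟩
  · intro h
    exact hX (congrArg Subtype.val h)
  · apply Subtype.ext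
    change am X = (am X ^ p - am X) * (1 / am (X ^ (p - 1) - 1))
    rw [mul_one_div, eq_div_iff hD', map_sub, map_pow, map_one, mul_sub, mul_one, ← pow_succ',
      Nat.sub_add_cancel (by omega)]

/-- An element of `M` is `A/B` with `A(0) = 0`, `B(0) ≠ 0`. -/
theorem inM_rep {f : Rp p} (hf : inM p f) : ∃ A B : (ZMod p)[X], A.eval 0 = 0 ∧ B.eval 0 ≠ 0 ∧
    (f : RatFunc (ZMod p)) = algebraMap (ZMod p)[X] (RatFunc (ZMod p)) A /
      algebraMap (ZMod p)[X] (RatFunc (ZMod p)) B := by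
  obtain ⟨y, z, rfl⟩ := hf
  obtain ⟨y, a, b, hb, rfl⟩ := y
  obtain ⟨z, c, d, hd, rfl⟩ := z
  have hp : 2 ≤ p := (Fact.out : p.Prime).two_le
  have hb' := am_ne_zero p hb
  have hd' := am_ne_zero p hd
  refine ⟨(a ^ p - a * b ^ (p - 1)) * c, b ^ p * d, ?_, ?_, ?_⟩
  · simp only [eval_mul, eval_sub, eval_pow]
    rw [ZMod.pow_card, ZMod.pow_card_sub_one_eq_one hb]
    ring
  · simp only [eval_mul, eval_pow]
    exact mul_ne_zero (pow_ne_zero _ hb) hd
  · change ((algebraMap (ZMod p)[X] (RatFunc (ZMod p)) a /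
      algebraMap (ZMod p)[X] (RatFunc (ZMod p)) b) ^ p -
      algebraMap (ZMod p)[X] (RatFunc (ZMod p)) a /
      algebraMap (ZMod p)[X] (RatFunc (ZMod p)) b) *
      (algebraMap (ZMod p)[X] (RatFunc (ZMod p)) c /
      algebraMap (ZMod p)[X] (RatFunc (ZMod p)) d) = _
    simp only [map_mul, map_sub, map_pow]
    have h1 : (algebraMap (ZMod p)[X] (RatFunc (ZMod p)) b) ^ p =
        (algebraMap (ZMod p)[X] (RatFunc (ZMod p)) b) ^ (p - 1) *
          algebraMap (ZMod p)[X] (RatFunc (ZMod p)) b := by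
      rw [← pow_succ, Nat.sub_add_cancel (by omega)]
    rw [div_pow, h1]
    field_simp

/-- `f + b` is invertible for `f ∈ M`, `b ≠ 0` -/
theorem exists_inv {f : Rp p} (hf : inM p f) {b : ZMod p} (hb : b ≠ 0) :
    ∃ g : Rp p, g * (f + algebraMap (ZMod p) (Rp p) b) = 1 := by
  obtain ⟨A, B, hA, hB, h⟩ := inM_rep p hf
  have hB' := am_ne_zero p hB
  have hD : (A + C b * B).eval 0 ≠ 0 := by
    simp only [eval_add, eval_mul, eval_C, hA, zero_add]
    exact mul_ne_zero hb hB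
  have hD' := am_ne_zero p hD
  refine ⟨⟨algebraMap (ZMod p)[X] (RatFunc (ZMod p)) B /
    algebraMap (ZMod p)[X] (RatFunc (ZMod p)) (A + C b * B), ⟨B, A + C b * B, hD, rfl⟩⟩, ?_⟩
  apply Subtype.ext
  change algebraMap (ZMod p)[X] (RatFunc (ZMod p)) B /
    algebraMap (ZMod p)[X] (RatFunc (ZMod p)) (A + C b * B) *
    ((f : RatFunc (ZMod p)) + algebraMap (ZMod p) (RatFunc (ZMod p)) b) = 1
  have h2 : algebraMap (ZMod p) (RatFunc (ZMod p)) b =
      algebraMap (ZMod p)[X] (RatFunc (ZMod p)) (C b) := by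
    rw [IsScalarTower.algebraMap_apply (ZMod p) (ZMod p)[X] (RatFunc (ZMod p))]
    rfl
  rw [h, h2]
  rw [map_add, map_mul] at hD' ⊢
  rw [div_add' _ _ _ hB', div_mul_div_comm, mul_comm, div_self (mul_ne_zero hD' hB')]

theorem not_isUnit {f : Rp p} (hf : inM p f) : ¬ IsUnit f := by
  intro hu
  obtain ⟨A, B, hA, hB, h⟩ := inM_rep p hf
  obtain ⟨g, hg⟩ := hu.exists_right_inv
  obtain ⟨g, c, d, hd, rfl⟩ := g
  have hB' := am_ne_zero p hB
  have hd' := am_ne_zero p hd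
  have h1 : (f : RatFunc (ZMod p)) * (algebraMap (ZMod p)[X] (RatFunc (ZMod p)) c /
      algebraMap (ZMod p)[X] (RatFunc (ZMod p)) d) = 1 := congrArg Subtype.val hg
  rw [h, div_mul_div_comm, div_eq_one_iff_eq (mul_ne_zero hB' hd'), ← map_mul, ← map_mul] at h1
  have h2 : A * c = B * d := RatFunc.algebraMap_injective (ZMod p) h1
  have h3 := congrArg (eval 0) h2
  rw [eval_mul, eval_mul, hA, zero_mul] at h3
  exact mul_ne_zero hB hd h3.symm

end LR78
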