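import Pool.Agent.LR78.TypeA

/-!
The induction. Stage `i` (`0 ≤ i ≤ D+1`): `z = S(F) g + F^i zi`, `deg S < i`, and for `N = M` and
`N = M + 1`:   `zi * z^(p^(N-i)) - g * (Yp i S)^(p^(N-D)) ~ 0`,
where `Yp i S = P(F) g - ∑_{j<i} S_j z^(p^(D-j))` (does not depend on `N`).
-/

set_option autoImplicit false

namespace LR78

open Polynomial

variable (p : ℕ) [Fact p.Prime] {k : Type} [Field k] [Algebra (ZMod p) k] [IsAlgClosed k]

/-- `Y'_i` -/
noncomputable def Yp (g z : RatFunc k) (P : (ZMod p)[X]) (D i : ℕ) (S : (ZMod p)[X]) : RatFunc k :=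
  act p P g - ∑ j ∈ Finset.range i, algebraMap (ZMod p) (RatFunc k) (S.coeff j) * z ^ p ^ (D - j)

/-- stage `i` of the induction -/
structure Stage (g z : RatFunc k) (P : (ZMod p)[X]) (D M i : ℕ) (S : (ZMod p)[X])
    (zi : RatFunc k) : Prop where
  degS : ∀ j, i ≤ j → S.coeff j = 0
  eq : z = act p S g + zi ^ p ^ i
  rel : ∀ N, N = M ∨ N = M + 1 →
    asr p (zi * z ^ p ^ (N - i) - g * (Yp p g z P D i S) ^ p ^ (N - D))

variable {p} {g z : RatFunc k} {P : (ZMod p)[X]} {D M : ℕ}

theorem stage_zero (H : Hyp p g z P D M) (H' : Hyp p g z P D (M + 1)) :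
    Stage p g z P D M 0 0 z := by
  refine ⟨fun j _ => by simp, by rw [act_zero_poly]; simp, ?_⟩
  rintro N (rfl | rfl)
  · simpa [Yp] using H.as
  · simpa [Yp] using H'.as

/-- the algebra of one step: `zi = c g + F z'` gives stage `i + 1`:
`F (z' F^(N-i-1) z) = zi F^(N-i) z - c g F^(N-i) z ~ g F^(N-D) (Y_i - c F^(D-i) z)`. -/
theorem stage_succ {i : ℕ} (hi : i ≤ D) (hM : D + 1 ≤ M) {S : (ZMod p)[X]} {zi : RatFunc k}
    (h : Stage p g z P D M i S zi) {c : ZMod p} {z' : RatFunc k}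
    (hz : zi = algebraMap (ZMod p) (RatFunc k) c * g + z' ^ p) :
    Stage p g z P D M (i + 1) (S + C c * X ^ i) z' := by
  refine ⟨fun j hj => ?_, ?_, ?_⟩
  · rw [coeff_add, h.degS j (by omega), coeff_C_mul, coeff_X_pow, if_neg (by omega)]
    simp
  · rw [act_add_poly, act_C_mul_X_pow]
    conv_lhs => rw [h.eq, hz, frob_add, mul_pow, frob_zmod, ← pow_mul, ← pow_succ']
    ring
  · intro N hN
    have hNM : M ≤ N := by rcases hN with rfl | rfl <;> omega
    have hY : Yp p g z P D (i + 1) (S + C c * X ^ i) =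
        Yp p g z P D i S - algebraMap (ZMod p) (RatFunc k) c * z ^ p ^ (D - i) := by
      unfold Yp
      rw [Finset.sum_range_succ]
      have h1 : ∑ j ∈ Finset.range i, algebraMap (ZMod p) (RatFunc k)
          ((S + C c * X ^ i).coeff j) * z ^ p ^ (D - j) =
          ∑ j ∈ Finset.range i, algebraMap (ZMod p) (RatFunc k) (S.coeff j) * z ^ p ^ (D - j) := by
        refine Finset.sum_congr rfl fun j hj => ?_
        rw [coeff_add, coeff_C_mul, coeff_X_pow, if_neg (by have := Finset.mem_range.1 hj; omega)]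
        simp
      have h2 : (S + C c * X ^ i).coeff i = c := by
        rw [coeff_add, coeff_C_mul, coeff_X_pow, if_pos rfl, h.degS i le_rfl]
        simp
      rw [h1, h2]
      ring
    have hrel := h.rel N hN
    have hx := asr_frob_sub (p := p) 1 (z' * z ^ p ^ (N - (i + 1)))
    have hkey : z' * z ^ p ^ (N - (i + 1)) -
        g * Yp p g z P D (i + 1) (S + C c * X ^ i) ^ p ^ (N - D) =
        (zi * z ^ p ^ (N - i) - g * Yp p g z P D i S ^ p ^ (N - D)) -
        ((z' * z ^ p ^ (N - (i + 1))) ^ p ^ 1 - z' * z ^ p ^ (N - (i + 1))) := by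
      rw [hY, frob_sub, mul_pow, frob_zmod, ← pow_mul, ← pow_add, mul_pow, pow_one, ← pow_mul,
        ← pow_succ, show D - i + (N - D) = N - i by omega, show N - (i + 1) + 1 = N - i by omega,
        hz]
      ring
    rw [hkey]
    exact asr_sub (p := p) hrel hx

end LR78
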