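import Pool.Agent.LR78.StepTau

/-!
Global step. `ψ = der zi / der g`. At the `≥ h/2` type A points `ψ ≡ c_Q ∈ F_p` to order
`p^(M-D)`, so `ψ^p - ψ` vanishes there to order `≥ p^(M-D)`. Height of `ψ^p - ψ`:
`p^i dg zi = dg (z - S(F) g) ≤ h (p^D + 2) + h p^i`, so `dg zi ≤ h (p^D + 3)`,
`dg ψ ≤ 2 dg zi + 2 h ≤ 2 h (p^D + 4)`, `dg (ψ^p - ψ) ≤ 2 p h (p^D + 4) < (h/2) p^(M-D)`.
So `ψ^p = ψ` (`eq_zero_of_ge`), `ψ = c ∈ F_p` (`fix_frob`), `der (zi - c g) = 0`,
`zi - c g = z'^p` (`exists_pow_of_der_eq_zero`).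
-/

set_option autoImplicit false

namespace LR78

open Polynomial

variable {p : ℕ} [Fact p.Prime] {k : Type} [Field k] [Algebra (ZMod p) k] [IsAlgClosed k]
  {g z : RatFunc k} {P : (ZMod p)[X]} {D M : ℕ}

/-- the height of `S(F) g` -/
theorem dg_act_le (hp : 2 ≤ p) {i : ℕ} {S : (ZMod p)[X]} (hS : ∀ j, i ≤ j → S.coeff j = 0) :
    dg (act p S g) + dg g ≤ p ^ i * dg g := by
  rw [act_eq_sum_range p S hS]
  clear hS
  induction i with
  | zero =>
    simp only [Finset.range_zero, Finset.sum_empty, pow_zero, one_mul]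
    have : dg (0 : RatFunc k) = 0 := by
      have := dg_C (0 : k)
      rwa [map_zero] at this
    omega
  | succ i ih =>
    rw [Finset.sum_range_succ]
    have h1 : dg (∑ j ∈ Finset.range i, algebraMap (ZMod p) (RatFunc k) (S.coeff j) * g ^ p ^ j +
        algebraMap (ZMod p) (RatFunc k) (S.coeff i) * g ^ p ^ i) ≤
        dg (∑ j ∈ Finset.range i, algebraMap (ZMod p) (RatFunc k) (S.coeff j) * g ^ p ^ j) +
        dg (algebraMap (ZMod p) (RatFunc k) (S.coeff i) * g ^ p ^ i) := dg_add_le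
    have h2 : dg (algebraMap (ZMod p) (RatFunc k) (S.coeff i) * g ^ p ^ i) ≤ p ^ i * dg g := by
      refine dg_mul_le.trans ?_
      rw [algebraMap_zmod_eq_C, dg_C, dg_pow, zero_add]
    have h3 : 2 * (p ^ i * dg g) ≤ p ^ (i + 1) * dg g := by
      rw [pow_succ]
      calc 2 * (p ^ i * dg g) ≤ p * (p ^ i * dg g) := Nat.mul_le_mul_right _ hp
        _ = _ := by ring
    omega

theorem stage_dg_le (H : Hyp p g z P D M) {i : ℕ} (hi : i ≤ D) {S : (ZMod p)[X]} {zi : RatFunc k}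
    (h : Stage p g z P D M i S zi) : dg zi ≤ dg g * (p ^ D + 3) := by
  have hp := H.hp
  have h1 : zi ^ p ^ i = z - act p S g := by
    have := h.eq
    rw [eq_sub_iff_add_eq, add_comm]
    exact this.symm
  have h2 : p ^ i * dg zi ≤ dg z + dg (act p S g) := by
    rw [← dg_pow, h1]
    exact dg_sub_le
  have h3 := dg_z_le H
  have h4 := dg_act_le (g := g) (by omega : 2 ≤ p) h.degS
  have hpi : 1 ≤ p ^ i := Nat.one_le_pow _ _ (by omega)
  refine Nat.le_of_mul_le_mul_left (c := p ^ i) ?_ (by omega)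
  have h5 : dg g * (p ^ D + 2) ≤ p ^ i * (dg g * (p ^ D + 2)) := Nat.le_mul_of_pos_left _ hpi
  have h6 : p ^ i * (dg g * (p ^ D + 3)) = p ^ i * (dg g * (p ^ D + 2)) + p ^ i * dg g := by ring
  omega

theorem stage_glob (H : Hyp p g z P D M) {i : ℕ} (hi : i ≤ D) {S : (ZMod p)[X]} {zi : RatFunc k}
    (h : Stage p g z P D M i S zi) {A : Finset k} (hA : ∀ Q ∈ A, typeA p g z D Q)
    (hc : dg g ≤ 2 * A.card) (h1 : 1 ≤ dg g) :
    ∃ (c : ZMod p) (z' : RatFunc k), zi = algebraMap (ZMod p) (RatFunc k) c * g + z' ^ p := by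
  have hp := H.hp
  have hD := H.hD
  have hN := H.hN
  set ψ : RatFunc k := der zi / der g with hψ
  have hvan : ∀ Q ∈ A, ge Q (ψ ^ p - ψ) ((p ^ (M - D) : ℕ) : ℤ) := by
    intro Q hQ
    obtain ⟨c, hcQ⟩ := stage_tau H hi h (hA Q hQ)
    rw [← hψ] at hcQ
    have e1 : ψ ^ p - ψ = (ψ - algebraMap (ZMod p) (RatFunc k) c) ^ p -
        (ψ - algebraMap (ZMod p) (RatFunc k) c) := by
      have e2 := frob_sub p (x := ψ) (y := algebraMap (ZMod p) (RatFunc k) c) 1
      rw [frob_zmod, pow_one] at e2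
      rw [e2]
      ring
    rw [e1]
    refine ge_sub (ge_mono (ge_pow hcQ p) ?_) hcQ
    have h3 : (0 : ℤ) ≤ ((p ^ (M - D) : ℕ) : ℤ) := Int.natCast_nonneg _
    have h4 : (1 : ℤ) ≤ p := by
      have : 1 ≤ p := by omega
      exact_mod_cast this
    exact le_mul_of_one_le_left h3 h4
  have hdgψ : dg ψ ≤ 2 * (dg g * (p ^ D + 3)) + 2 * dg g := by
    refine dg_div_le.trans ?_
    have e1 := dg_der_le (x := zi)
    have e2 := dg_der_le (x := g)
    have e3 := stage_dg_le H hi h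
    omega
  have hlt : dg (ψ ^ p - ψ) < A.card * p ^ (M - D) := by
    have e1 : dg (ψ ^ p - ψ) ≤ p * (2 * (dg g * (p ^ D + 3)) + 2 * dg g) :=
      (dg_pow_sub_le p (by omega)).trans (Nat.mul_le_mul_left _ hdgψ)
    have e2 : 2 * (p * (2 * (dg g * (p ^ D + 3)) + 2 * dg g)) < 2 * (A.card * p ^ (M - D)) := by
      have e3 : 2 * (p * (2 * (dg g * (p ^ D + 3)) + 2 * dg g)) = dg g * (4 * p * (p ^ D + 4)) := by
        ring
      have e4 : 4 * p * (p ^ D + 4) < p ^ (M - D) := by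
        have f1 : p ^ (D + 4) ≤ p ^ (M - D) := Nat.pow_le_pow_right (by omega) (by omega)
        have f2 : 5 ≤ p ^ D := by
          calc 5 ≤ p := hp
            _ = p ^ 1 := (pow_one p).symm
            _ ≤ p ^ D := Nat.pow_le_pow_right (by omega) hD
        have f3 : p ^ (D + 4) = p * (p ^ D * p ^ 3) := by ring
        have f4 : 125 ≤ p ^ 3 := by
          calc 125 = 5 ^ 3 := by norm_num
            _ ≤ p ^ 3 := Nat.pow_le_pow_left hp 3
        have f5 : p ^ D * 125 ≤ p ^ D * p ^ 3 := Nat.mul_le_mul_left _ f4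
        have f6 : 4 * (p ^ D + 4) < p ^ D * p ^ 3 := by omega
        calc 4 * p * (p ^ D + 4) = p * (4 * (p ^ D + 4)) := by ring
          _ < p * (p ^ D * p ^ 3) := Nat.mul_lt_mul_of_pos_left f6 (by omega)
          _ = p ^ (D + 4) := f3.symm
          _ ≤ _ := f1
      calc 2 * (p * (2 * (dg g * (p ^ D + 3)) + 2 * dg g)) = dg g * (4 * p * (p ^ D + 4)) := e3
        _ < dg g * p ^ (M - D) := Nat.mul_lt_mul_of_pos_left e4 (by omega)
        _ ≤ 2 * A.card * p ^ (M - D) := Nat.mul_le_mul_right _ hc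
        _ = _ := by ring
    omega
  have h0 : ψ ^ p - ψ = 0 := eq_zero_of_ge A (p ^ (M - D)) hvan hlt
  obtain ⟨c, hcψ⟩ := fix_frob p (sub_eq_zero.mp h0)
  have hder : der (zi - algebraMap (ZMod p) (RatFunc k) c * g) = 0 := by
    rw [der_sub, der_zmod_mul, ← hcψ, hψ, div_mul_cancel₀ _ H.derg, sub_self]
  obtain ⟨z', hz'⟩ := exists_pow_of_der_eq_zero p hder
  refine ⟨c, z', ?_⟩
  rw [← hz']
  ring

end LR78
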