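import Pool.Agent.LR78.Stage

/-!
Local analysis of stage `i ≤ D` at a type A point `Q` (`g` has a simple pole, `z` has pole order
`p^D`).
`stage_pole`: `S(F) g` has pole order `≤ p^(i-1) < p^D` (no pole if `i = 0`), so `F^i zi` has pole
order `p^D` and `zi` has pole order `p^(D-i)`.
`stage_Y`: if `Y = Yp ..` has pole order `y ≥ p^(2D-i) + 1` then `g Y^(p^(M-D))` has pole order
`1 + y p^(M-D) ≥ 1 + p^(M+D-i) + p^(M-D) > p^(D-i) (1 + p^M)` = pole order of `zi z^(p^(M-i))`,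
and `1 + y p^(M-D)` is prime to `p`: contradiction to `as_ord`.
-/

set_option autoImplicit false

namespace LR78

open Polynomial

variable {p : ℕ} [Fact p.Prime] {k : Type} [Field k] [Algebra (ZMod p) k] [IsAlgClosed k]
  {g z : RatFunc k} {P : (ZMod p)[X]} {D M : ℕ} {Q : k}

theorem stage_pole (H : Hyp p g z P D M) {i : ℕ} (hi : i ≤ D) {S : (ZMod p)[X]} {zi : RatFunc k}
    (h : Stage p g z P D M i S zi) (hQ : typeA p g z D Q) :
    ord Q zi = -((p ^ (D - i) : ℕ) : ℤ) := by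
  have hp := H.hp
  obtain ⟨hg, hz, hdz⟩ := hQ
  have hz0 : z ≠ 0 := by
    intro h
    exact H.derz (by rw [h, der_zero])
  have hact : ge Q (act p S g) (ord Q z + 1) := by
    rcases Nat.eq_zero_or_pos i with h0 | h0
    · have hS : S = 0 := by
        ext j
        rw [coeff_zero]
        exact h.degS j (by omega)
      rw [hS, act_zero_poly]
      exact ge_zero _
    · have h1 := ge_act_pole p (P := S) (d := i - 1) (e := 1) (x := g) (Q := Q)
        (fun j hj => h.degS j (by omega)) (Or.inr (by rw [hg]; norm_num))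
      refine ge_mono h1 ?_
      rw [hz, one_mul]
      have h2 : p ^ (i - 1) < p ^ D := Nat.pow_lt_pow_right (by omega) (by omega)
      have h3 : ((p ^ (i - 1) : ℕ) : ℤ) < ((p ^ D : ℕ) : ℤ) := by exact_mod_cast h2
      linarith
  have h1 : zi ^ p ^ i = z - act p S g := by
    have := h.eq
    rw [eq_sub_iff_add_eq, add_comm]
    exact this.symm
  have h2 := (ord_sub_eq hz0 hact).2
  rw [← h1, ord_pow, hz] at h2
  have h3 : p ^ D = p ^ i * p ^ (D - i) := by
    rw [← pow_add]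
    congr 1
    omega
  rw [h3] at h2
  have h4 : (0 : ℤ) < ((p ^ i : ℕ) : ℤ) := by
    have : 0 < p ^ i := by positivity
    exact_mod_cast this
  have h5 : ((p ^ i : ℕ) : ℤ) * (ord Q zi + ((p ^ (D - i) : ℕ) : ℤ)) = 0 := by
    rw [Nat.cast_mul] at h2
    linarith
  rcases mul_eq_zero.mp h5 with h6 | h6
  · exact absurd h6 h4.ne'
  · linarith

theorem stage_Y (H : Hyp p g z P D M) {i : ℕ} (hi : i ≤ D) {S : (ZMod p)[X]} {zi : RatFunc k}
    (h : Stage p g z P D M i S zi) (hQ : typeA p g z D Q) :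
    ge Q (Yp p g z P D i S) (-((p ^ (2 * D - i) : ℕ) : ℤ)) := by
  have hp := H.hp
  have hD := H.hD
  have hN := H.hN
  have hpole := stage_pole H hi h hQ
  obtain ⟨hg, hz, hdz⟩ := hQ
  have hz0 : z ≠ 0 := by
    intro h
    exact H.derz (by rw [h, der_zero])
  have hg0 : g ≠ 0 := by
    intro h
    rw [h, ord_zero] at hg
    omega
  have hpD : 0 < p ^ (D - i) := by positivity
  have hzi0 : zi ≠ 0 := by
    intro h0
    rw [h0, ord_zero] at hpole
    have : (0 : ℤ) < ((p ^ (D - i) : ℕ) : ℤ) := by exact_mod_cast hpD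
    linarith
  by_contra hcon
  unfold ge at hcon
  push Not at hcon
  obtain ⟨hY0, hY⟩ := hcon
  set Y := Yp p g z P D i S with hYdef
  obtain ⟨y, hy⟩ : ∃ y : ℕ, ord Q Y = -(y : ℤ) := ⟨(-ord Q Y).toNat, by
    have : (0 : ℤ) ≤ ((p ^ (2 * D - i) : ℕ) : ℤ) := Int.natCast_nonneg _
    omega⟩
  rw [hy] at hY
  have hy1 : p ^ (2 * D - i) + 1 ≤ y := by
    have : ((p ^ (2 * D - i) : ℕ) : ℤ) < y := by linarith
    have : p ^ (2 * D - i) < y := by exact_mod_cast this
    omega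
  obtain ⟨b, hb⟩ : ∃ b : ℕ, b = p ^ (M - D) := ⟨_, rfl⟩
  obtain ⟨c, hc⟩ : ∃ c : ℕ, c = p ^ (D - i) := ⟨_, rfl⟩
  have hB : ord Q (g * Y ^ p ^ (M - D)) = -((1 + b * y : ℕ) : ℤ) := by
    rw [ord_mul hg0 (pow_ne_zero _ hY0), ord_pow, hg, hy, ← hb]
    push_cast
    ring
  have hB0 : g * Y ^ p ^ (M - D) ≠ 0 := mul_ne_zero hg0 (pow_ne_zero _ hY0)
  have hA : ord Q (zi * z ^ p ^ (M - i)) = -((c + b * p ^ (2 * D - i) : ℕ) : ℤ) := by
    rw [ord_mul hzi0 (pow_ne_zero _ hz0), ord_pow, hpole, hz, ← hc]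
    have : p ^ (M - i) * p ^ D = b * p ^ (2 * D - i) := by
      rw [hb, ← pow_add, ← pow_add]
      congr 1
      omega
    rw [← this]
    push_cast
    ring
  have hcb : c ≤ b := by
    rw [hc, hb]
    exact Nat.pow_le_pow_right (by omega) (by omega)
  have hA' : ge Q (zi * z ^ p ^ (M - i)) (ord Q (g * Y ^ p ^ (M - D)) + 1) := by
    right
    rw [hA, hB]
    have h1 : b * (p ^ (2 * D - i) + 1) ≤ b * y := Nat.mul_le_mul_left _ hy1
    have h2 : c + b * p ^ (2 * D - i) ≤ b * y := by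
      have : b * (p ^ (2 * D - i) + 1) = b * p ^ (2 * D - i) + b := by ring
      omega
    have h3 : ((c + b * p ^ (2 * D - i) : ℕ) : ℤ) ≤ ((b * y : ℕ) : ℤ) := by exact_mod_cast h2
    have h4 : ((1 + b * y : ℕ) : ℤ) = 1 + ((b * y : ℕ) : ℤ) := by push_cast; ring
    rw [h4]
    linarith
  have h1 := ord_sub_eq hB0 hA'
  have h2 : ord Q (zi * z ^ p ^ (M - i) - g * Y ^ p ^ (M - D)) = -((1 + b * y : ℕ) : ℤ) := by
    rw [← neg_sub, ord_neg, h1.2, hB]
  have h3 := as_ord p (Q := Q) (h.rel M (Or.inl rfl)) (by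
    rw [h2]
    have h4 : ((1 + b * y : ℕ) : ℤ) = 1 + ((b * y : ℕ) : ℤ) := by push_cast; ring
    have h5 : (0 : ℤ) ≤ ((b * y : ℕ) : ℤ) := Int.natCast_nonneg _
    rw [h4]
    linarith)
  rw [h2, dvd_neg] at h3
  have h4 : p ∣ 1 + b * y := by exact_mod_cast h3
  have h5 : p ∣ b := by
    rw [hb]
    exact dvd_pow_self _ (by omega)
  have h6 : p ∣ 1 := (Nat.dvd_add_left (h5.mul_right y)).mp h4
  have := Nat.le_of_dvd (by norm_num) h6
  omega

end LR78
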