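import Pool.Agent.LR78.StepLoc

/-!
At a type A point: `ψ = der zi / der g` is congruent to `τ^(p^(N-D))` modulo order `p^(N-D)`,
where `τ` is the value at `Q` of `Yp / z^(p^(D-i))` (which is regular by `stage_Y`, as
`z^(p^(D-i))` has pole order `p^(2D-i)`).
Proof: the derivative of `zi z^(p^(N-i)) - g Y^(p^(N-D)) = v^p - v` is
`der zi * z^(p^(N-i)) = der g * Y^(p^(N-D)) - der v`  (`i < N`, `D < N`), so
`ψ = (Y / z^(p^(D-i)))^(p^(N-D)) - (der v / der g) / z^(p^(N-i))`;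
`x = v^p - v` has pole order `≤ p^(D-i) + p^(N+D-i)`, so `der v` has pole order
`≤ (p^(D-i) + p^(N+D-i)) / p + 1` (`as_der`), `ord (der g) = -2` (`ord_der_of_simple`),
`z^(p^(N-i))` has pole order `p^(N+D-i)`, and
`p^(N+D-i) + 2 - (p^(D-i) + p^(N+D-i))/p - 1 ≥ p^(N-D)`.
-/

set_option autoImplicit false

namespace LR78

open Polynomial

variable {p : ℕ} [Fact p.Prime] {k : Type} [Field k] [Algebra (ZMod p) k] [IsAlgClosed k]
  {g z : RatFunc k} {P : (ZMod p)[X]} {D M : ℕ} {Q : k}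

theorem psi_num {p D i N : ℕ} (hp : 5 ≤ p) (hi : i ≤ D) (hD : 1 ≤ D) (hN : D + 1 ≤ N) :
    p ^ (N - D) + (p ^ (D - i) + p ^ (N + D - i)) / p ≤ p ^ (N + D - i) + 1 := by
  have hp0 : 0 < p := by omega
  obtain ⟨a, rfl⟩ : ∃ a, N = D + 1 + a := ⟨N - (D + 1), by omega⟩
  obtain ⟨b, hb⟩ : ∃ b, D = i + b := ⟨D - i, by omega⟩
  have e1 : D + 1 + a - D = a + 1 := by omega
  have e2 : D - i = b := by omega
  have e3 : D + 1 + a + D - i = (b + a + D) + 1 := by omega
  rw [e1, e2, e3]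
  have h1 : (p ^ b + p ^ (b + a + D + 1)) / p ≤ p ^ b + p ^ (b + a + D) := by
    apply Nat.div_le_of_le_mul
    have : p ^ (b + a + D + 1) = p * p ^ (b + a + D) := by ring
    rw [this]
    have h0 : 1 * p ^ b ≤ p * p ^ b := Nat.mul_le_mul_right _ (by omega)
    rw [mul_add]
    omega
  have h2 : p ^ b ≤ p ^ (b + a + D) := Nat.pow_le_pow_right hp0 (by omega)
  have h3 : p ^ (a + 1) ≤ p ^ (b + a + D) := Nat.pow_le_pow_right hp0 (by omega)
  have h4 : 5 * p ^ (b + a + D) ≤ p ^ (b + a + D + 1) := by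
    rw [pow_succ, mul_comm]
    exact Nat.mul_le_mul_left _ hp
  omega

theorem stage_psi (H : Hyp p g z P D M) {i : ℕ} (hi : i ≤ D) {S : (ZMod p)[X]} {zi : RatFunc k}
    (h : Stage p g z P D M i S zi) (hQ : typeA p g z D Q) {τ : k}
    (hτ : ge Q (Yp p g z P D i S / z ^ p ^ (D - i) - RatFunc.C τ) 1) {N : ℕ}
    (hN : N = M ∨ N = M + 1) :
    ge Q (der zi / der g - RatFunc.C (τ ^ p ^ (N - D))) ((p ^ (N - D) : ℕ) : ℤ) := by
  have hp5 := H.hp
  have hD := H.hD
  have hM := H.hN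
  have hNM : 2 * D + 4 ≤ N := by rcases hN with h | h <;> omega
  obtain ⟨hQg, hQz, hQdz⟩ := hQ
  obtain ⟨v, hv⟩ := h.rel N hN
  set Y := Yp p g z P D i S with hY
  have hYp := stage_Y H hi h ⟨hQg, hQz, hQdz⟩
  rw [← hY] at hYp
  have hzi := stage_pole H hi h ⟨hQg, hQz, hQdz⟩
  have hz0 : z ≠ 0 := by
    rintro rfl
    rw [ord_zero] at hQz
    have : 0 < p ^ D := pow_pos (by omega) D
    omega
  have hpQg := (ord_der_of_simple hQg).2
  have hdg : der g ≠ 0 := H.derg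
  have hzp0 : z ^ p ^ (D - i) ≠ 0 := pow_ne_zero _ hz0
  have e1 : z ^ p ^ (N - i) = (z ^ p ^ (D - i)) ^ p ^ (N - D) := by
    rw [← pow_mul, ← pow_add]
    congr 2
    omega
  have hzN0 : z ^ p ^ (N - i) ≠ 0 := pow_ne_zero _ hz0
  -- derivative
  have hder : der zi * z ^ p ^ (N - i) - der g * Y ^ p ^ (N - D) = - der v := by
    have h1 := der_of_as p hv
    rw [der_sub, der_mul_frob p (by omega), der_mul_frob p (by omega)] at h1
    exact h1
  have key : der zi / der g - RatFunc.C (τ ^ p ^ (N - D)) =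
      (Y / z ^ p ^ (D - i) - RatFunc.C τ) ^ p ^ (N - D) -
        der v * ((der g)⁻¹ * (z ^ p ^ (N - i))⁻¹) := by
    rw [frob_sub p, map_pow, div_pow, ← e1]
    have : der zi = (der g * Y ^ p ^ (N - D) - der v) / z ^ p ^ (N - i) := by
      rw [eq_div_iff hzN0]
      linear_combination hder
    rw [this]
    field_simp
    ring
  rw [key]
  have hordz : ord Q (z ^ p ^ (N - i)) = -((p ^ (N + D - i) : ℕ) : ℤ) := by
    rw [ord_pow, hQz, show N + D - i = (N - i) + D by omega, pow_add]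
    push_cast
    ring
  set W : ℕ := p ^ (D - i) + p ^ (N + D - i) with hW
  have hx : ge Q (zi * z ^ p ^ (N - i) - g * Y ^ p ^ (N - D)) (-(W : ℤ)) := by
    apply ge_sub
    · have h1 : ge Q zi (-((p ^ (D - i) : ℕ) : ℤ)) := by
        rw [← hzi]; exact ge_self
      have h2 : ge Q (z ^ p ^ (N - i)) (-((p ^ (N + D - i) : ℕ) : ℤ)) := by
        rw [← hordz]; exact ge_self
      refine ge_mono (ge_mul h1 h2) ?_
      rw [hW]; push_cast; linarith
    · have h1 : ge Q g (-1) := by rw [← hQg]; exact ge_self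
      have h2 := ge_pow hYp (p ^ (N - D))
      refine ge_mono (ge_mul h1 h2) ?_
      have h3 : p ^ (N - D) * p ^ (2 * D - i) = p ^ (N + D - i) := by
        rw [← pow_add]; congr 1; omega
      have h4 : 1 ≤ p ^ (D - i) := Nat.one_le_pow _ _ (by omega)
      have h5 : ((p ^ (N - D) : ℕ) : ℤ) * -((p ^ (2 * D - i) : ℕ) : ℤ) =
          -((p ^ (N + D - i) : ℕ) : ℤ) := by
        rw [← h3]; push_cast; ring
      rw [h5, hW]
      push_cast
      have h6 : (1 : ℤ) ≤ (p : ℤ) ^ (D - i) := by exact_mod_cast h4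
      linarith
  have hdv := (as_der p hv hx).2
  apply ge_sub
  · have := ge_pow hτ (p ^ (N - D))
    simpa using this
  · have hE : ge Q ((der g)⁻¹ * (z ^ p ^ (N - i))⁻¹) (2 + ((p ^ (N + D - i) : ℕ) : ℤ)) := by
      have h1 : ge Q ((der g)⁻¹) 2 := by
        have : ord Q ((der g)⁻¹) = 2 := by rw [ord_inv, hpQg]; norm_num
        rw [← this]; exact ge_self
      have h2 : ge Q ((z ^ p ^ (N - i))⁻¹) ((p ^ (N + D - i) : ℕ) : ℤ) := by
        have : ord Q ((z ^ p ^ (N - i))⁻¹) = ((p ^ (N + D - i) : ℕ) : ℤ) := by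
          rw [ord_inv, hordz, neg_neg]
        rw [← this]; exact ge_self
      exact ge_mul h1 h2
    refine ge_mono (ge_mul hdv hE) ?_
    have hnum := psi_num hp5 hi hD (show D + 1 ≤ N by omega)
    rw [← hW] at hnum
    have : ((p ^ (N - D) : ℕ) : ℤ) + ((W / p : ℕ) : ℤ) ≤ ((p ^ (N + D - i) : ℕ) : ℤ) + 1 := by
      exact_mod_cast hnum
    linarith

end LR78
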