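import Pool.Agent.LR78.StepPsi

/-!
Comparing `N = M` and `N = M + 1`: with `σ = τ^(p^(M-D))` both `σ` and `σ^p` are the value of
`ψ = der zi / der g` at `Q`, so `σ^p = σ`, `σ ∈ F_p`. (`exists_value` gives `τ`, by `stage_Y` and
`ord (z^(p^(D-i))) = -p^(2D-i)`; `ge_one_unique`, `fix_frob` for constants or
`ZMod`/`X^p - X` root count.)
-/

set_option autoImplicit false

namespace LR78

open Polynomial

variable {p : ℕ} [Fact p.Prime] {k : Type} [Field k] [Algebra (ZMod p) k] [IsAlgClosed k]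
  {g z : RatFunc k} {P : (ZMod p)[X]} {D M : ℕ} {Q : k}

/-- comparing `N = M` and `N = M + 1`: `τ^(p^(M-D)) = τ^(p^(M+1-D))`, so `τ ∈ F_p` -/
theorem stage_tau (H : Hyp p g z P D M) {i : ℕ} (hi : i ≤ D) {S : (ZMod p)[X]} {zi : RatFunc k}
    (h : Stage p g z P D M i S zi) (hQ : typeA p g z D Q) :
    ∃ c : ZMod p, ge Q (der zi / der g - algebraMap (ZMod p) (RatFunc k) c)
      ((p ^ (M - D) : ℕ) : ℤ) := by
  have hp := (Fact.out : p.Prime)
  have hz0 : z ≠ 0 := by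
    rintro rfl
    have h1 := hQ.2.1
    rw [ord_zero] at h1
    have : 0 < p ^ D := pow_pos hp.pos _
    omega
  have hY := stage_Y H hi h hQ
  -- the quotient is regular
  have hreg : ge Q (Yp p g z P D i S / z ^ p ^ (D - i)) 0 := by
    have h1 : ge Q ((z ^ p ^ (D - i))⁻¹) ((p ^ (2 * D - i) : ℕ) : ℤ) := by
      refine Or.inr ?_
      rw [ord_inv, ord_pow, hQ.2.1]
      have : p ^ (2 * D - i) = p ^ (D - i) * p ^ D := by
        rw [← pow_add]; congr 1; omega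
      rw [this]
      push_cast
      linarith
    have h2 := ge_mul hY h1
    rw [div_eq_mul_inv]
    refine ge_mono h2 ?_
    omega
  obtain ⟨τ, hτ⟩ := exists_value hreg
  have hM : ge Q (der zi / der g - RatFunc.C (τ ^ p ^ (M - D))) ((p ^ (M - D) : ℕ) : ℤ) :=
    stage_psi H hi h hQ hτ (Or.inl rfl)
  have hM1 : ge Q (der zi / der g - RatFunc.C (τ ^ p ^ (M + 1 - D)))
      ((p ^ (M + 1 - D) : ℕ) : ℤ) := stage_psi H hi h hQ hτ (Or.inr rfl)
  have hpos : ∀ n : ℕ, (1 : ℤ) ≤ ((p ^ n : ℕ) : ℤ) := fun n => by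
    have : 0 < p ^ n := pow_pos hp.pos _
    omega
  have heq : τ ^ p ^ (M - D) = τ ^ p ^ (M + 1 - D) :=
    ge_one_unique (ge_mono hM (hpos _)) (ge_mono hM1 (hpos _))
  have hMD : M + 1 - D = M - D + 1 := by
    have := H.hN
    omega
  have hfix : (τ ^ p ^ (M - D)) ^ p = τ ^ p ^ (M - D) := by
    rw [hMD, pow_succ, pow_mul] at heq
    exact heq.symm
  obtain ⟨c, hc⟩ := fix_frob (p := p) (x := RatFunc.C (τ ^ p ^ (M - D)))
    (by rw [← map_pow, hfix])
  refine ⟨c, ?_⟩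
  rw [← hc]
  exact hM

end LR78
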