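import Pool.Agent.LR78.Count

/-!
Counting. Let `h = dg g` (`= g.denom.natDegree`, as `g` is regular at infinity; `h ≥ 1`).
Let `S` be a finite set containing all poles of `g` and of `z`; `sum_ord_der_le`:
`∑_{Q∈S} ord (der z) ≤ -1`. At points where `g` is regular `ord (der z) ≥ 0` (`ge_der_zero` if `z`
is regular, `locA` otherwise), at a pole of `g` of order `e` it is `≥ -(e (p^D+1) + 1)`
(`locB1`). Hence `∑_{Q∈S} max (ord (der z)) 0 ≤ ∑_{poles of g} (e (p^D+1)+1) ≤ h (p^D + 2)`.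
* height of `z`: by `locA`, `locB2`, `p^(N-1) dg z ≤ h (p^D+2) + p^(N-1) h (p^D+1) + h`, hence
  `dg z ≤ h (p^D + 2)` because `p^D + 3 ≤ p^(N-1)`.
* among the simple poles in `S₁` those not of type A (first alternative of `locD`) number at most
  `h (p^D+2) / p^(N-1) ≤ h / 6`, so that `2 #A ≥ 2 (#S₁ - h/6) ≥ h`.
-/

set_option autoImplicit false

namespace LR78

open Polynomial

variable {p : ℕ} [Fact p.Prime] {k : Type} [Field k] [Algebra (ZMod p) k] [IsAlgClosed k]
  {g z : RatFunc k} {P : (ZMod p)[X]} {D N : ℕ}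

/-- type A points -/
def typeA (p : ℕ) (g z : RatFunc k) (D : ℕ) (Q : k) : Prop :=
  ord Q g = -1 ∧ ord Q z = -((p ^ D : ℕ) : ℤ) ∧ ord Q (der z) = -2

theorem exists_typeA (H : Hyp p g z P D N) (S₁ : Finset k) (hS₁ : ∀ Q ∈ S₁, ord Q g = -1)
    (hc : 2 * dg g ≤ 3 * S₁.card) :
    ∃ A : Finset k, (∀ Q ∈ A, typeA p g z D Q) ∧ dg g ≤ 2 * A.card ∧ 1 ≤ dg g := by
  classical
  have h1 : 1 ≤ dg g := by
    by_contra hcon
    have h0 : dg g = 0 := by omega
    have hn : g.num.natDegree = 0 := by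
      have : g.num.natDegree ≤ dg g := le_max_left _ _
      omega
    have hd : g.denom.natDegree = 0 := by
      have : g.denom.natDegree ≤ dg g := le_max_right _ _
      omega
    apply H.derg
    have hn' : derivative g.num = 0 := by
      rw [eq_C_of_natDegree_eq_zero hn, derivative_C]
    have hd' : derivative g.denom = 0 := by
      rw [eq_C_of_natDegree_eq_zero hd, derivative_C]
    unfold der
    rw [hn', hd', zero_mul, mul_zero, sub_zero, map_zero, zero_div]
  refine ⟨S₁.filter (typeA p g z D), fun Q hQ => (Finset.mem_filter.1 hQ).2, ?_, h1⟩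
  have hsplit := Finset.card_filter_add_card_filter_not (s := S₁) (typeA p g z D)
  set nA := (S₁.filter (fun Q => ¬ typeA p g z D Q)) with hnA
  have hsum := sum_pos_ord_der_le H nA
  have hlow : ((nA.card * p ^ (N - 1) : ℕ) : ℤ) ≤ ∑ Q ∈ nA, max (ord Q (der z)) 0 := by
    have h2 : ∀ Q ∈ nA, ((p ^ (N - 1) : ℕ) : ℤ) ≤ max (ord Q (der z)) 0 := by
      intro Q hQ
      obtain ⟨hQ1, hQ2⟩ := Finset.mem_filter.1 hQ
      rcases locD H (hS₁ Q hQ1) with h3 | h3
      · exact absurd ⟨hS₁ Q hQ1, h3.1, h3.2⟩ hQ2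
      · exact le_max_of_le_left h3
    have h3 := Finset.card_nsmul_le_sum nA _ _ h2
    rw [nsmul_eq_mul] at h3
    push_cast at h3 ⊢
    exact h3
  have hmain : nA.card * p ^ (N - 1) ≤ dg g * (p ^ D + 2) := by
    exact_mod_cast hlow.trans hsum
  have hp := H.hp
  have hD := H.hD
  have hN := H.hN
  have hpow : 6 * (p ^ D + 2) ≤ p ^ (N - 1) := by
    obtain ⟨r, hr⟩ : ∃ r, N - 1 = D + 2 + r := ⟨N - 1 - (D + 2), by omega⟩
    have e1 : p ^ (N - 1) = p ^ D * (p ^ 2 * p ^ r) := by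
      rw [hr, pow_add, pow_add, mul_assoc]
    have e2 : 25 ≤ p ^ 2 := by nlinarith
    have e3 : 1 ≤ p ^ r := Nat.one_le_pow _ _ (by omega)
    have e4 : p ≤ p ^ D := Nat.le_self_pow (by omega) p
    have e5 : 25 ≤ p ^ 2 * p ^ r := by nlinarith
    rw [e1]
    calc 6 * (p ^ D + 2) ≤ p ^ D * 25 := by linarith
      _ ≤ p ^ D * (p ^ 2 * p ^ r) := Nat.mul_le_mul_left _ e5
  have hfin : 6 * nA.card ≤ dg g := by
    have h2 : (6 * nA.card) * (p ^ D + 2) ≤ dg g * (p ^ D + 2) := by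
      calc (6 * nA.card) * (p ^ D + 2) = nA.card * (6 * (p ^ D + 2)) := by ring
        _ ≤ nA.card * p ^ (N - 1) := Nat.mul_le_mul_left _ hpow
        _ ≤ _ := hmain
    exact Nat.le_of_mul_le_mul_right h2 (by positivity)
  omega

end LR78
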