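import Pool.Agent.LR78.OrdD

/-!
Zeros of `x + b`, `b ∈ F_p`, for separable `x = A/B` (lowest terms). The numerator of `x + b` is
(an associate of) `A + b B`, of degree `dg x` for all but at most one `b` (all `b ≠ 0` if
`deg A < deg B`). A zero of multiplicity `e` of `A + b B` is a zero of multiplicity `≥ e - 1` of
`w = A' B - A B' = (A + b B)' B - (A + b B) B'`, the numerator of `der x`, and `deg w ≤ 2 dg x - 1`;
zeros for different `b` are different.
-/

set_option autoImplicit false

namespace LR78

open Polynomial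

variable (p : ℕ) [Fact p.Prime] {k : Type} [Field k] [Algebra (ZMod p) k] [IsAlgClosed k]

section aux

omit [IsAlgClosed k] in
theorem zs_algebraMap (b : ZMod p) :
    algebraMap (ZMod p) (RatFunc k) b = RatFunc.C (algebraMap (ZMod p) k b) := by
  rw [IsScalarTower.algebraMap_apply (ZMod p) k (RatFunc k)]; rfl

omit [IsAlgClosed k] in
theorem zs_algebraMap' (b : ZMod p) :
    algebraMap (ZMod p) (RatFunc k) b
      = algebraMap k[X] (RatFunc k) (C (algebraMap (ZMod p) k b)) := by
  rw [IsScalarTower.algebraMap_apply (ZMod p) k[X] (RatFunc k)]; rfl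

/-- the numerator `A + b B` -/
noncomputable def zsN (x : RatFunc k) (b : ZMod p) : k[X] :=
  x.num + C (algebraMap (ZMod p) k b) * x.denom

/-- the numerator of the derivative -/
noncomputable def zsW (x : RatFunc k) : k[X] :=
  derivative x.num * x.denom - x.num * derivative x.denom

omit [IsAlgClosed k] in
theorem zs_W_ne {x : RatFunc k} (hd : der x ≠ 0) : zsW x ≠ 0 := by
  intro h
  apply hd
  unfold der
  unfold zsW at h
  rw [h]; simp

omit [IsAlgClosed k] in
theorem zs_W_eq (x : RatFunc k) (b : ZMod p) :
    zsW x = derivative (zsN p x b) * x.denom - (zsN p x b) * derivative x.denom := by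
  unfold zsW zsN
  simp only [derivative_add, derivative_mul, derivative_C, zero_mul, zero_add]
  ring

omit [IsAlgClosed k] in
theorem zs_N_ne {x : RatFunc k} (hd : der x ≠ 0) (b : ZMod p) : zsN p x b ≠ 0 := by
  intro h
  apply zs_W_ne hd
  rw [zs_W_eq p x b, h]; simp

omit [IsAlgClosed k] in
theorem zs_coprime (x : RatFunc k) (b : ZMod p) : IsCoprime (zsN p x b) x.denom := by
  unfold zsN
  have h := RatFunc.isCoprime_num_denom x
  exact IsCoprime.add_mul_right_left h _

omit [IsAlgClosed k] in
theorem zs_add_eq (x : RatFunc k) (b : ZMod p) :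
    x + algebraMap (ZMod p) (RatFunc k) b =
      algebraMap k[X] (RatFunc k) (zsN p x b) / algebraMap k[X] (RatFunc k) x.denom := by
  have hB : algebraMap k[X] (RatFunc k) x.denom ≠ 0 := by
    simpa using RatFunc.denom_ne_zero x
  rw [zs_algebraMap', zsN, map_add, map_mul, add_div, mul_div_assoc, div_self hB, mul_one,
    RatFunc.num_div_denom]

omit [IsAlgClosed k] in
theorem zs_ord {x : RatFunc k} (hd : der x ≠ 0) (b : ZMod p) (Q : k) :
    ord Q (x + algebraMap (ZMod p) (RatFunc k) b) =
      ((zsN p x b).rootMultiplicity Q : ℤ) - (x.denom.rootMultiplicity Q : ℤ) := by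
  rw [zs_add_eq, ord_div_algebraMap (zs_N_ne p hd b) (RatFunc.denom_ne_zero x)]

omit [IsAlgClosed k] in
theorem zs_denom_mult {x : RatFunc k} {b : ZMod p} {Q : k} (h : (zsN p x b).IsRoot Q) :
    x.denom.rootMultiplicity Q = 0 := by
  rw [rootMultiplicity_eq_zero_iff]
  intro hB
  exfalso
  obtain ⟨u, v, huv⟩ := zs_coprime p x b
  have := congrArg (eval Q) huv
  simp only [eval_add, eval_mul, eval_one] at this
  rw [h.eq_zero, hB.eq_zero] at this
  simp at this

omit [IsAlgClosed k] in
theorem zs_root_iff {x : RatFunc k} (hd : der x ≠ 0) (b : ZMod p) (Q : k) :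
    (zsN p x b).IsRoot Q ↔ 0 < ord Q (x + algebraMap (ZMod p) (RatFunc k) b) := by
  rw [zs_ord p hd b Q]
  constructor
  · intro h
    rw [zs_denom_mult p h]
    have := (rootMultiplicity_pos (zs_N_ne p hd b)).2 h
    rw [Nat.cast_zero, sub_zero]; exact_mod_cast this
  · intro h
    have : 0 < (zsN p x b).rootMultiplicity Q := by omega
    exact (rootMultiplicity_pos (zs_N_ne p hd b)).1 this

omit [IsAlgClosed k] in
theorem zs_ord_root {x : RatFunc k} (hd : der x ≠ 0) {b : ZMod p} {Q : k}
    (h : (zsN p x b).IsRoot Q) :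
    ord Q (x + algebraMap (ZMod p) (RatFunc k) b) = ((zsN p x b).rootMultiplicity Q : ℤ) := by
  rw [zs_ord p hd b Q, zs_denom_mult p h]; simp

omit [IsAlgClosed k] in
theorem zs_W_mult {x : RatFunc k} (hd : der x ≠ 0) (b : ZMod p) (Q : k) :
    (zsN p x b).rootMultiplicity Q - 1 ≤ (zsW x).rootMultiplicity Q := by
  rw [le_rootMultiplicity_iff (zs_W_ne hd), zs_W_eq p x b]
  set e := (zsN p x b).rootMultiplicity Q with he
  obtain ⟨q, hq⟩ := pow_rootMultiplicity_dvd (zsN p x b) Q
  rw [← he] at hq
  rcases Nat.eq_zero_or_pos e with h0 | h0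
  · rw [h0]; simp
  have hpow : (X - C Q : k[X]) ^ e = (X - C Q) ^ (e - 1) * (X - C Q) := by
    rw [← pow_succ]; congr 1; omega
  apply dvd_sub
  · apply Dvd.dvd.mul_right
    rw [hq, derivative_mul]
    apply dvd_add
    · apply Dvd.dvd.mul_right
      rw [derivative_X_sub_C_pow]
      exact Dvd.intro_left _ rfl
    · apply Dvd.dvd.mul_right
      rw [hpow]; exact Dvd.intro _ rfl
  · apply Dvd.dvd.mul_right
    rw [hq, hpow, mul_assoc]
    exact Dvd.intro _ rfl

omit [IsAlgClosed k] in
theorem zs_W_deg {x : RatFunc k} (hd : der x ≠ 0) :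
    ((zsW x).natDegree : ℤ) ≤ 2 * (dg x : ℤ) - 1 := by
  have hW := zs_W_ne hd
  have hA : x.num.natDegree ≤ dg x := le_max_left _ _
  have hB : x.denom.natDegree ≤ dg x := le_max_right _ _
  have hAB : x.num.natDegree + x.denom.natDegree ≠ 0 := by
    intro h
    have h1 : x.num.natDegree = 0 := by omega
    have h2 : x.denom.natDegree = 0 := by omega
    apply hW
    unfold zsW
    rw [derivative_of_natDegree_zero h1, derivative_of_natDegree_zero h2]
    simp
  have hle : (zsW x).natDegree ≤ x.num.natDegree + x.denom.natDegree - 1 := by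
    unfold zsW
    apply (natDegree_sub_le _ _).trans
    apply max_le
    · by_cases h : x.num.natDegree = 0
      · rw [derivative_of_natDegree_zero h]; simp
      · apply natDegree_mul_le.trans
        have := natDegree_derivative_le x.num
        omega
    · by_cases h : x.denom.natDegree = 0
      · rw [derivative_of_natDegree_zero h]; simp
      · apply natDegree_mul_le.trans
        have := natDegree_derivative_le x.denom
        omega
  omega

open Classical in
theorem zs_sum_mult (P : k[X]) :
    ∑ Q ∈ P.roots.toFinset, ((P.rootMultiplicity Q : ℕ) : ℤ) = (P.natDegree : ℤ) := by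
  have h := Multiset.toFinset_sum_count_eq P.roots
  rw [IsAlgClosed.card_roots_eq_natDegree] at h
  rw [← h]
  push_cast
  apply Finset.sum_congr rfl
  intro Q _
  rw [count_roots]

open Classical in
omit [IsAlgClosed k] in
theorem zs_sum_mult_le (P : k[X]) (S : Finset k) :
    ∑ Q ∈ S, (P.rootMultiplicity Q : ℤ) ≤ (P.natDegree : ℤ) := by
  have h : ∑ Q ∈ S, P.rootMultiplicity Q ≤ ∑ Q ∈ P.roots.toFinset, P.rootMultiplicity Q := by
    apply Finset.sum_le_sum_of_ne_zero
    intro Q _ hQ
    rw [Multiset.mem_toFinset, ← Multiset.count_pos, count_roots]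
    omega
  have h' : ∑ Q ∈ S, (P.rootMultiplicity Q : ℤ) ≤
      ∑ Q ∈ P.roots.toFinset, (P.rootMultiplicity Q : ℤ) := by exact_mod_cast h
  refine h'.trans ?_
  have h1 := Multiset.toFinset_sum_count_eq P.roots
  have h2 := P.card_roots'
  rw [← h1] at h2
  have h3 : ∑ Q ∈ P.roots.toFinset, (P.rootMultiplicity Q : ℤ) =
      ((∑ Q ∈ P.roots.toFinset, Multiset.count Q P.roots : ℕ) : ℤ) := by
    push_cast
    apply Finset.sum_congr rfl
    intro Q _
    rw [count_roots]
  rw [h3]
  exact_mod_cast h2

end aux

/-- zeros for different `b` are different -/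
theorem zero_disjoint {x : RatFunc k} {b b' : ZMod p} (h : b ≠ b') {Q : k}
    (h1 : 0 < ord Q (x + algebraMap (ZMod p) (RatFunc k) b))
    (h2 : 0 < ord Q (x + algebraMap (ZMod p) (RatFunc k) b')) : False := by
  have g1 : ge Q (x + algebraMap (ZMod p) (RatFunc k) b) 1 := Or.inr (by omega)
  have g2 : ge Q (x + algebraMap (ZMod p) (RatFunc k) b') 1 := Or.inr (by omega)
  have g := ge_sub g1 g2
  have e : x + algebraMap (ZMod p) (RatFunc k) b - (x + algebraMap (ZMod p) (RatFunc k) b') =
      RatFunc.C (algebraMap (ZMod p) k (b - b')) := by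
    rw [zs_algebraMap, zs_algebraMap, map_sub, map_sub]; ring
  rw [e] at g
  have h0 := C_eq_zero_of_ge_one g
  have : b - b' = 0 := (map_eq_zero_iff _ (algebraMap (ZMod p) k).injective).1 h0
  exact h (sub_eq_zero.1 this)

/-- at a zero of `x + b` of multiplicity `e`, `der x` vanishes to order `≥ e - 1` -/
theorem ord_der_ge {x : RatFunc k} (hd : der x ≠ 0) {b : ZMod p} {Q : k} :
    ord Q (x + algebraMap (ZMod p) (RatFunc k) b) - 1 ≤ ord Q (der x) := by
  have g : ge Q (x + algebraMap (ZMod p) (RatFunc k) b)
    (ord Q (x + algebraMap (ZMod p) (RatFunc k) b)) := ge_self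
  have g2 := ge_der g
  rw [der_add, zs_algebraMap, der_C, add_zero] at g2
  rw [zs_algebraMap]
  exact (ge_iff hd).1 g2

open Classical in
theorem zero_sets {x : RatFunc k} (hd : der x ≠ 0) :
    ∃ Z : ZMod p → Finset k,
      (∀ b Q, Q ∈ Z b ↔ 0 < ord Q (x + algebraMap (ZMod p) (RatFunc k) b)) ∧
      (∑ b, ∑ Q ∈ Z b, (ord Q (x + algebraMap (ZMod p) (RatFunc k) b) - 1)
        ≤ 2 * (dg x : ℤ) - 1) ∧
      (∃ a₁, ∀ b, b ≠ a₁ →
        ∑ Q ∈ Z b, ord Q (x + algebraMap (ZMod p) (RatFunc k) b) = (dg x : ℤ)) ∧
      (x.num.natDegree < x.denom.natDegree → ∀ b, b ≠ 0 →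
        ∑ Q ∈ Z b, ord Q (x + algebraMap (ZMod p) (RatFunc k) b) = (dg x : ℤ)) := by
  have hmem : ∀ b Q, Q ∈ (zsN p x b).roots.toFinset ↔
      0 < ord Q (x + algebraMap (ZMod p) (RatFunc k) b) := by
    intro b Q
    rw [Multiset.mem_toFinset, mem_roots (zs_N_ne p hd b), zs_root_iff p hd]
  have hroot : ∀ b Q, Q ∈ (zsN p x b).roots.toFinset → (zsN p x b).IsRoot Q := by
    intro b Q h
    rw [Multiset.mem_toFinset, mem_roots (zs_N_ne p hd b)] at h
    exact h
  have hsum : ∀ b, ∑ Q ∈ (zsN p x b).roots.toFinset,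
      ord Q (x + algebraMap (ZMod p) (RatFunc k) b) = ((zsN p x b).natDegree : ℤ) := by
    intro b
    rw [← zs_sum_mult]
    apply Finset.sum_congr rfl
    intro Q hQ
    exact zs_ord_root p hd (hroot b Q hQ)
  have hinj := (algebraMap (ZMod p) k).injective
  refine ⟨fun b => (zsN p x b).roots.toFinset, hmem, ?_, ?_, ?_⟩
  · have hdisj : ∀ b ∈ (Finset.univ : Finset (ZMod p)), ∀ b' ∈ (Finset.univ : Finset (ZMod p)),
        b ≠ b' → Disjoint ((zsN p x b).roots.toFinset) ((zsN p x b').roots.toFinset) := by
      intro b _ b' _ hbb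
      rw [Finset.disjoint_left]
      intro Q h1 h2
      exact zero_disjoint p hbb ((hmem b Q).1 h1) ((hmem b' Q).1 h2)
    have h1 : ∑ b, ∑ Q ∈ (zsN p x b).roots.toFinset,
        (ord Q (x + algebraMap (ZMod p) (RatFunc k) b) - 1) ≤
        ∑ b, ∑ Q ∈ (zsN p x b).roots.toFinset, ((zsW x).rootMultiplicity Q : ℤ) := by
      apply Finset.sum_le_sum
      intro b _
      apply Finset.sum_le_sum
      intro Q hQ
      rw [zs_ord_root p hd (hroot b Q hQ)]
      have := zs_W_mult p hd b Q
      omega
    have h2 : ∑ b, ∑ Q ∈ (zsN p x b).roots.toFinset, ((zsW x).rootMultiplicity Q : ℤ) =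
        ∑ Q ∈ (Finset.univ : Finset (ZMod p)).biUnion (fun b => (zsN p x b).roots.toFinset),
          ((zsW x).rootMultiplicity Q : ℤ) := by
      rw [Finset.sum_biUnion]
      intro b hb b' hb' hbb
      exact hdisj b (Finset.mem_univ _) b' (Finset.mem_univ _) hbb
    rw [h2] at h1
    exact h1.trans ((zs_sum_mult_le _ _).trans (zs_W_deg hd))
  · -- degree of `A + b B`
    rcases lt_trichotomy x.num.natDegree x.denom.natDegree with hlt | heq | hgt
    · refine ⟨0, fun b hb => ?_⟩
      rw [hsum b]
      have hb' : algebraMap (ZMod p) k b ≠ 0 := by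
        intro h; exact hb ((map_eq_zero_iff _ hinj).1 h)
      have hn : (C (algebraMap (ZMod p) k b) * x.denom).natDegree = x.denom.natDegree :=
        natDegree_C_mul hb'
      have : (zsN p x b).natDegree = x.denom.natDegree := by
        unfold zsN
        rw [natDegree_add_eq_right_of_natDegree_lt (by rw [hn]; exact hlt), hn]
      rw [this]
      unfold dg
      rw [max_eq_right hlt.le]
    · by_cases hex : ∃ a₁ : ZMod p, algebraMap (ZMod p) k a₁ = - x.num.leadingCoeff
      · obtain ⟨a₁, ha₁⟩ := hex
        refine ⟨a₁, fun b hb => ?_⟩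
        rw [hsum b]
        have hdg : dg x = x.denom.natDegree := by unfold dg; rw [heq, max_self]
        rw [hdg]
        congr 1
        apply le_antisymm
        · unfold zsN
          refine (natDegree_add_le _ _).trans (max_le heq.le ?_)
          exact natDegree_C_mul_le _ _
        · apply le_natDegree_of_ne_zero
          unfold zsN
          rw [coeff_add, coeff_C_mul]
          have e1 : x.num.coeff x.denom.natDegree = x.num.leadingCoeff := by
            rw [← heq]; rfl
          have e2 : x.denom.coeff x.denom.natDegree = 1 := RatFunc.monic_denom x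
          rw [e1, e2, mul_one]
          intro h
          apply hb
          apply hinj
          rw [ha₁]
          linear_combination h
      · refine ⟨0, fun b hb => ?_⟩
        rw [hsum b]
        have hdg : dg x = x.denom.natDegree := by unfold dg; rw [heq, max_self]
        rw [hdg]
        congr 1
        apply le_antisymm
        · unfold zsN
          refine (natDegree_add_le _ _).trans (max_le heq.le ?_)
          exact natDegree_C_mul_le _ _
        · apply le_natDegree_of_ne_zero
          unfold zsN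
          rw [coeff_add, coeff_C_mul]
          have e1 : x.num.coeff x.denom.natDegree = x.num.leadingCoeff := by
            rw [← heq]; rfl
          have e2 : x.denom.coeff x.denom.natDegree = 1 := RatFunc.monic_denom x
          rw [e1, e2, mul_one]
          intro h
          apply hex
          refine ⟨b, ?_⟩
          linear_combination h
    · refine ⟨0, fun b hb => ?_⟩
      rw [hsum b]
      have : (zsN p x b).natDegree = x.num.natDegree := by
        unfold zsN
        rw [natDegree_add_eq_left_of_natDegree_lt]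
        exact lt_of_le_of_lt (natDegree_C_mul_le _ _) hgt
      rw [this]
      unfold dg
      rw [max_eq_left hgt.le]
  · intro hlt b hb
    rw [hsum b]
    have hb' : algebraMap (ZMod p) k b ≠ 0 := by
      intro h; exact hb ((map_eq_zero_iff _ hinj).1 h)
    have hn : (C (algebraMap (ZMod p) k b) * x.denom).natDegree = x.denom.natDegree :=
      natDegree_C_mul hb'
    have : (zsN p x b).natDegree = x.denom.natDegree := by
      unfold zsN
      rw [natDegree_add_eq_right_of_natDegree_lt (by rw [hn]; exact hlt), hn]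
    rw [this]
    unfold dg
    rw [max_eq_right hlt.le]

end LR78
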